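import Pool.Agent.Lib_helper4.TFS_C3

/-!
# C*-framework, part 4: products of commuting copies of a unitary, and the intertwining theorem
for systems of wreath product type.
-/

set_option autoImplicit false

open scoped ENNReal
open Filter Topology

namespace TFS

section Length

variable {A : Type*} [NormedRing A] [StarRing A] [CStarRing A]

theorem norm_mul_sub_one_le (u v : unitary A) :
    ‖((u * v : unitary A) : A) - 1‖ ≤ ‖(u : A) - 1‖ + ‖(v : A) - 1‖ := by
  have e : ((u * v : unitary A) : A) - 1 = (u : A) * ((v : A) - 1) + ((u : A) - 1) := by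
    rw [Submonoid.coe_mul, mul_sub, mul_one]; abel
  rw [e]
  refine (norm_add_le _ _).trans ?_
  rw [CStarRing.norm_coe_unitary_mul, add_comm]

theorem norm_mul_inv_sub_one (u v : unitary A) :
    ‖((u * v⁻¹ : unitary A) : A) - 1‖ = ‖(u : A) - (v : A)‖ := by
  have e : ((u * v⁻¹ : unitary A) : A) - 1 = ((u : A) - v) * ((v⁻¹ : unitary A) : A) := by
    rw [Submonoid.coe_mul, sub_mul]
    congr 1
    rw [← Unitary.star_eq_inv, Unitary.coe_star, Unitary.mul_star_self_of_mem v.2]
  rw [e, CStarRing.norm_mul_coe_unitary]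

theorem norm_inv_sub_inv (u v : unitary A) :
    ‖((u⁻¹ : unitary A) : A) - ((v⁻¹ : unitary A) : A)‖ = ‖(u : A) - (v : A)‖ := by
  rw [← Unitary.star_eq_inv, ← Unitary.star_eq_inv, Unitary.coe_star, Unitary.coe_star,
    ← star_sub, norm_star]

theorem norm_pow_sub_pow_le (u v : unitary A) (m : ℕ) :
    ‖((u ^ m : unitary A) : A) - ((v ^ m : unitary A) : A)‖ ≤ m * ‖(u : A) - (v : A)‖ := by
  induction m with
  | zero => simp
  | succ m ih =>
    have e : ((u ^ (m + 1) : unitary A) : A) - ((v ^ (m + 1) : unitary A) : A) =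
        ((u ^ m : unitary A) : A) * ((u : A) - v) +
        (((u ^ m : unitary A) : A) - ((v ^ m : unitary A) : A)) * v := by
      rw [pow_succ, pow_succ, Submonoid.coe_mul, Submonoid.coe_mul, mul_sub, sub_mul]
      abel
    rw [e]
    refine (norm_add_le _ _).trans ?_
    rw [CStarRing.norm_coe_unitary_mul, CStarRing.norm_mul_coe_unitary, Nat.cast_add,
      Nat.cast_one]
    linarith

theorem norm_zpow_sub_zpow_le (u v : unitary A) (m : ℤ) :
    ‖((u ^ m : unitary A) : A) - ((v ^ m : unitary A) : A)‖ ≤ |(m : ℝ)| * ‖(u : A) - (v : A)‖ := by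
  rcases le_total 0 m with h | h
  · obtain ⟨k, rfl⟩ := Int.eq_ofNat_of_zero_le h
    rw [zpow_natCast, zpow_natCast]
    simpa using norm_pow_sub_pow_le u v k
  · obtain ⟨k, hk⟩ := Int.eq_ofNat_of_zero_le (neg_nonneg.2 h)
    have hm : m = -(k : ℤ) := by rw [← hk, neg_neg]
    subst hm
    rw [zpow_neg, zpow_neg, zpow_natCast, zpow_natCast, norm_inv_sub_inv]
    simpa using norm_pow_sub_pow_le u v k

end Length

section UCr

/-- the unitaries of the reduced group C*-algebra, as a subgroup -/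
noncomputable def UCr (H : Type*) [Group H] : Subgroup (unitary (BL H)) where
  carrier := {u | (u : BL H) ∈ Cr H}
  one_mem' := one_mem (Cr H)
  mul_mem' := by
    intro a b ha hb
    have ha' : (a : BL H) ∈ Cr H := ha
    have hb' : (b : BL H) ∈ Cr H := hb
    exact mul_mem ha' hb'
  inv_mem' := by
    intro u hu
    show ((u⁻¹ : unitary (BL H)) : BL H) ∈ Cr H
    have hu' : (u : BL H) ∈ Cr H := hu
    rw [← Unitary.star_eq_inv]
    exact star_mem hu'

theorem mem_UCr {H : Type*} [Group H] {u : unitary (BL H)} : u ∈ UCr H ↔ (u : BL H) ∈ Cr H :=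
  Iff.rfl

theorem coe_UCr_mem {H : Type*} [Group H] (u : UCr H) :
    ((u : unitary (BL H)) : BL H) ∈ Cr H := mem_UCr.1 u.2

variable {H K : Type*} [Group H] [Group K]

/-- translations in `UCr` -/
noncomputable def lamUCr : H →* UCr H :=
  lamU.codRestrict (UCr H) (fun h => mem_UCr.2 (lam_mem_Cr h))

theorem coe_lamUCr (h : H) : ((lamUCr h : UCr H) : unitary (BL H)) = lamU h := rfl

/-- the homomorphism of unitary groups induced by an injective homomorphism -/
noncomputable def cpU (j : H →* K) (hj : Function.Injective j) : UCr H →* unitary (BL K) where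
  toFun u := ⟨bigMap j hj ((u : unitary (BL H)) : BL H), Unitary.map_mem (bigMap j hj) u.1.2⟩
  map_one' := Subtype.ext (map_one (bigMap j hj))
  map_mul' _ _ := Subtype.ext (map_mul (bigMap j hj) _ _)

theorem coe_cpU (j : H →* K) (hj : Function.Injective j) (u : UCr H) :
    (cpU j hj u : BL K) = bigMap j hj ((u : unitary (BL H)) : BL H) := rfl

theorem cpU_lamUCr (j : H →* K) (hj : Function.Injective j) (h : H) :
    cpU j hj (lamUCr h) = lamU (j h) := Subtype.ext (bigMap_lam j hj h)

theorem cpU_mem (j : H →* K) (hj : Function.Injective j) (u : UCr H) :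
    (cpU j hj u : BL K) ∈ CrRep ((lamU (G := K)).comp j) := bigMap_mem j hj (coe_UCr_mem u)

theorem norm_cpU_sub_one_le (j : H →* K) (hj : Function.Injective j) (u : UCr H) :
    ‖(cpU j hj u : BL K) - 1‖ ≤ ‖((u : unitary (BL H)) : BL H) - 1‖ := by
  have h := norm_bigMap_le j hj (((u : unitary (BL H)) : BL H) - 1)
  rwa [map_sub, map_one] at h

theorem commute_CrRep {Γ₁ Γ₂ A : Type*} [Group Γ₁] [Group Γ₂] [NormedRing A] [NormedAlgebra ℂ A]
    [StarRing A] [StarModule ℂ A] [CStarRing A] (π₁ : Γ₁ →* unitary A) (π₂ : Γ₂ →* unitary A)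
    (h : ∀ a b, Commute (π₁ a) (π₂ b)) {S T : A} (hS : S ∈ CrRep π₁) (hT : T ∈ CrRep π₂) :
    Commute S T := by
  revert T
  apply CrRep_induction
  · exact isClosed_eq (by fun_prop) (by fun_prop)
  · exact Commute.zero_right S
  · intro T T' h h'
    exact h.add_right h'
  · intro c T h
    exact h.smul_right c
  · intro b
    revert S
    apply CrRep_induction
    · exact isClosed_eq (by fun_prop) (by fun_prop)
    · exact Commute.zero_left _
    · intro T T' h h'
      exact h.add_left h'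
    · intro c T h
      exact h.smul_left c
    · intro a
      exact congrArg Subtype.val (h a b)

end UCr

section Prod

variable {H K : Type*} [Group H] [Group K] {Ω : Type*} [Fintype Ω] [DecidableEq Ω]

/-- the `ω`-th coordinate homomorphism -/
def coordHom (P : (Ω → H) →* K) (ω : Ω) : H →* K := P.comp (MonoidHom.mulSingle (fun _ => H) ω)

omit [Fintype Ω] in
theorem coordHom_apply (P : (Ω → H) →* K) (ω : Ω) (h : H) :
    coordHom P ω h = P (Pi.mulSingle ω h) := rfl

omit [Fintype Ω] in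
theorem coordHom_injective {P : (Ω → H) →* K} (hP : Function.Injective P) (ω : Ω) :
    Function.Injective (coordHom P ω) := fun _ _ h => Pi.mulSingle_injective ω (hP h)

/-- the homomorphism of unitary groups onto the `ω`-th copy -/
noncomputable def cU (P : (Ω → H) →* K) (hP : Function.Injective P) (ω : Ω) :
    UCr H →* unitary (BL K) := cpU (coordHom P ω) (coordHom_injective hP ω)

omit [Fintype Ω] in
theorem coord_commute (P : (Ω → H) →* K) (hP : Function.Injective P) :
    Pairwise fun ω ω' : Ω => ∀ u v : UCr H, Commute (cU P hP ω u) (cU P hP ω' v) := by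
  intro ω ω' hne u v
  have h := commute_CrRep ((lamU (G := K)).comp (coordHom P ω))
    ((lamU (G := K)).comp (coordHom P ω')) (fun a b => by
      show Commute (lamU (coordHom P ω a)) (lamU (coordHom P ω' b))
      apply Commute.map
      rw [coordHom_apply, coordHom_apply]
      exact (Pi.mulSingle_commute hne a b).map P)
    (cpU_mem (coordHom P ω) (coordHom_injective hP ω) u)
    (cpU_mem (coordHom P ω') (coordHom_injective hP ω') v)
  exact Subtype.ext h

omit [Fintype Ω] in
theorem coord_pairwise (P : (Ω → H) →* K) (hP : Function.Injective P) (a : Ω → UCr H)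
    (s : Finset Ω) : (s : Set Ω).Pairwise (Function.onFun Commute fun ω => cU P hP ω (a ω)) :=
  fun _ _ _ _ hne => coord_commute P hP hne _ _

/-- the product homomorphism of unitary groups -/
noncomputable def Theta (P : (Ω → H) →* K) (hP : Function.Injective P) :
    (Ω → UCr H) →* unitary (BL K) :=
  MonoidHom.noncommPiCoprod (fun ω => cU P hP ω) (coord_commute P hP)

theorem Theta_apply (P : (Ω → H) →* K) (hP : Function.Injective P) (a : Ω → UCr H) :
    Theta P hP a = Finset.univ.noncommProd (fun ω => cU P hP ω (a ω))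
      (coord_pairwise P hP a Finset.univ) := rfl

theorem Theta_mulSingle (P : (Ω → H) →* K) (hP : Function.Injective P) (ω : Ω) (u : UCr H) :
    Theta P hP (Pi.mulSingle ω u) = cpU (coordHom P ω) (coordHom_injective hP ω) u :=
  MonoidHom.noncommPiCoprod_mulSingle (fun ω => cU P hP ω) ω u

theorem Theta_lam (P : (Ω → H) →* K) (hP : Function.Injective P) (φ : Ω → H) :
    Theta P hP (fun ω => lamUCr (φ ω)) = lamU (P φ) := by
  let L : (Ω → H) →* (Ω → UCr H) :=
    { toFun := fun φ ω => lamUCr (φ ω)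
      map_one' := by funext ω; exact map_one _
      map_mul' := fun a b => by funext ω; exact map_mul _ _ _ }
  have h : (Theta P hP).comp L = (lamU (G := K)).comp P := by
    apply MonoidHom.pi_ext
    intro ω h
    have e : L (Pi.mulSingle ω h) = Pi.mulSingle ω (lamUCr h) := by
      funext ω'
      show lamUCr ((Pi.mulSingle ω h : Ω → H) ω') = _
      by_cases hω : ω' = ω
      · subst hω; rw [Pi.mulSingle_eq_same, Pi.mulSingle_eq_same]
      · rw [Pi.mulSingle_eq_of_ne hω, Pi.mulSingle_eq_of_ne hω, map_one]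
    show Theta P hP (L (Pi.mulSingle ω h)) = lamU (P (Pi.mulSingle ω h))
    rw [e, Theta_mulSingle, cpU_lamUCr]
    rfl
  exact DFunLike.congr_fun h φ

theorem norm_Theta_sub_one_le (P : (Ω → H) →* K) (hP : Function.Injective P) (a : Ω → UCr H) :
    ‖(Theta P hP a : BL K) - 1‖ ≤ ∑ ω, ‖((a ω : unitary (BL H)) : BL H) - 1‖ := by
  have key : ∀ s : Finset Ω, ‖((s.noncommProd (fun ω => cU P hP ω (a ω))
      (coord_pairwise P hP a s) : unitary (BL K)) : BL K) - 1‖ ≤
      ∑ ω ∈ s, ‖((a ω : unitary (BL H)) : BL H) - 1‖ := by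
    intro s
    induction s using Finset.induction_on with
    | empty => rw [Finset.noncommProd_empty]; simp
    | insert ω s hω ih =>
      rw [Finset.noncommProd_insert_of_notMem _ _ _ _ hω, Finset.sum_insert hω]
      refine (norm_mul_sub_one_le _ _).trans ?_
      exact add_le_add (norm_cpU_sub_one_le _ _ _) ih
  exact key Finset.univ

theorem norm_Theta_sub_le (P : (Ω → H) →* K) (hP : Function.Injective P) (a b : Ω → UCr H) :
    ‖(Theta P hP a : BL K) - (Theta P hP b : BL K)‖ ≤
      ∑ ω, ‖((a ω : unitary (BL H)) : BL H) - ((b ω : unitary (BL H)) : BL H)‖ := by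
  rw [← norm_mul_inv_sub_one, ← map_inv, ← map_mul]
  refine (norm_Theta_sub_one_le P hP _).trans (le_of_eq ?_)
  refine Finset.sum_congr rfl fun ω _ => ?_
  rw [← norm_mul_inv_sub_one]
  rfl

/-- `Theta` of anything lies in the closed algebra generated by the translations by `P φ`. -/
theorem Theta_mem (P : (Ω → H) →* K) (hP : Function.Injective P) (a : Ω → UCr H) :
    (Theta P hP a : BL K) ∈ CrRep ((lamU (G := K)).comp P) := by
  have key : ∀ s : Finset Ω, ((s.noncommProd (fun ω => cU P hP ω (a ω))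
      (coord_pairwise P hP a s) : unitary (BL K)) : BL K) ∈
      CrRep ((lamU (G := K)).comp P) := by
    intro s
    induction s using Finset.induction_on with
    | empty => rw [Finset.noncommProd_empty]; exact one_mem (CrRep ((lamU (G := K)).comp P))
    | insert ω s hω ih =>
      rw [Finset.noncommProd_insert_of_notMem _ _ _ _ hω, Submonoid.coe_mul]
      refine mul_mem ?_ ih
      refine CrRep_le ((lamU (G := K)).comp (coordHom P ω)) (isClosed_CrRep _) ?_
        (cpU_mem (coordHom P ω) (coordHom_injective hP ω) (a ω))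
      intro h
      exact mem_CrRep ((lamU (G := K)).comp P) (Pi.mulSingle ω h)
  exact key Finset.univ

/-- elements permuting the coordinates commute with the product of equal unitaries -/
theorem Theta_const_commute (P : (Ω → H) →* K) (hP : Function.Injective P) (u : UCr H) (β : K)
    (σ : Equiv.Perm Ω) (hβ : ∀ ω h, β * P (Pi.mulSingle ω h) * β⁻¹ = P (Pi.mulSingle (σ ω) h)) :
    lamU β * Theta P hP (fun _ => u) * (lamU β)⁻¹ = Theta P hP (fun _ => u) := by
  let S : (Ω → UCr H) →* (Ω → UCr H) :=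
    { toFun := fun a ω => a (σ.symm ω)
      map_one' := rfl
      map_mul' := fun a b => rfl }
  have h : ((MulAut.conj (lamU β)).toMonoidHom.comp (Theta P hP)) = (Theta P hP).comp S := by
    apply MonoidHom.pi_ext
    intro ω v
    have e : S (Pi.mulSingle ω v) = Pi.mulSingle (σ ω) v := by
      funext ω'
      show (Pi.mulSingle ω v : Ω → UCr H) (σ.symm ω') = _
      by_cases hω : ω' = σ ω
      · subst hω; rw [Equiv.symm_apply_apply, Pi.mulSingle_eq_same, Pi.mulSingle_eq_same]
      · rw [Pi.mulSingle_eq_of_ne hω, Pi.mulSingle_eq_of_ne]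
        intro h1
        exact hω (by rw [← h1, Equiv.apply_symm_apply])
    show lamU β * Theta P hP (Pi.mulSingle ω v) * (lamU β)⁻¹ = Theta P hP (S (Pi.mulSingle ω v))
    rw [e, Theta_mulSingle, Theta_mulSingle]
    apply Subtype.ext
    show lam β * bigMap (coordHom P ω) (coordHom_injective hP ω) ((v : unitary (BL H)) : BL H) *
      ((lamU β)⁻¹ : unitary (BL K)) =
      bigMap (coordHom P (σ ω)) (coordHom_injective hP (σ ω)) ((v : unitary (BL H)) : BL H)
    rw [← map_inv]
    show lam β * bigMap (coordHom P ω) (coordHom_injective hP ω) ((v : unitary (BL H)) : BL H) *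
      lam β⁻¹ = _
    have hv := coe_UCr_mem v
    revert hv
    generalize ((v : unitary (BL H)) : BL H) = T
    revert T
    apply Cr_induction
    · refine isClosed_eq ?_ (continuous_bigMap _ _)
      exact (continuous_const.mul (continuous_bigMap _ _)).mul continuous_const
    · rw [map_zero, map_zero, mul_zero, zero_mul]
    · intro T T' h h'
      rw [map_add, map_add, mul_add, add_mul, h, h']
    · intro c T h
      rw [map_smul, map_smul, mul_smul_comm, smul_mul_assoc, h]
    · intro g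
      rw [bigMap_lam, bigMap_lam, ← lam_mul, ← lam_mul, coordHom_apply, coordHom_apply, hβ]
  exact DFunLike.congr_fun h (fun _ => u)

/-- scalar unitaries -/
noncomputable def scU (H : Type*) [Group H] (z : ℂ) (hz : ‖z‖ = 1) : UCr H :=
  ⟨⟨z • (1 : BL H), by
    have h1 : star z * z = 1 := by
      have := Complex.normSq_eq_conj_mul_self (z := z)
      rw [Complex.normSq_eq_norm_sq, hz] at this
      simpa using this.symm
    have h2 : z * star z = 1 := by rw [mul_comm]; exact h1
    rw [Unitary.mem_iff]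
    constructor
    · rw [star_smul, star_one, smul_mul_smul_comm, one_mul, h1, one_smul]
    · rw [star_smul, star_one, smul_mul_smul_comm, one_mul, h2, one_smul]⟩,
    SMulMemClass.smul_mem z (one_mem (Cr H))⟩

theorem coe_scU (z : ℂ) (hz : ‖z‖ = 1) :
    (((scU H z hz : UCr H) : unitary (BL H)) : BL H) = z • (1 : BL H) := rfl

theorem cpU_scU (j : H →* K) (hj : Function.Injective j) (z : ℂ) (hz : ‖z‖ = 1) :
    cpU j hj (scU H z hz) = (scU K z hz : UCr K) := by
  apply Subtype.ext
  show bigMap j hj (z • (1 : BL H)) = z • (1 : BL K)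
  rw [map_smul, map_one]

theorem Theta_scU (P : (Ω → H) →* K) (hP : Function.Injective P) (z : ℂ) (hz : ‖z‖ = 1)
    (n : Ω → ℤ) :
    Theta P hP (fun ω => scU H z hz ^ n ω) = ((scU K z hz : UCr K) : unitary (BL K)) ^ (∑ ω, n ω) := by
  have key : ∀ s : Finset Ω, (s.noncommProd (fun ω => cU P hP ω (scU H z hz ^ n ω))
      (coord_pairwise P hP (fun ω => scU H z hz ^ n ω) s) : unitary (BL K)) =
      ((scU K z hz : UCr K) : unitary (BL K)) ^ (∑ ω ∈ s, n ω) := by
    intro s
    induction s using Finset.induction_on with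
    | empty => rw [Finset.noncommProd_empty]; simp
    | insert ω s hω ih =>
      rw [Finset.noncommProd_insert_of_notMem _ _ _ _ hω, Finset.sum_insert hω, zpow_add, ih,
        map_zpow, cU, cpU_scU]
  exact key Finset.univ

/-- (C3b) conjugating by a product of commuting copies of a unitary -/
theorem norm_conj_Theta_le (P : (Ω → H) →* K) (hP : Function.Injective P) (u : UCr H) (x x' : H)
    (z : ℂ) (hz : ‖z‖ = 1) (δ : ℝ)
    (hu : ‖((u : unitary (BL H)) : BL H) * lam x * star ((u : unitary (BL H)) : BL H) -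
      z • lam x'‖ ≤ δ) (n : Ω → ℤ) (hn : ∑ ω, n ω = 0) (β : K) (σ : Equiv.Perm Ω)
    (hβ : ∀ ω h, β * P (Pi.mulSingle ω h) * β⁻¹ = P (Pi.mulSingle (σ ω) h)) :
    ‖(Theta P hP (fun _ => u) : BL K) * lam (P (fun ω => x ^ n ω) * β) *
      star (Theta P hP (fun _ => u) : BL K) - lam (P (fun ω => x' ^ n ω) * β)‖ ≤
      (∑ ω, |(n ω : ℝ)|) * δ := by
  set V : unitary (BL K) := Theta P hP (fun _ => u) with hV
  have hcomm : V * lamU β = lamU β * V := by
    have h := Theta_const_commute P hP u β σ hβ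
    rw [← hV, mul_inv_eq_iff_eq_mul] at h
    exact h.symm
  -- rewrite as a difference of two values of Theta
  have e1 : (V : BL K) * lam (P (fun ω => x ^ n ω) * β) * star (V : BL K) =
      (Theta P hP (fun ω => u * lamUCr x ^ n ω * u⁻¹) : BL K) * lam β := by
    have h1 : V * lamU (P (fun ω => x ^ n ω) * β) * V⁻¹ =
        Theta P hP (fun ω => u * lamUCr x ^ n ω * u⁻¹) * lamU β := by
      have h2 : (fun ω => u * lamUCr x ^ n ω * u⁻¹) =
          (fun _ : Ω => u) * (fun ω => lamUCr (x ^ n ω)) * (fun _ : Ω => u)⁻¹ := by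
        funext ω
        simp only [Pi.mul_apply, Pi.inv_apply, map_zpow]
      have h3 : Theta P hP (fun ω => u * lamUCr x ^ n ω * u⁻¹) =
          V * lamU (P fun ω => x ^ n ω) * V⁻¹ := by
        rw [h2, map_mul (Theta P hP), map_mul (Theta P hP), map_inv (Theta P hP), Theta_lam]
      have h4 : lamU β * V⁻¹ = V⁻¹ * lamU β := by
        rw [mul_inv_eq_iff_eq_mul, mul_assoc, ← hcomm, inv_mul_cancel_left]
      rw [h3, map_mul lamU, ← mul_assoc, mul_assoc (V * _), h4, ← mul_assoc]
    exact congrArg Subtype.val h1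
  have e2 : lam (P (fun ω => x' ^ n ω) * β) =
      (Theta P hP (fun ω => (scU H z hz * lamUCr x') ^ n ω) : BL K) * lam β := by
    have h1 : lamU (P (fun ω => x' ^ n ω) * β) =
        Theta P hP (fun ω => (scU H z hz * lamUCr x') ^ n ω) * lamU β := by
      have h2 : (fun ω => (scU H z hz * lamUCr x') ^ n ω) =
          (fun ω => scU H z hz ^ n ω) * (fun ω => lamUCr (x' ^ n ω)) := by
        funext ω
        have hc : Commute (scU H z hz) (lamUCr x') := by
          apply Subtype.ext
          apply Subtype.ext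
          show z • (1 : BL H) * lam x' = lam x' * z • (1 : BL H)
          rw [smul_mul_assoc, mul_smul_comm, one_mul, mul_one]
        simp only [Pi.mul_apply, map_zpow]
        exact hc.mul_zpow _
      rw [h2, map_mul (Theta P hP), Theta_lam, Theta_scU, hn, zpow_zero, one_mul, map_mul lamU]
    exact congrArg Subtype.val h1
  rw [e1, e2, ← sub_mul]
  have h3 : ∀ T : BL K, ‖T * lam β‖ = ‖T‖ := fun T =>
    CStarRing.norm_mul_coe_unitary T (lamU β)
  rw [h3]
  refine (norm_Theta_sub_le P hP _ _).trans ?_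
  rw [Finset.sum_mul]
  refine Finset.sum_le_sum fun ω _ => ?_
  have h4 : u * lamUCr x ^ n ω * u⁻¹ = (u * lamUCr x * u⁻¹) ^ n ω := by
    have := (conj_zpow (a := u) (b := lamUCr x) (i := n ω)).symm
    exact this
  have h5 : ((((u * lamUCr x ^ n ω * u⁻¹ : UCr H)) : unitary (BL H)) : BL H) =
      (((((u * lamUCr x * u⁻¹ : UCr H)) : unitary (BL H)) ^ n ω : unitary (BL H)) : BL H) := by
    rw [h4]; rfl
  have h6 : (((((scU H z hz * lamUCr x') ^ n ω : UCr H)) : unitary (BL H)) : BL H) =
      (((((scU H z hz * lamUCr x' : UCr H)) : unitary (BL H)) ^ n ω : unitary (BL H)) : BL H) := rfl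
  rw [h5, h6]
  refine (norm_zpow_sub_zpow_le _ _ _).trans ?_
  refine mul_le_mul_of_nonneg_left ?_ (abs_nonneg _)
  have h7 : ((((u * lamUCr x * u⁻¹ : UCr H)) : unitary (BL H)) : BL H) =
      ((u : unitary (BL H)) : BL H) * lam x * star ((u : unitary (BL H)) : BL H) := rfl
  have h8 : ((((scU H z hz * lamUCr x' : UCr H)) : unitary (BL H)) : BL H) = z • lam x' := by
    show z • (1 : BL H) * lam x' = z • lam x'
    rw [smul_mul_assoc, one_mul]
  rw [h7, h8]
  exact hu

end Prod

/-- (C4) local intertwiner, in the form used in the assembly. -/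
theorem exists_intertwiner {H M : Type} [Group H] [Group M] {Ω : Type} [Fintype Ω]
    [DecidableEq Ω] (J : (Ω → H) →* M) (hJ : Function.Injective J) (x x' : H)
    (u : unitary (BL H)) (hu : (u : BL H) ∈ Cr H) (z : ℂ) (hz : ‖z‖ = 1) (δ : ℝ)
    (hδ : ‖(u : BL H) * lam x * star (u : BL H) - z • lam x'‖ ≤ δ) :
    ∃ W : unitary (BL M), (W : BL M) ∈ (StarAlgebra.adjoin ℂ
        (Set.range fun y : Ω → H => lam (J y))).topologicalClosure ∧
      ∀ (n : Ω → ℤ), ∑ ω, n ω = 0 → ∀ (b s : M) (σ : Equiv.Perm Ω),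
        (∀ y : Ω → H, b * J y * b⁻¹ = J (y ∘ σ)) →
        (∀ y, Commute s (J y)) →
        ‖(W : BL M) * lam (b * J (fun ω => x ^ n ω) * s) * star (W : BL M) -
          lam (b * J (fun ω => x' ^ n ω) * s)‖ ≤ (∑ ω, |(n ω : ℝ)|) * δ := by
  refine ⟨Theta J hJ (fun _ => ⟨u, hu⟩), Theta_mem J hJ _, ?_⟩
  intro n hn b s σ hb hs
  have hrew : ∀ y : Ω → H, b * J y * s = J (y ∘ σ) * (b * s) := by
    intro y
    rw [← hb y]
    group
  have hn' : ∑ ω, n (σ ω) = 0 := by rw [Equiv.sum_comp σ n]; exact hn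
  have hβ : ∀ ω h, (b * s) * J (Pi.mulSingle ω h) * (b * s)⁻¹ =
      J (Pi.mulSingle (σ.symm ω) h) := by
    intro ω h
    have h1 : s * J (Pi.mulSingle ω h) * s⁻¹ = J (Pi.mulSingle ω h) := by
      rw [(hs _).eq, mul_inv_cancel_right]
    have h2 : (Pi.mulSingle ω h : Ω → H) ∘ σ = Pi.mulSingle (σ.symm ω) h := by
      funext ω'
      show (Pi.mulSingle ω h : Ω → H) (σ ω') = _
      by_cases hω : ω' = σ.symm ω
      · subst hω; rw [Equiv.apply_symm_apply, Pi.mulSingle_eq_same, Pi.mulSingle_eq_same]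
      · rw [Pi.mulSingle_eq_of_ne hω, Pi.mulSingle_eq_of_ne]
        intro h3
        exact hω (by rw [← h3, Equiv.symm_apply_apply])
    rw [← h2, ← hb]
    calc b * s * J (Pi.mulSingle ω h) * (b * s)⁻¹
        = b * (s * J (Pi.mulSingle ω h) * s⁻¹) * b⁻¹ := by group
      _ = b * J (Pi.mulSingle ω h) * b⁻¹ := by rw [h1]
  have key := norm_conj_Theta_le J hJ ⟨u, hu⟩ x x' z hz δ hδ (fun ω => n (σ ω)) hn' (b * s)
    σ.symm hβ
  have hsum : ∑ ω, |(n (σ ω) : ℝ)| = ∑ ω, |(n ω : ℝ)| :=
    Equiv.sum_comp σ (fun ω => |(n ω : ℝ)|)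
  rw [hsum] at key
  rw [hrew, hrew]
  exact key

/-- transfer of approximate unitary equivalence along an injective homomorphism -/
theorem transfer_au {H K : Type*} [Group H] [Group K] (j : H →* K) (hj : Function.Injective j)
    {x x' : H} {δ : ℝ} (h : ∃ u : unitary (BL H), (u : BL H) ∈ Cr H ∧ ∃ z : ℂ, ‖z‖ = 1 ∧
      ‖(u : BL H) * lam x * star (u : BL H) - z • lam x'‖ ≤ δ) :
    ∃ u : unitary (BL K), (u : BL K) ∈ Cr K ∧ ∃ z : ℂ, ‖z‖ = 1 ∧
      ‖(u : BL K) * lam (j x) * star (u : BL K) - z • lam (j x')‖ ≤ δ := by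
  obtain ⟨u, hu, z, hz, hd⟩ := h
  refine ⟨⟨bigMap j hj (u : BL H), Unitary.map_mem (bigMap j hj) u.2⟩,
    CrRep_comp_le j (bigMap_mem j hj hu), z, hz, ?_⟩
  have e : bigMap j hj (u : BL H) * lam (j x) * star (bigMap j hj (u : BL H)) - z • lam (j x') =
      bigMap j hj ((u : BL H) * lam x * star (u : BL H) - z • lam x') := by
    rw [map_sub, map_mul, map_mul, map_star, map_smul, bigMap_lam, bigMap_lam]
  show ‖bigMap j hj (u : BL H) * lam (j x) * star (bigMap j hj (u : BL H)) -
    z • lam (j x')‖ ≤ δ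
  rw [e]
  exact (norm_bigMap_le j hj _).trans hd

/-- (C3) intertwining theorem for two inductive systems of wreath product type which differ
by the replacement of `x n` by `x' n`. -/
theorem intertwine_wreath {Γ Γ' : Type} [Group Γ] [Group Γ'] (G : ℕ → Type) [∀ n, Group (G n)]
    (c c' : ∀ n, G n →* G (n + 1)) (ι : ∀ n, G n →* Γ) (ι' : ∀ n, G n →* Γ')
    (hι : ∀ n, Function.Injective (ι n)) (hι' : ∀ n, Function.Injective (ι' n))
    (hc : ∀ n f, ι (n + 1) (c n f) = ι n f) (hc' : ∀ n f, ι' (n + 1) (c' n f) = ι' n f)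
    (hs : ∀ γ : Γ, ∃ n f, ι n f = γ) (hs' : ∀ γ : Γ', ∃ n f, ι' n f = γ)
    {H : Type} [Group H] (Ω : ℕ → Type) [∀ n, Fintype (Ω n)] [∀ n, DecidableEq (Ω n)]
    -- the base group of copies of `H` in `G (n + 1)`
    (P : ∀ n, (Ω n → H) →* G (n + 1)) (hP : ∀ n, Function.Injective (P n))
    (x x' : ℕ → H) (δ : ℕ → ℝ) (hδ0 : ∀ n, 0 ≤ δ n) (hδ : Summable δ)
    (hu : ∀ n, ∃ u : unitary (BL H), (u : BL H) ∈ Cr H ∧ ∃ z : ℂ, ‖z‖ = 1 ∧
      ‖(u : BL H) * lam (x n) * star (u : BL H) - z • lam (x' n)‖ ≤ δ n)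
    -- charges
    (ν : ∀ n, G n → Ω n → ℤ) (hν : ∀ n f, ∑ ω, ν n f ω = 0)
    (hνc : ∀ n f, ∑ ω, |(ν (n + 1) (c n f) ω : ℝ)| ≤ ∑ ω, |(ν n f ω : ℝ)|)
    (hνc' : ∀ n f, ∑ ω, |(ν (n + 1) (c' n f) ω : ℝ)| ≤ ∑ ω, |(ν n f ω : ℝ)|)
    (hνP : ∀ n φ ω, ν (n + 1) (P n φ) ω = 0)
    -- the common part
    (β : ∀ n, G n → G (n + 1)) (σ : ∀ n, G n → Equiv.Perm (Ω n))
    (hβ : ∀ n f ω h, β n f * P n (Pi.mulSingle ω h) * (β n f)⁻¹ =
      P n (Pi.mulSingle (σ n f ω) h))
    (hcβ : ∀ n f, c n f = P n (fun ω => x n ^ ν n f ω) * β n f)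
    (hcβ' : ∀ n f, c' n f = P n (fun ω => x' n ^ ν n f ω) * β n f) :
    Nonempty (Cr Γ ≃⋆ₐ[ℂ] Cr Γ') := by
  choose u huCr z hz hu using hu
  let Q : ∀ n, (Ω n → H) →* Γ' := fun n => (ι' (n + 1)).comp (P n)
  have hQ : ∀ n, Function.Injective (Q n) := fun n => (hι' (n + 1)).comp (hP n)
  refine intertwine_le G c c' ι ι' hι hι' hc hc' hs hs'
    (fun n => Theta (Q n) (hQ n) (fun _ => ⟨u n, huCr n⟩)) δ hδ0 hδ
    (fun n f => ∑ ω, |(ν n f ω : ℝ)|) hνc hνc' ?_ ?_
  · intro n
    have h1 := Theta_mem (Q n) (hQ n) (fun _ => ⟨u n, huCr n⟩)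
    have h2 : CrRep ((lamU (G := Γ')).comp (Q n)) ≤ (StarAlgebra.adjoin ℂ
      ((fun f => lam (ι' (n + 1) f)) '' {f | ∑ ω, |(ν (n + 1) f ω : ℝ)| = 0})).topologicalClosure := by
      apply CrRep_le _ (StarSubalgebra.isClosed_topologicalClosure _)
      intro φ
      apply StarSubalgebra.le_topologicalClosure
      apply StarAlgebra.subset_adjoin
      refine ⟨P n φ, ?_, rfl⟩
      show ∑ ω, |(ν (n + 1) (P n φ) ω : ℝ)| = 0
      apply Finset.sum_eq_zero
      intro ω _
      rw [hνP]; simp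
    exact h2 h1
  · intro n f
    have h1 : ι' n f = Q n (fun ω => x' n ^ ν n f ω) * ι' (n + 1) (β n f) := by
      rw [← hc', hcβ', map_mul]; rfl
    have h2 : ι' (n + 1) (c n f) = Q n (fun ω => x n ^ ν n f ω) * ι' (n + 1) (β n f) := by
      rw [hcβ, map_mul]; rfl
    rw [h1, h2]
    refine norm_conj_Theta_le (Q n) (hQ n) ⟨u n, huCr n⟩ (x n) (x' n) (z n) (hz n) (δ n) (hu n)
      (ν n f) (hν n f) _ (σ n f) ?_
    intro ω h
    show ι' (n + 1) (β n f) * ι' (n + 1) (P n (Pi.mulSingle ω h)) * (ι' (n + 1) (β n f))⁻¹ =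
      ι' (n + 1) (P n (Pi.mulSingle (σ n f ω) h))
    rw [← map_inv, ← map_mul, ← map_mul, hβ]

end TFS
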