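import Mathlib

/-!
# Lipschitz-free `p`-spaces and amenability constants: definitions
-/

open scoped ENNReal

namespace Pool.Agent.Lib_helper4.Amenability

/-- `d` is an `r`-metric on `M`: `d` takes values in `[0,∞)` and `d ^ r` is a metric. -/
structure IsRMetric (r : ℝ) {M : Type} (d : M → M → ℝ) : Prop where
  nonneg : ∀ x y, 0 ≤ d x y
  rpow_eq_zero_iff : ∀ x y, d x y ^ r = 0 ↔ x = y
  rpow_symm : ∀ x y, d x y ^ r = d y x ^ r
  rpow_triangle : ∀ x y z, d x z ^ r ≤ d x y ^ r + d y z ^ r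

/-- A `p`-Banach space structure on the real vector space `Y`: a `p`-norm `nrm` for which `Y` is
complete. -/
structure PBanach (p : ℝ) (Y : Type) [AddCommGroup Y] [Module ℝ Y] where
  nrm : Y → ℝ
  nonneg : ∀ y, 0 ≤ nrm y
  eq_zero_of_nrm : ∀ y, nrm y = 0 → y = 0
  nrm_smul : ∀ (c : ℝ) (y : Y), nrm (c • y) = |c| * nrm y
  nrm_add : ∀ y z, nrm (y + z) ^ p ≤ nrm y ^ p + nrm z ^ p
  complete : ∀ u : ℕ → Y,
    (∀ ε : ℝ, 0 < ε → ∃ K : ℕ, ∀ m ≥ K, ∀ n ≥ K, nrm (u m - u n) < ε) →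
      ∃ y : Y, ∀ ε : ℝ, 0 < ε → ∃ K : ℕ, ∀ n ≥ K, nrm (u n - y) < ε

/-- The norm of `∑ μ x • δ x` in the Lipschitz-free `p`-space of the pointed space `(M, d, o)`:
the supremum of `‖∑ μ x • f x‖` over all `p`-Banach spaces `Y` and all `1`-Lipschitz maps
`f : M → Y` with `f o = 0`. -/
noncomputable def freeNorm (p : ℝ) {M : Type} (d : M → M → ℝ) (o : M) (μ : M →₀ ℝ) : ℝ≥0∞ :=
  ⨆ (Y : Type) (_ : AddCommGroup Y) (_ : Module ℝ Y) (B : PBanach p Y) (f : M → Y)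
    (_ : f o = 0) (_ : ∀ x y, B.nrm (f x - f y) ≤ d x y),
    ENNReal.ofReal (B.nrm (μ.sum fun x a => a • f x))

/-- The amenability constant `am_p(N, M)` for `o ∈ N ⊆ M`; the supremum is over all nonzero
`∑ μ x • δ x` with `μ` finitely supported in `N` (that is, some coefficient at a point other
than the base point is nonzero). -/
noncomputable def am (p : ℝ) {M : Type} (d : M → M → ℝ) (o : M) (N : Set M) (ho : o ∈ N) : ℝ≥0∞ :=
  ⨆ (μ : N →₀ ℝ) (_ : ∃ x : N, (x : M) ≠ o ∧ μ x ≠ 0),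
    freeNorm p (fun x y : N => d x y) ⟨o, ho⟩ μ / freeNorm p d o (μ.mapDomain (fun x : N => (x : M)))

/-- `A_p^q(n)`: the supremum of `am_p(N, M)` over all finite pointed `q`-metric spaces `(M, d, o)`
and all `o ∈ N ⊆ M` with `|N| = n + 1`. -/
noncomputable def A (p q : ℝ) (n : ℕ) : ℝ≥0∞ :=
  ⨆ (M : Type) (_ : Finite M) (d : M → M → ℝ) (_ : IsRMetric q d) (o : M) (N : Set M)
    (ho : o ∈ N) (_ : N.ncard = n + 1), am p d o N ho

end Pool.Agent.Lib_helper4.Amenability
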