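import Pool.Agent.Lib_helper4.AmDefs

/-!
# A uniform bound for `p`-amenability constants: proofs

For `0 < p ≤ q ≤ 1` we show that `sup_n A_p^q(n) ≤ 2^{1/q}` holds if and only if `p = 1`.

The counterexample for `p < 1`: let `M` be the vertex set of a tree with unit edges, consisting of
a centre `ctr`, joined to `n` vertices `mid i`, each of which is joined to `j` leaves `leaf i k`,
together with a base point `base` at distance `2` from `ctr`. With `D` the tree distance and
`d = D ^ (1/q)`, `N` consists of the base point and all leaves, and the test element is the sum of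
all `δ (leaf i k)`. Its norm in `M` is bounded above through the tree. The bound from below of its
norm in `N` uses an explicit `p`-norm (`sgauge`) on `ℝ^(n × j)`.
-/

open scoped ENNReal

namespace Pool.Agent.Lib_helper4.Amenability

section generic

variable {ι : Type} [Fintype ι]

/-- A `p`-Banach space structure on `ι → ℝ` from an explicit `p`-subadditive functional. -/
noncomputable def mkPBanach (p : ℝ) (hp : 0 < p) (Φ : (ι → ℝ) → ℝ)
    (h0 : ∀ y, 0 ≤ Φ y)
    (hadd : ∀ y z, Φ (y + z) ≤ Φ y + Φ z)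
    (hsmul : ∀ (c : ℝ) y, Φ (c • y) = |c| ^ p * Φ y)
    (c : ℝ) (hc : 0 < c) (hlow : ∀ y k, c * |y k| ^ p ≤ Φ y)
    (C : ℝ) (hup : ∀ y, Φ y ≤ C * ∑ k, |y k| ^ p) : PBanach p (ι → ℝ) where
  nrm y := (Φ y) ^ p⁻¹
  nonneg y := Real.rpow_nonneg (h0 y) _
  eq_zero_of_nrm y hy := by
    have h1 : Φ y = 0 := by
      rcases (Real.rpow_eq_zero_iff_of_nonneg (h0 y)).1 hy with ⟨h, -⟩
      exact h
    funext k
    have h2 := hlow y k
    rw [h1] at h2
    have h3 : |y k| ^ p ≤ 0 := by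
      by_contra hcon
      push Not at hcon
      have := mul_pos hc hcon
      linarith
    have h4 : |y k| ^ p = 0 := le_antisymm h3 (Real.rpow_nonneg (abs_nonneg _) _)
    have h5 := (Real.rpow_eq_zero_iff_of_nonneg (abs_nonneg _)).1 h4
    simpa using h5.1
  nrm_smul a y := by
    show (Φ (a • y)) ^ p⁻¹ = |a| * (Φ y) ^ p⁻¹
    rw [hsmul, Real.mul_rpow (Real.rpow_nonneg (abs_nonneg _) _) (h0 y),
      Real.rpow_rpow_inv (abs_nonneg _) hp.ne']
  nrm_add y z := by
    show ((Φ (y + z)) ^ p⁻¹) ^ p ≤ ((Φ y) ^ p⁻¹) ^ p + ((Φ z) ^ p⁻¹) ^ p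
    rw [Real.rpow_inv_rpow (h0 _) hp.ne', Real.rpow_inv_rpow (h0 _) hp.ne',
      Real.rpow_inv_rpow (h0 _) hp.ne']
    exact hadd y z
  complete u hu := by
    -- coordinates are Cauchy
    have hcoord : ∀ k, CauchySeq fun n => u n k := by
      intro k
      rw [Metric.cauchySeq_iff]
      intro ε hε
      have hε' : 0 < (c * ε ^ p) ^ p⁻¹ :=
        Real.rpow_pos_of_pos (mul_pos hc (Real.rpow_pos_of_pos hε _)) _
      obtain ⟨K, hK⟩ := hu _ hε'
      refine ⟨K, fun m hm n hn => ?_⟩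
      have h1 := hK m hm n hn
      have h2 : Φ (u m - u n) < c * ε ^ p :=
        (Real.rpow_lt_rpow_iff (h0 _) (mul_pos hc (Real.rpow_pos_of_pos hε _)).le
          (inv_pos.2 hp)).1 h1
      have h3 := hlow (u m - u n) k
      have h4 : |(u m - u n) k| ^ p < ε ^ p := by
        have : c * |(u m - u n) k| ^ p < c * ε ^ p := lt_of_le_of_lt h3 h2
        exact lt_of_mul_lt_mul_left this hc.le
      have h5 := (Real.rpow_lt_rpow_iff (abs_nonneg _) hε.le hp).1 h4
      rw [Real.dist_eq]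
      simpa using h5
    choose y hy using fun k => cauchySeq_tendsto_of_complete (hcoord k)
    refine ⟨y, fun ε hε => ?_⟩
    have hlim : Filter.Tendsto (fun n => C * ∑ k, |u n k - y k| ^ p) Filter.atTop (nhds 0) := by
      have : Filter.Tendsto (fun n => C * ∑ k, |u n k - y k| ^ p) Filter.atTop
          (nhds (C * ∑ k : ι, (0 : ℝ))) := by
        refine Filter.Tendsto.const_mul _ (tendsto_finsetSum _ fun k _ => ?_)
        have h1 : Filter.Tendsto (fun n => |u n k - y k|) Filter.atTop (nhds 0) := by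
          have := ((hy k).sub_const (y k)).abs
          simpa using this
        have h2 := h1.rpow_const (p := p) (Or.inr hp.le)
        rwa [Real.zero_rpow hp.ne'] at h2
      simpa using this
    have hεp : 0 < ε ^ p := Real.rpow_pos_of_pos hε _
    obtain ⟨K, hK⟩ := (hlim.eventually (gt_mem_nhds hεp)).exists_forall_of_atTop
    refine ⟨K, fun n hn => ?_⟩
    have h1 : Φ (u n - y) < ε ^ p := lt_of_le_of_lt (hup (u n - y)) (by simpa using hK n hn)
    calc (Φ (u n - y)) ^ p⁻¹ < (ε ^ p) ^ p⁻¹ :=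
          Real.rpow_lt_rpow (h0 _) h1 (inv_pos.2 hp)
      _ = ε := Real.rpow_rpow_inv hε.le hp.ne'

end generic

section gauge

variable {S T : Type} [Fintype S] [Fintype T]

/-- feasibility of the auxiliary transport variables -/
def Feas (y t : S × T → ℝ) : Prop :=
  (∀ x, 0 ≤ t x) ∧ ∀ i, ∑ k, y (i, k) ≤ ∑ k, t (i, k)

/-- cost of the auxiliary transport variables -/
noncomputable def cost (p C c : ℝ) (y t : S × T → ℝ) : ℝ :=
  ∑ x, (C * t x ^ p + c * (max (y x - t x) 0) ^ p)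

/-- the asymmetric gauge -/
noncomputable def gauge (p C c : ℝ) (y : S × T → ℝ) : ℝ :=
  ⨅ t : {t : S × T → ℝ // Feas y t}, cost p C c y t

variable {p C c : ℝ}

lemma feas_pos (y : S × T → ℝ) : Feas y (fun x => max (y x) 0) :=
  ⟨fun _ => le_max_right _ _, fun _ => Finset.sum_le_sum fun _ _ => le_max_left _ _⟩

instance (y : S × T → ℝ) : Nonempty {t : S × T → ℝ // Feas y t} := ⟨⟨_, feas_pos y⟩⟩

lemma cost_nonneg (hC : 0 ≤ C) (hc : 0 ≤ c) {y t : S × T → ℝ} (h : Feas y t) :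
    0 ≤ cost p C c y t :=
  Finset.sum_nonneg fun x _ => add_nonneg (mul_nonneg hC (Real.rpow_nonneg (h.1 x) _))
    (mul_nonneg hc (Real.rpow_nonneg (le_max_right _ _) _))

lemma gauge_bdd (hC : 0 ≤ C) (hc : 0 ≤ c) (y : S × T → ℝ) :
    BddBelow (Set.range fun t : {t : S × T → ℝ // Feas y t} => cost p C c y t) :=
  ⟨0, by rintro _ ⟨t, rfl⟩; exact cost_nonneg hC hc t.2⟩

lemma gauge_le (hC : 0 ≤ C) (hc : 0 ≤ c) {y t : S × T → ℝ} (h : Feas y t) :
    gauge p C c y ≤ cost p C c y t :=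
  ciInf_le (gauge_bdd hC hc y) (⟨t, h⟩ : {t : S × T → ℝ // Feas y t})

lemma le_gauge {y : S × T → ℝ} {b : ℝ} (h : ∀ t, Feas y t → b ≤ cost p C c y t) :
    b ≤ gauge p C c y := le_ciInf fun t => h t.1 t.2

lemma gauge_nonneg (hC : 0 ≤ C) (hc : 0 ≤ c) (y : S × T → ℝ) : 0 ≤ gauge p C c y :=
  le_gauge fun _ h => cost_nonneg hC hc h

lemma cost_add (hp : 0 < p) (hp1 : p ≤ 1) (hC : 0 ≤ C) (hc : 0 ≤ c) {y z t s : S × T → ℝ}
    (ht : Feas y t) (hs : Feas z s) :
    cost p C c (y + z) (t + s) ≤ cost p C c y t + cost p C c z s := by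
  unfold cost
  rw [← Finset.sum_add_distrib]
  refine Finset.sum_le_sum fun x _ => ?_
  have h1 : (t x + s x) ^ p ≤ t x ^ p + s x ^ p :=
    Real.rpow_add_le_add_rpow (ht.1 x) (hs.1 x) hp.le hp1
  have h2 : (max (y x + z x - (t x + s x)) 0) ^ p
      ≤ (max (y x - t x) 0) ^ p + (max (z x - s x) 0) ^ p := by
    refine le_trans (Real.rpow_le_rpow (le_max_right _ _) ?_ hp.le)
      (Real.rpow_add_le_add_rpow (le_max_right _ _) (le_max_right _ _) hp.le hp1)
    refine max_le ?_ (add_nonneg (le_max_right _ _) (le_max_right _ _))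
    have := le_max_left (y x - t x) 0
    have := le_max_left (z x - s x) 0
    linarith
  have h3 := mul_le_mul_of_nonneg_left h1 hC
  have h4 := mul_le_mul_of_nonneg_left h2 hc
  simp only [Pi.add_apply]
  nlinarith

lemma Feas.add {y z t s : S × T → ℝ} (ht : Feas y t) (hs : Feas z s) : Feas (y + z) (t + s) := by
  refine ⟨fun x => add_nonneg (ht.1 x) (hs.1 x), fun i => ?_⟩
  simp only [Pi.add_apply, Finset.sum_add_distrib]
  exact add_le_add (ht.2 i) (hs.2 i)

lemma Feas.smul {a : ℝ} (ha : 0 ≤ a) {y t : S × T → ℝ} (ht : Feas y t) : Feas (a • y) (a • t) := by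
  refine ⟨fun x => mul_nonneg ha (ht.1 x), fun i => ?_⟩
  simp only [Pi.smul_apply, smul_eq_mul, ← Finset.mul_sum]
  exact mul_le_mul_of_nonneg_left (ht.2 i) ha

lemma gauge_add (hp : 0 < p) (hp1 : p ≤ 1) (hC : 0 ≤ C) (hc : 0 ≤ c) (y z : S × T → ℝ) :
    gauge p C c (y + z) ≤ gauge p C c y + gauge p C c z := by
  refine le_ciInf_add_ciInf fun t s => ?_
  exact le_trans (gauge_le hC hc (t.2.add s.2)) (cost_add hp hp1 hC hc t.2 s.2)

lemma cost_smul {a : ℝ} (ha : 0 ≤ a) {y t : S × T → ℝ} (ht : Feas y t) :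
    cost p C c (a • y) (a • t) = a ^ p * cost p C c y t := by
  unfold cost
  rw [Finset.mul_sum]
  refine Finset.sum_congr rfl fun x _ => ?_
  have h1 : max (a * y x - a * t x) 0 = a * max (y x - t x) 0 := by
    rw [mul_max_of_nonneg _ _ ha, mul_zero, mul_sub]
  simp only [Pi.smul_apply, smul_eq_mul]
  rw [h1, Real.mul_rpow ha (ht.1 x), Real.mul_rpow ha (le_max_right _ _)]
  ring

lemma gauge_smul_le (hC : 0 ≤ C) (hc : 0 ≤ c) {a : ℝ} (ha : 0 < a) (y : S × T → ℝ) :
    gauge p C c (a • y) ≤ a ^ p * gauge p C c y := by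
  have hap : 0 < a ^ p := Real.rpow_pos_of_pos ha _
  rw [← div_le_iff₀' hap]
  refine le_gauge fun t ht => ?_
  rw [div_le_iff₀' hap, ← cost_smul ha.le ht]
  exact gauge_le hC hc (ht.smul ha.le)

lemma gauge_smul (hC : 0 ≤ C) (hc : 0 ≤ c) {a : ℝ} (ha : 0 < a) (y : S × T → ℝ) :
    gauge p C c (a • y) = a ^ p * gauge p C c y := by
  refine le_antisymm (gauge_smul_le hC hc ha y) ?_
  have h := gauge_smul_le (p := p) hC hc (inv_pos.2 ha) (a • y)
  rw [smul_smul, inv_mul_cancel₀ ha.ne', one_smul, Real.inv_rpow ha.le] at h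
  have hap : 0 < a ^ p := Real.rpow_pos_of_pos ha _
  rwa [inv_mul_eq_div, le_div_iff₀' hap] at h

lemma gauge_zero (hp : 0 < p) (hC : 0 ≤ C) (hc : 0 ≤ c) : gauge p C c (0 : S × T → ℝ) = 0 := by
  refine le_antisymm ?_ (gauge_nonneg hC hc _)
  have h := gauge_le (p := p) hC hc (feas_pos (0 : S × T → ℝ))
  refine h.trans ?_
  simp [cost, Real.zero_rpow hp.ne']

lemma gauge_low (hp : 0 < p) (hp1 : p ≤ 1) (hc : 0 ≤ c) (hcC : c ≤ C) (y : S × T → ℝ)
    (x : S × T) : c * (max (y x) 0) ^ p ≤ gauge p C c y := by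
  refine le_gauge fun t ht => ?_
  have hC : 0 ≤ C := hc.trans hcC
  have h1 : C * t x ^ p + c * (max (y x - t x) 0) ^ p ≤ cost p C c y t :=
    Finset.single_le_sum (f := fun x => C * t x ^ p + c * (max (y x - t x) 0) ^ p)
      (fun x _ => add_nonneg (mul_nonneg hC (Real.rpow_nonneg (ht.1 x) _))
        (mul_nonneg hc (Real.rpow_nonneg (le_max_right _ _) _))) (Finset.mem_univ x)
  refine le_trans ?_ h1
  have h2 : (max (y x) 0) ^ p ≤ t x ^ p + (max (y x - t x) 0) ^ p := by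
    refine le_trans (Real.rpow_le_rpow (le_max_right _ _) ?_ hp.le)
      (Real.rpow_add_le_add_rpow (ht.1 x) (le_max_right _ _) hp.le hp1)
    refine max_le ?_ (add_nonneg (ht.1 x) (le_max_right _ _))
    have := le_max_left (y x - t x) 0
    linarith
  have h3 := mul_le_mul_of_nonneg_left h2 hc
  have h4 := mul_le_mul_of_nonneg_right hcC (Real.rpow_nonneg (ht.1 x) p)
  nlinarith

lemma gauge_up (hp : 0 < p) (hC : 0 ≤ C) (hc : 0 ≤ c) (y : S × T → ℝ) :
    gauge p C c y ≤ C * ∑ x, |y x| ^ p := by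
  refine (gauge_le hC hc (feas_pos y)).trans ?_
  unfold cost
  rw [Finset.mul_sum]
  refine Finset.sum_le_sum fun x _ => ?_
  have h1 : max (y x - max (y x) 0) 0 = 0 := by
    apply max_eq_right
    have := le_max_left (y x) 0
    linarith
  rw [h1, Real.zero_rpow hp.ne', mul_zero, add_zero]
  exact mul_le_mul_of_nonneg_left (Real.rpow_le_rpow (le_max_right _ _)
    (max_le (le_abs_self _) (abs_nonneg _)) hp.le) hC

/-- the symmetrised gauge -/
noncomputable def sgauge (p C c : ℝ) (y : S × T → ℝ) : ℝ := max (gauge p C c y) (gauge p C c (-y))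

lemma sgauge_nonneg (hC : 0 ≤ C) (hc : 0 ≤ c) (y : S × T → ℝ) : 0 ≤ sgauge p C c y :=
  (gauge_nonneg hC hc y).trans (le_max_left _ _)

lemma sgauge_add (hp : 0 < p) (hp1 : p ≤ 1) (hC : 0 ≤ C) (hc : 0 ≤ c) (y z : S × T → ℝ) :
    sgauge p C c (y + z) ≤ sgauge p C c y + sgauge p C c z := by
  refine max_le ((gauge_add hp hp1 hC hc y z).trans (add_le_add (le_max_left _ _) (le_max_left _ _))) ?_
  rw [neg_add]
  exact (gauge_add hp hp1 hC hc (-y) (-z)).trans (add_le_add (le_max_right _ _) (le_max_right _ _))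

lemma sgauge_smul (hp : 0 < p) (hC : 0 ≤ C) (hc : 0 ≤ c) (a : ℝ) (y : S × T → ℝ) :
    sgauge p C c (a • y) = |a| ^ p * sgauge p C c y := by
  unfold sgauge
  rcases lt_trichotomy a 0 with ha | ha | ha
  · have h1 : a • y = (-a) • (-y) := by simp
    have h2 : -(a • y) = (-a) • y := by simp
    rw [h2, h1, gauge_smul hC hc (neg_pos.2 ha), gauge_smul hC hc (neg_pos.2 ha), abs_of_neg ha,
      mul_max_of_nonneg _ _ (Real.rpow_nonneg (neg_pos.2 ha).le _), max_comm]
  · subst ha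
    simp [gauge_zero hp hC hc, Real.zero_rpow hp.ne']
  · rw [← smul_neg, gauge_smul hC hc ha, gauge_smul hC hc ha, abs_of_pos ha,
      mul_max_of_nonneg _ _ (Real.rpow_nonneg ha.le _)]

lemma sgauge_low (hp : 0 < p) (hp1 : p ≤ 1) (hc : 0 ≤ c) (hcC : c ≤ C) (y : S × T → ℝ)
    (x : S × T) : c * |y x| ^ p ≤ sgauge p C c y := by
  rcases le_total 0 (y x) with h | h
  · have h1 := gauge_low hp hp1 hc hcC y x
    rw [max_eq_left h] at h1
    rw [abs_of_nonneg h]
    exact h1.trans (le_max_left _ _)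
  · have h1 := gauge_low hp hp1 hc hcC (-y) x
    rw [Pi.neg_apply, max_eq_left (neg_nonneg.2 h)] at h1
    rw [abs_of_nonpos h]
    exact h1.trans (le_max_right _ _)

lemma sgauge_up (hp : 0 < p) (hC : 0 ≤ C) (hc : 0 ≤ c) (y : S × T → ℝ) :
    sgauge p C c y ≤ C * ∑ x, |y x| ^ p := by
  refine max_le (gauge_up hp hC hc y) ((gauge_up hp hC hc (-y)).trans ?_)
  simp

end gauge


section scalar

/-- scalar cost function -/
noncomputable def gfun (p C c t : ℝ) : ℝ := C * t ^ p + c * (max (1 - t) 0) ^ p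

lemma gfun_ge_c {p C c t : ℝ} (hp : 0 < p) (hp1 : p ≤ 1) (hc : 0 ≤ c) (hcC : c ≤ C) (ht : 0 ≤ t) :
    c ≤ gfun p C c t := by
  unfold gfun
  have h2 : (1 : ℝ) ≤ t ^ p + (max (1 - t) 0) ^ p := by
    have h := Real.rpow_le_rpow (x := 1) (y := t + max (1 - t) 0) zero_le_one (by
      have := le_max_left (1 - t) 0
      linarith) hp.le
    rw [Real.one_rpow] at h
    exact h.trans (Real.rpow_add_le_add_rpow ht (le_max_right _ _) hp.le hp1)
  have h3 := mul_le_mul_of_nonneg_left h2 hc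
  have h4 := mul_le_mul_of_nonneg_right hcC (Real.rpow_nonneg ht p)
  nlinarith

lemma gfun_ge_line {p C c lam J t : ℝ} (hp : 0 < p) (hp1 : p ≤ 1) (hc : 0 ≤ c) (hcC : c ≤ C)
    (hJ : 1 ≤ J) (h1 : lam ≤ C - c) (h2 : lam * J ≤ C * J ^ p - c)
    (ht : 0 ≤ t) (htJ : t ≤ J) : c + lam * t ≤ gfun p C c t := by
  have hC : 0 ≤ C := hc.trans hcC
  rcases le_total t 1 with h | h
  · unfold gfun
    have e1 : t ≤ t ^ p := by
      have := Real.rpow_le_rpow_of_exponent_ge' ht h hp.le hp1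
      simpa using this
    have e2 : 1 - t ≤ (max (1 - t) 0) ^ p := by
      rw [max_eq_left (by linarith)]
      have := Real.rpow_le_rpow_of_exponent_ge' (by linarith : (0:ℝ) ≤ 1 - t) (by linarith) hp.le hp1
      simpa using this
    have e3 := mul_le_mul_of_nonneg_left e1 hC
    have e4 := mul_le_mul_of_nonneg_left e2 hc
    have e5 := mul_le_mul_of_nonneg_right h1 ht
    nlinarith
  · have e0 : C * t ^ p ≤ gfun p C c t := by
      unfold gfun
      have := mul_nonneg hc (Real.rpow_nonneg (le_max_right (1 - t) 0) p)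
      linarith
    refine le_trans ?_ e0
    rcases eq_or_lt_of_le hJ with hJ1 | hJ1
    · have : t = 1 := le_antisymm (by rw [hJ1]; exact htJ) h
      subst this
      simp
      linarith
    · -- concavity
      have hconc := (Real.concaveOn_rpow hp.le hp1).2
        (Set.mem_Ici.2 zero_le_one)
        (Set.mem_Ici.2 (zero_le_one.trans hJ))
        (show 0 ≤ (J - t) / (J - 1) from div_nonneg (by linarith) (by linarith))
        (show 0 ≤ (t - 1) / (J - 1) from div_nonneg (by linarith) (by linarith))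
        (by rw [← add_div]; rw [div_eq_one_iff_eq (by linarith)]; ring)
      simp only [smul_eq_mul, mul_one, Real.one_rpow] at hconc
      have e1 : (J - t) / (J - 1) + (t - 1) / (J - 1) * J = t := by
        field_simp
        ring
      rw [e1] at hconc
      have hJ0 : 0 < J - 1 := by linarith
      set s := (t - 1) / (J - 1) with hs
      have hs1 : (J - t) / (J - 1) = 1 - s := by
        rw [hs]; field_simp; ring
      rw [hs1] at hconc e1
      have hs0 : 0 ≤ s := div_nonneg (by linarith) (by linarith)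
      have hs2 : s ≤ 1 := by
        rw [hs, div_le_one hJ0]; linarith
      have h3 := mul_le_mul_of_nonneg_left hconc hC
      have h4 : (1 - s) * lam ≤ (1 - s) * (C - c) := mul_le_mul_of_nonneg_left h1 (by linarith)
      have h5 : s * (lam * J) ≤ s * (C * J ^ p - c) := mul_le_mul_of_nonneg_left h2 hs0
      have h6 : lam * t = (1 - s) * lam + s * (lam * J) := by
        rw [← e1]; ring
      nlinarith

lemma leg_bound {T : Type} [Fintype T] {p C c lam : ℝ} (hp : 0 < p) (hp1 : p ≤ 1) (hc : 0 ≤ c)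
    (hcC : c ≤ C) (hlam : 0 ≤ lam) (hT : 1 ≤ (Fintype.card T : ℝ))
    (h1 : lam ≤ C - c) (h2 : lam * (Fintype.card T : ℝ) ≤ C * (Fintype.card T : ℝ) ^ p - c)
    (t : T → ℝ) (ht : ∀ k, 0 ≤ t k) (hsum : (Fintype.card T : ℝ) ≤ ∑ k, t k) :
    (Fintype.card T : ℝ) * (c + lam) ≤ ∑ k, gfun p C c (t k) := by
  classical
  have hC : 0 ≤ C := hc.trans hcC
  set J := (Fintype.card T : ℝ) with hJ
  by_cases hbig : ∃ k, J < t k
  · obtain ⟨k, hk⟩ := hbig
    rw [← Finset.add_sum_erase _ _ (Finset.mem_univ k)]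
    have e1 : C * J ^ p ≤ gfun p C c (t k) := by
      have a1 : C * J ^ p ≤ C * t k ^ p :=
        mul_le_mul_of_nonneg_left (Real.rpow_le_rpow (by linarith) hk.le hp.le) hC
      unfold gfun
      have := mul_nonneg hc (Real.rpow_nonneg (le_max_right (1 - t k) 0) p)
      linarith
    have e2 : (J - 1) * c ≤ ∑ x ∈ Finset.univ.erase k, gfun p C c (t x) := by
      have : ∑ x ∈ Finset.univ.erase k, c ≤ ∑ x ∈ Finset.univ.erase k, gfun p C c (t x) :=
        Finset.sum_le_sum fun x _ => gfun_ge_c hp hp1 hc hcC (ht x)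
      refine le_trans (le_of_eq ?_) this
      rw [Finset.sum_const, Finset.card_erase_of_mem (Finset.mem_univ k), nsmul_eq_mul,
        Finset.card_univ, Nat.cast_sub (by rw [hJ] at hT; exact_mod_cast hT)]
      simp [hJ]
    nlinarith
  · push Not at hbig
    have e1 : ∑ k, (c + lam * t k) ≤ ∑ k, gfun p C c (t k) :=
      Finset.sum_le_sum fun k _ => gfun_ge_line hp hp1 hc hcC hT h1 h2 (ht k) (hbig k)
    rw [Finset.sum_add_distrib, ← Finset.mul_sum, Finset.sum_const, nsmul_eq_mul,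
      Finset.card_univ] at e1
    have e2 := mul_le_mul_of_nonneg_left hsum hlam
    nlinarith

lemma gauge_one_ge {S T : Type} [Fintype S] [Fintype T] {p C c lam : ℝ} (hp : 0 < p) (hp1 : p ≤ 1)
    (hc : 0 ≤ c)
    (hcC : c ≤ C) (hlam : 0 ≤ lam) (hT : 1 ≤ (Fintype.card T : ℝ))
    (h1 : lam ≤ C - c) (h2 : lam * (Fintype.card T : ℝ) ≤ C * (Fintype.card T : ℝ) ^ p - c) :
    (Fintype.card S : ℝ) * ((Fintype.card T : ℝ) * (c + lam)) ≤
      gauge p C c (fun _ : S × T => (1 : ℝ)) := by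
  refine le_gauge fun t ht => ?_
  unfold cost
  rw [Fintype.sum_prod_type]
  have : ∀ i : S, (Fintype.card T : ℝ) * (c + lam) ≤
      ∑ k : T, (C * t (i, k) ^ p + c * (max (1 - t (i, k)) 0) ^ p) := by
    intro i
    have h3 := ht.2 i
    simp only [Finset.sum_const, nsmul_eq_mul, Finset.card_univ, mul_one] at h3
    exact leg_bound hp hp1 hc hcC hlam hT h1 h2 (fun k => t (i, k)) (fun k => ht.1 _) h3
  calc (Fintype.card S : ℝ) * ((Fintype.card T : ℝ) * (c + lam))
      = ∑ _i : S, (Fintype.card T : ℝ) * (c + lam) := by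
        rw [Finset.sum_const, nsmul_eq_mul, Finset.card_univ]
    _ ≤ _ := Finset.sum_le_sum fun i _ => this i

end scalar


section space

/-- The points of the ambient tree. -/
inductive Pt (n j : ℕ) : Type
  | base : Pt n j
  | ctr : Pt n j
  | mid (i : Fin n) : Pt n j
  | leaf (i : Fin n) (k : Fin j) : Pt n j

open Pt

variable {n j : ℕ}

instance : Finite (Pt n j) := by
  let f : Pt n j → Option (Option (Fin n)) ⊕ (Fin n × Fin j) := fun x => match x with
    | base => Sum.inl none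
    | ctr => Sum.inl (some none)
    | mid i => Sum.inl (some (some i))
    | leaf i k => Sum.inr (i, k)
  refine Finite.of_injective f ?_
  intro x y h
  rcases x with _ | _ | i | ⟨i, k⟩ <;> rcases y with _ | _ | i' | ⟨i', k'⟩ <;> simp_all [f]

/-- the tree distance -/
def tdist : Pt n j → Pt n j → ℕ
  | base, base => 0
  | base, ctr => 2
  | base, mid _ => 3
  | base, leaf _ _ => 4
  | ctr, base => 2
  | ctr, ctr => 0
  | ctr, mid _ => 1
  | ctr, leaf _ _ => 2
  | mid _, base => 3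
  | mid _, ctr => 1
  | mid i, mid i' => if i = i' then 0 else 2
  | mid i, leaf i' _ => if i = i' then 1 else 3
  | leaf _ _, base => 4
  | leaf _ _, ctr => 2
  | leaf i _, mid i' => if i = i' then 1 else 3
  | leaf i k, leaf i' k' => if i = i' then (if k = k' then 0 else 2) else 4

lemma tdist_eq_zero (x y : Pt n j) : tdist x y = 0 ↔ x = y := by
  rcases x with _ | _ | i | ⟨i, k⟩ <;> rcases y with _ | _ | i' | ⟨i', k'⟩ <;>
    simp [tdist] <;> (try split_ifs) <;> simp_all

lemma tdist_comm (x y : Pt n j) : tdist x y = tdist y x := by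
  rcases x with _ | _ | i | ⟨i, k⟩ <;> rcases y with _ | _ | i' | ⟨i', k'⟩ <;>
    simp [tdist, eq_comm]

lemma tdist_triangle (x y z : Pt n j) : tdist x z ≤ tdist x y + tdist y z := by
  rcases x with _ | _ | i | ⟨i, k⟩ <;> rcases y with _ | _ | i' | ⟨i', k'⟩ <;>
    rcases z with _ | _ | i'' | ⟨i'', k''⟩ <;>
    simp only [tdist] <;> (try split_ifs) <;> (try subst_vars) <;>
    first | omega | (exfalso; simp_all)

/-- the `q`-metric -/
noncomputable def dq (q : ℝ) (x y : Pt n j) : ℝ := ((tdist x y : ℕ) : ℝ) ^ q⁻¹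

lemma dq_rpow {q : ℝ} (hq : 0 < q) (x y : Pt n j) : dq q x y ^ q = (tdist x y : ℝ) :=
  Real.rpow_inv_rpow (Nat.cast_nonneg _) hq.ne'

lemma dq_rpow' {q : ℝ} (p : ℝ) (x y : Pt n j) : dq q x y ^ p = (tdist x y : ℝ) ^ (p / q) := by
  unfold dq
  rw [← Real.rpow_mul (Nat.cast_nonneg _), inv_mul_eq_div]

lemma isRMetric_dq {q : ℝ} (hq : 0 < q) : IsRMetric q (dq q : Pt n j → Pt n j → ℝ) where
  nonneg x y := Real.rpow_nonneg (Nat.cast_nonneg _) _
  rpow_eq_zero_iff x y := by
    rw [dq_rpow hq]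
    exact_mod_cast tdist_eq_zero x y
  rpow_symm x y := by rw [dq_rpow hq, dq_rpow hq, tdist_comm]
  rpow_triangle x y z := by
    rw [dq_rpow hq, dq_rpow hq, dq_rpow hq]
    exact_mod_cast tdist_triangle x y z

/-- base point together with the leaves -/
def NN (n j : ℕ) : Set (Pt n j) := {x | x = base ∨ ∃ i k, x = leaf i k}

lemma base_mem : (base : Pt n j) ∈ NN n j := Or.inl rfl

lemma leaf_mem (i : Fin n) (k : Fin j) : leaf i k ∈ NN n j := Or.inr ⟨i, k, rfl⟩

/-- the leaves as points of the subspace -/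
def lf (x : Fin n × Fin j) : NN n j := ⟨leaf x.1 x.2, leaf_mem _ _⟩

/-- the test element -/
noncomputable def mu (n j : ℕ) : NN n j →₀ ℝ := ∑ x : Fin n × Fin j, Finsupp.single (lf x) 1

lemma mu_sum {Y : Type} [AddCommGroup Y] [Module ℝ Y] (f : NN n j → Y) :
    ((mu n j).sum fun x a => a • f x) = ∑ x : Fin n × Fin j, f (lf x) := by
  have h : ((mu n j).sum fun x a => a • f x) = Finsupp.linearCombination ℝ f (mu n j) :=
    (Finsupp.linearCombination_apply ℝ (mu n j)).symm
  rw [h, mu, map_sum]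
  simp

lemma mu_map_sum {Y : Type} [AddCommGroup Y] [Module ℝ Y] (f : Pt n j → Y) :
    (((mu n j).mapDomain (fun x : NN n j => (x : Pt n j))).sum fun x a => a • f x) =
      ∑ x : Fin n × Fin j, f (leaf x.1 x.2) := by
  have h : (((mu n j).mapDomain (fun x : NN n j => (x : Pt n j))).sum fun x a => a • f x) =
      Finsupp.linearCombination ℝ f ((mu n j).mapDomain (fun x : NN n j => (x : Pt n j))) :=
    (Finsupp.linearCombination_apply ℝ _).symm
  rw [h, Finsupp.linearCombination_mapDomain, mu, map_sum]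
  simp [lf]

lemma PBanach.nrm_zero {p : ℝ} {Y : Type} [AddCommGroup Y] [Module ℝ Y] (B : PBanach p Y) :
    B.nrm 0 = 0 := by
  have := B.nrm_smul 0 0
  simpa using this

lemma PBanach.nrm_sum {p : ℝ} (hp : 0 < p) {Y : Type} [AddCommGroup Y] [Module ℝ Y]
    (B : PBanach p Y) {ι : Type} (s : Finset ι) (g : ι → Y) :
    B.nrm (∑ x ∈ s, g x) ^ p ≤ ∑ x ∈ s, B.nrm (g x) ^ p := by
  classical
  induction s using Finset.induction_on with
  | empty => simp [B.nrm_zero, Real.zero_rpow hp.ne']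
  | insert a s ha ih =>
    rw [Finset.sum_insert ha, Finset.sum_insert ha]
    exact (B.nrm_add _ _).trans (add_le_add le_rfl ih)

/-- upper bound for the norm of the test element in the ambient space -/
lemma freeNorm_M_le {p q : ℝ} (hp : 0 < p) :
    freeNorm p (dq q : Pt n j → Pt n j → ℝ) base
        ((mu n j).mapDomain (fun x : NN n j => (x : Pt n j))) ≤
      ENNReal.ofReal (((n : ℝ) * (j + (j : ℝ) ^ p) + 2 ^ (p / q) * ((n : ℝ) * j) ^ p) ^ p⁻¹) := by
  unfold freeNorm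
  refine iSup_le fun Y => iSup_le fun _ => iSup_le fun _ => iSup_le fun B => iSup_le fun f =>
    iSup_le fun hf0 => iSup_le fun hf => ?_
  refine ENNReal.ofReal_le_ofReal ?_
  rw [mu_map_sum]
  -- split the sum along the tree
  have e1 : ∑ x : Fin n × Fin j, f (leaf x.1 x.2) =
      (∑ x : Fin n × Fin j, (f (leaf x.1 x.2) - f (mid x.1))) +
      ((∑ i : Fin n, (j : ℝ) • (f (mid i) - f ctr)) + ((n : ℝ) * j) • (f ctr - f base)) := by
    have a1 : ∑ i : Fin n, (j : ℝ) • (f (mid i) - f ctr) =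
        ∑ x : Fin n × Fin j, (f (mid x.1) - f ctr) := by
      rw [Fintype.sum_prod_type]
      refine Finset.sum_congr rfl fun i _ => ?_
      show (j : ℝ) • (f (mid i) - f ctr) = ∑ _y : Fin j, (f (mid i) - f ctr)
      rw [Finset.sum_const, Finset.card_univ, Fintype.card_fin, Nat.cast_smul_eq_nsmul]
    have a2 : ((n : ℝ) * j) • (f ctr - f base) = ∑ _x : Fin n × Fin j, (f ctr - f base) := by
      rw [Finset.sum_const, Finset.card_univ, Fintype.card_prod, Fintype.card_fin,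
        Fintype.card_fin, ← Nat.cast_smul_eq_nsmul ℝ]
      push_cast
      rfl
    rw [a1, a2, ← Finset.sum_add_distrib, ← Finset.sum_add_distrib]
    refine Finset.sum_congr rfl fun x _ => ?_
    rw [hf0]
    abel
  have hle : ∀ x y, B.nrm (f x - f y) ^ p ≤ (tdist x y : ℝ) ^ (p / q) := by
    intro x y
    rw [← dq_rpow']
    exact Real.rpow_le_rpow (B.nonneg _) (hf x y) hp.le
  have b1 : B.nrm (∑ x : Fin n × Fin j, (f (leaf x.1 x.2) - f (mid x.1))) ^ p ≤ (n : ℝ) * j := by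
    refine (B.nrm_sum hp _ _).trans ?_
    have : ∀ x ∈ (Finset.univ : Finset (Fin n × Fin j)),
        B.nrm (f (leaf x.1 x.2) - f (mid x.1)) ^ p ≤ 1 := by
      intro x _
      have := hle (leaf x.1 x.2) (mid x.1)
      simpa [tdist] using this
    refine (Finset.sum_le_sum this).trans ?_
    simp
  have b2 : B.nrm (∑ i : Fin n, (j : ℝ) • (f (mid i) - f ctr)) ^ p ≤ (n : ℝ) * (j : ℝ) ^ p := by
    refine (B.nrm_sum hp _ _).trans ?_
    have : ∀ i ∈ (Finset.univ : Finset (Fin n)),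
        B.nrm ((j : ℝ) • (f (mid i) - f ctr)) ^ p ≤ (j : ℝ) ^ p := by
      intro i _
      rw [B.nrm_smul, Nat.abs_cast, Real.mul_rpow (Nat.cast_nonneg _) (B.nonneg _)]
      have := hle (mid i) ctr
      have h1 : B.nrm (f (mid i) - f ctr) ^ p ≤ 1 := by simpa [tdist] using this
      calc (j : ℝ) ^ p * B.nrm (f (mid i) - f ctr) ^ p ≤ (j : ℝ) ^ p * 1 :=
            mul_le_mul_of_nonneg_left h1 (Real.rpow_nonneg (Nat.cast_nonneg _) _)
        _ = _ := mul_one _
    refine (Finset.sum_le_sum this).trans ?_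
    simp
  have b3 : B.nrm (((n : ℝ) * j) • (f ctr - f base)) ^ p ≤ 2 ^ (p / q) * ((n : ℝ) * j) ^ p := by
    have h0 : 0 ≤ (n : ℝ) * j := by positivity
    rw [B.nrm_smul, abs_of_nonneg h0, Real.mul_rpow h0 (B.nonneg _), mul_comm]
    refine mul_le_mul_of_nonneg_right ?_ (Real.rpow_nonneg h0 _)
    have := hle ctr base
    simpa [tdist] using this
  have key : B.nrm (∑ x : Fin n × Fin j, f (leaf x.1 x.2)) ^ p ≤
      (n : ℝ) * (j + (j : ℝ) ^ p) + 2 ^ (p / q) * ((n : ℝ) * j) ^ p := by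
    rw [e1]
    refine (B.nrm_add _ _).trans ?_
    have := B.nrm_add (∑ i : Fin n, (j : ℝ) • (f (mid i) - f ctr)) (((n : ℝ) * j) • (f ctr - f base))
    nlinarith
  calc B.nrm (∑ x : Fin n × Fin j, f (leaf x.1 x.2))
      = (B.nrm (∑ x : Fin n × Fin j, f (leaf x.1 x.2)) ^ p) ^ p⁻¹ :=
        (Real.rpow_rpow_inv (B.nonneg _) hp.ne').symm
    _ ≤ _ := Real.rpow_le_rpow (Real.rpow_nonneg (B.nonneg _) _) key (inv_nonneg.2 hp.le)

/-- the embedding of the subspace used for the lower bound -/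
noncomputable def emb : Pt n j → (Fin n × Fin j → ℝ)
  | base => 0
  | ctr => 0
  | mid _ => 0
  | leaf i k => Pi.single (i, k) 1

lemma gauge_single_le {p C c : ℝ} (hp : 0 < p) (hC : 0 ≤ C) (hc : 0 ≤ c) (x : Fin n × Fin j) :
    gauge p C c (Pi.single x 1 : Fin n × Fin j → ℝ) ≤ C := by
  refine (gauge_up hp hC hc _).trans ?_
  have : ∑ z, |(Pi.single x 1 : Fin n × Fin j → ℝ) z| ^ p = 1 := by
    rw [Finset.sum_eq_single x]
    · simp
    · intro b _ hb
      simp [Pi.single_eq_of_ne hb, Real.zero_rpow hp.ne']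
    · simp
  rw [this, mul_one]

lemma gauge_neg_single_le {p C c : ℝ} (hp : 0 < p) (hC : 0 ≤ C) (hc : 0 ≤ c) (x : Fin n × Fin j) :
    gauge p C c (-(Pi.single x 1) : Fin n × Fin j → ℝ) ≤ 0 := by
  have hF : Feas (-(Pi.single x 1) : Fin n × Fin j → ℝ) 0 := by
    refine ⟨fun _ => le_rfl, fun i => Finset.sum_le_sum fun k _ => ?_⟩
    by_cases h : ((i, k) : Fin n × Fin j) = x
    · subst h; simp
    · simp [Pi.single_eq_of_ne h]
  refine (gauge_le hC hc hF).trans (le_of_eq ?_)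
  unfold cost
  refine Finset.sum_eq_zero fun z _ => ?_
  by_cases h : z = x
  · subst h; simp [Real.zero_rpow hp.ne']
  · simp [Pi.single_eq_of_ne h, Real.zero_rpow hp.ne']

lemma gauge_sub_far_le {p C c : ℝ} (hp : 0 < p) (hp1 : p ≤ 1) (hC : 0 ≤ C) (hc : 0 ≤ c)
    (x y : Fin n × Fin j) :
    gauge p C c (Pi.single x 1 - Pi.single y 1 : Fin n × Fin j → ℝ) ≤ C := by
  rw [sub_eq_add_neg]
  refine (gauge_add hp hp1 hC hc _ _).trans ?_
  have h1 := gauge_single_le hp hC hc x
  have h2 := gauge_neg_single_le hp hC hc y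
  linarith

lemma gauge_sub_near_le {p C c : ℝ} (hp : 0 < p) (hC : 0 ≤ C) (hc : 0 ≤ c)
    (i : Fin n) (k k' : Fin j) (hk : k ≠ k') :
    gauge p C c (Pi.single (i, k) 1 - Pi.single (i, k') 1 : Fin n × Fin j → ℝ) ≤ c := by
  have hF : Feas (Pi.single (i, k) 1 - Pi.single (i, k') 1 : Fin n × Fin j → ℝ) 0 := by
    refine ⟨fun _ => le_rfl, fun i' => ?_⟩
    simp only [Pi.sub_apply, Finset.sum_sub_distrib]
    by_cases h : i' = i
    · subst h
      rw [Finset.sum_eq_single k, Finset.sum_eq_single k']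
      · simp
      · intro b _ hb; exact Pi.single_eq_of_ne (by simpa using hb) _
      · simp
      · intro b _ hb; exact Pi.single_eq_of_ne (by simpa using hb) _
      · simp
    · refine le_of_eq ?_
      have h1 : ∀ k₀ k₁, (Pi.single (i, k₀) 1 : Fin n × Fin j → ℝ) (i', k₁) = 0 := fun k₀ k₁ =>
        Pi.single_eq_of_ne (by simp [h]) _
      simp [h1]
  refine (gauge_le hC hc hF).trans (le_of_eq ?_)
  unfold cost
  rw [Finset.sum_eq_single (i, k)]
  · have h1 : (Pi.single (i, k') 1 : Fin n × Fin j → ℝ) (i, k) = 0 :=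
      Pi.single_eq_of_ne (by simp [hk]) _
    simp [h1, Real.zero_rpow hp.ne']
  · intro b _ hb
    have h1 : (Pi.single (i, k) 1 : Fin n × Fin j → ℝ) b = 0 := Pi.single_eq_of_ne hb _
    by_cases h : b = (i, k')
    · subst h; simp [h1, Real.zero_rpow hp.ne']
    · have h2 : (Pi.single (i, k') 1 : Fin n × Fin j → ℝ) b = 0 := Pi.single_eq_of_ne h _
      simp [h1, h2, Real.zero_rpow hp.ne']
  · simp

lemma sgauge_emb_le {p C c : ℝ} (hp : 0 < p) (hp1 : p ≤ 1) (hc : 0 ≤ c) (hcC : c ≤ C)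
    {D : ℕ → ℝ} (hD0 : D 0 = 0) (hD2 : D 2 = c) (hD4 : D 4 = C) (x y : NN n j) :
    sgauge p C c (emb (x : Pt n j) - emb (y : Pt n j)) ≤ D (tdist (x : Pt n j) y) := by
  have hC : 0 ≤ C := hc.trans hcC
  have hz : sgauge p C c (0 : Fin n × Fin j → ℝ) = 0 := by
    simp [sgauge, gauge_zero hp hC hc]
  obtain ⟨x, hx⟩ := x
  obtain ⟨y, hy⟩ := y
  rcases hx with rfl | ⟨i, k, rfl⟩ <;> rcases hy with rfl | ⟨i', k', rfl⟩
  · simp [emb, tdist, hz, hD0]
  · simp only [emb, tdist, hD4, sgauge, zero_sub, neg_neg]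
    exact max_le ((gauge_neg_single_le hp hC hc _).trans hC) (gauge_single_le hp hC hc _)
  · simp only [emb, tdist, hD4, sgauge, sub_zero]
    exact max_le (gauge_single_le hp hC hc _) ((gauge_neg_single_le hp hC hc _).trans hC)
  · simp only [emb, tdist]
    split_ifs with h1 h2
    · subst h1; subst h2; simp [hz, hD0]
    · subst h1
      rw [hD2, sgauge, neg_sub]
      exact max_le (gauge_sub_near_le hp hC hc _ _ _ h2)
        (gauge_sub_near_le hp hC hc _ _ _ (Ne.symm h2))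
    · rw [hD4, sgauge, neg_sub]
      exact max_le (gauge_sub_far_le hp hp1 hC hc _ _) (gauge_sub_far_le hp hp1 hC hc _ _)

/-- lower bound for the norm of the test element in the subspace -/
lemma le_freeNorm_N {p q lam : ℝ} (hp : 0 < p) (hp1 : p ≤ 1) (hq : 0 < q) (hlam : 0 ≤ lam)
    (hj : 1 ≤ (j : ℝ))
    (h1 : lam ≤ 4 ^ (p / q) - 2 ^ (p / q))
    (h2 : lam * j ≤ 4 ^ (p / q) * (j : ℝ) ^ p - 2 ^ (p / q)) :
    ENNReal.ofReal (((n : ℝ) * (j * (2 ^ (p / q) + lam))) ^ p⁻¹) ≤
      freeNorm p (fun x y : NN n j => dq q (x : Pt n j) y) ⟨base, base_mem⟩ (mu n j) := by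
  set C : ℝ := 4 ^ (p / q) with hC
  set c : ℝ := 2 ^ (p / q) with hc
  have hpq : 0 < p / q := div_pos hp hq
  have hc0 : 0 < c := Real.rpow_pos_of_pos two_pos _
  have hcC : c ≤ C := Real.rpow_le_rpow (by norm_num) (by norm_num) hpq.le
  have hC0 : 0 < C := hc0.trans_le hcC
  let B : PBanach p (Fin n × Fin j → ℝ) := mkPBanach p hp (sgauge p C c)
    (sgauge_nonneg hC0.le hc0.le) (sgauge_add hp hp1 hC0.le hc0.le)
    (sgauge_smul hp hC0.le hc0.le) c hc0 (sgauge_low hp hp1 hc0.le hcC) C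
    (sgauge_up hp hC0.le hc0.le)
  have hB : ∀ y, B.nrm y = (sgauge p C c y) ^ p⁻¹ := fun y => rfl
  let f : NN n j → (Fin n × Fin j → ℝ) := fun x => emb (x : Pt n j)
  have hf0 : f ⟨base, base_mem⟩ = 0 := rfl
  have hf : ∀ x y : NN n j, B.nrm (f x - f y) ≤ dq q (x : Pt n j) y := by
    intro x y
    rw [hB]
    have h3 := sgauge_emb_le hp hp1 hc0.le hcC (D := fun m => (m : ℝ) ^ (p / q))
      (by simp [Real.zero_rpow hpq.ne']) (by simp [hc]) (by simp [hC]) x y
    have h4 : dq q (x : Pt n j) y = ((tdist (x : Pt n j) y : ℝ) ^ (p / q)) ^ p⁻¹ := by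
      have hd0 : 0 ≤ dq q (x : Pt n j) y := Real.rpow_nonneg (Nat.cast_nonneg _) _
      rw [← dq_rpow', Real.rpow_rpow_inv hd0 hp.ne']
    rw [h4]
    exact Real.rpow_le_rpow (sgauge_nonneg hC0.le hc0.le _) h3 (inv_nonneg.2 hp.le)
  have hsum : ((mu n j).sum fun x a => a • f x) = fun _ => 1 := by
    rw [mu_sum]
    funext z
    rw [Finset.sum_apply, Finset.sum_eq_single z]
    · simp [f, lf, emb]
    · intro b _ hb
      simp only [f, lf, emb]
      exact Pi.single_eq_of_ne (Ne.symm hb) _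
    · simp
  have hval : ENNReal.ofReal (((n : ℝ) * (j * (2 ^ (p / q) + lam))) ^ p⁻¹) ≤
      ENNReal.ofReal (B.nrm ((mu n j).sum fun x a => a • f x)) := by
    refine ENNReal.ofReal_le_ofReal ?_
    rw [hsum, hB]
    refine Real.rpow_le_rpow ?_ ?_ (inv_nonneg.2 hp.le)
    · have := Real.rpow_nonneg (zero_le_two : (0:ℝ) ≤ 2) (p / q)
      positivity
    · have h3 := gauge_one_ge (S := Fin n) (T := Fin j) hp hp1 hc0.le hcC hlam
        (by simpa using hj) h1 (by simpa using h2)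
      simp only [Fintype.card_fin] at h3
      exact h3.trans (le_max_left _ _)
  refine hval.trans ?_
  unfold freeNorm
  exact le_iSup_of_le _ (le_iSup_of_le _ (le_iSup_of_le _ (le_iSup_of_le B (le_iSup_of_le f
    (le_iSup_of_le hf0 (le_iSup_of_le hf le_rfl))))))

end space

section final

lemma exists_j {p w : ℝ} (hp : 0 < p) (hp1 : p < 1) (hw : 1 < w) :
    ∃ j : ℕ, 1 ≤ (j : ℝ) ∧ (j : ℝ) ^ (p - 1) < w - 1 ∧ 1 < (w - 1) * (j : ℝ) ^ p := by
  have h1 : Filter.Tendsto (fun j : ℕ => (j : ℝ) ^ (p - 1)) Filter.atTop (nhds 0) := by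
    have := (tendsto_rpow_neg_atTop (by linarith : 0 < 1 - p)).comp tendsto_natCast_atTop_atTop
    simpa [Function.comp_def] using this
  have h2 : Filter.Tendsto (fun j : ℕ => (w - 1) * (j : ℝ) ^ p) Filter.atTop Filter.atTop :=
    ((tendsto_rpow_atTop hp).comp tendsto_natCast_atTop_atTop).const_mul_atTop (by linarith)
  have h3 := h1.eventually (gt_mem_nhds (by linarith : (0:ℝ) < w - 1))
  have h4 := h2.eventually_gt_atTop 1
  have h5 := Filter.eventually_ge_atTop (1 : ℕ)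
  obtain ⟨j, hj⟩ := (h3.and (h4.and h5)).exists
  exact ⟨j, by exact_mod_cast hj.2.2, hj.1, hj.2.1⟩

lemma exists_n {p G K : ℝ} (hp1 : p < 1) (hG : 0 < G) :
    ∃ n : ℕ, 1 ≤ (n : ℝ) ∧ K * (n : ℝ) ^ p < n * G := by
  have h2 : Filter.Tendsto (fun n : ℕ => G * (n : ℝ) ^ (1 - p)) Filter.atTop Filter.atTop :=
    ((tendsto_rpow_atTop (by linarith : 0 < 1 - p)).comp
      tendsto_natCast_atTop_atTop).const_mul_atTop hG
  obtain ⟨n, hn⟩ := ((h2.eventually_gt_atTop K).and (Filter.eventually_ge_atTop (1 : ℕ))).exists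
  have hn1 : (1 : ℝ) ≤ n := by exact_mod_cast hn.2
  refine ⟨n, hn1, ?_⟩
  have hn0 : (0 : ℝ) < n := by linarith
  have h3 : (n : ℝ) = (n : ℝ) ^ (1 - p) * (n : ℝ) ^ p := by
    rw [← Real.rpow_add hn0]; simp
  have h4 : 0 < (n : ℝ) ^ p := Real.rpow_pos_of_pos hn0 _
  have h5 := mul_lt_mul_of_pos_right hn.1 h4
  calc K * (n : ℝ) ^ p < G * (n : ℝ) ^ (1 - p) * (n : ℝ) ^ p := h5
    _ = ((n : ℝ) ^ (1 - p) * (n : ℝ) ^ p) * G := by ring
    _ = n * G := by rw [← h3]

theorem main_gt {p q : ℝ} (hp : 0 < p) (hp1 : p < 1) (hpq : p ≤ q) :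
    (2 : ℝ≥0∞) ^ (1 / q) < ⨆ n : ℕ, A p q n := by
  have hq : 0 < q := hp.trans_le hpq
  set w : ℝ := 2 ^ (p / q) with hw
  have hpq0 : 0 < p / q := div_pos hp hq
  have hw1 : 1 < w := Real.one_lt_rpow (by norm_num) hpq0
  have hC : (4 : ℝ) ^ (p / q) = w * w := by
    rw [hw, ← Real.mul_rpow (by norm_num) (by norm_num)]; norm_num
  obtain ⟨j, hj1, hj2, hj3⟩ := exists_j hp hp1 hw1
  have hj0 : (0 : ℝ) < j := by linarith
  set P : ℝ := (j : ℝ) ^ p with hP
  have hP0 : 0 < P := Real.rpow_pos_of_pos hj0 _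
  have hjp : (j : ℝ) ^ (p - 1) * j = P := by
    rw [hP, ← Real.rpow_add_one hj0.ne']; simp
  -- choice of the slope
  obtain ⟨lam, hlam0, hlam1, hlam2, hlam3⟩ : ∃ lam : ℝ, 0 ≤ lam ∧ lam ≤ w * w - w ∧
      lam * j ≤ w * w * P - w ∧ w * P < lam * j := by
    refine ⟨min (w * w - w) ((w * w * P - w) / j), ?_, min_le_left _ _, ?_, ?_⟩
    · refine le_min (by nlinarith) (div_nonneg ?_ hj0.le)
      nlinarith
    · have := mul_le_mul_of_nonneg_right (min_le_right (w * w - w) ((w * w * P - w) / j)) hj0.le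
      rwa [div_mul_cancel₀ _ hj0.ne'] at this
    · rw [min_mul_of_nonneg _ _ hj0.le, div_mul_cancel₀ _ hj0.ne']
      refine lt_min ?_ ?_
      · have h1 : (j : ℝ) ^ (p - 1) * j < (w - 1) * j := mul_lt_mul_of_pos_right hj2 hj0
        rw [hjp] at h1
        nlinarith
      · nlinarith
  obtain ⟨n, hn1, hn2⟩ := exists_n (p := p) (G := lam * j - w * P) (K := w * w * P) hp1
    (by linarith)
  have hn0 : (0 : ℝ) < n := by linarith
  -- the two quantities
  set L : ℝ := (n : ℝ) * (j * (w + lam)) with hL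
  set U : ℝ := (n : ℝ) * (j + P) + w * ((n : ℝ) * j) ^ p with hU
  have hU0 : 0 < U := by
    have : 0 ≤ w * ((n : ℝ) * j) ^ p := mul_nonneg (by linarith) (Real.rpow_nonneg (by positivity) _)
    have : 0 < (n : ℝ) * (j + P) := by positivity
    linarith
  have hLU : w * U < L := by
    rw [hL, hU, Real.mul_rpow hn0.le hj0.le, ← hP]
    nlinarith
  have hlow := le_freeNorm_N (n := n) (j := j) (q := q) hp hp1.le hq hlam0 hj1
    (by rw [hC]; exact hlam1) (by rw [hC]; exact hlam2)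
  have hupp := freeNorm_M_le (n := n) (j := j) (q := q) hp
  have hratio : (2 : ℝ≥0∞) ^ (1 / q) <
      am p (dq q : Pt n j → Pt n j → ℝ) Pt.base (NN n j) base_mem := by
    have hjn : 0 < j := by exact_mod_cast hj0
    have hnn : 0 < n := by exact_mod_cast hn0
    have h1 : ∃ x : NN n j, (x : Pt n j) ≠ Pt.base ∧ mu n j x ≠ 0 := by
      refine ⟨lf (⟨0, hnn⟩, ⟨0, hjn⟩), by simp [lf], ?_⟩
      rw [mu, Finsupp.finsetSum_apply, Finset.sum_eq_single (⟨0, hnn⟩, ⟨0, hjn⟩)]
      · simp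
      · intro b _ hb
        classical
        rw [Finsupp.single_apply, if_neg]
        intro h
        apply hb
        have := congrArg Subtype.val h
        simp only [lf, Pt.leaf.injEq] at this
        exact Prod.ext this.1 this.2
      · simp
    have h2 : ENNReal.ofReal (L ^ p⁻¹) / ENNReal.ofReal (U ^ p⁻¹) ≤
        am p (dq q : Pt n j → Pt n j → ℝ) Pt.base (NN n j) base_mem := by
      unfold am
      refine le_iSup_of_le (mu n j) (le_iSup_of_le h1 ?_)
      exact ENNReal.div_le_div hlow hupp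
    refine lt_of_lt_of_le ?_ h2
    have hU1 : 0 < U ^ p⁻¹ := Real.rpow_pos_of_pos hU0 _
    rw [← ENNReal.ofReal_div_of_pos hU1, ← ENNReal.ofReal_ofNat 2,
      ENNReal.ofReal_rpow_of_pos two_pos]
    rw [ENNReal.ofReal_lt_ofReal_iff_of_nonneg (Real.rpow_nonneg zero_le_two _), lt_div_iff₀ hU1]
    have h3 : (2 : ℝ) ^ (1 / q) = w ^ p⁻¹ := by
      rw [hw, ← Real.rpow_mul zero_le_two]
      congr 1
      field_simp
    rw [h3, ← Real.mul_rpow (by linarith) hU0.le]
    exact Real.rpow_lt_rpow (by positivity) hLU (inv_pos.2 hp)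
  refine lt_of_lt_of_le hratio ?_
  -- membership in the family defining `A`
  have hcard : 0 < (NN n j).ncard := by
    rw [Set.ncard_pos (Set.toFinite _)]
    exact ⟨_, base_mem⟩
  obtain ⟨m, hm⟩ : ∃ m, (NN n j).ncard = m + 1 := ⟨(NN n j).ncard - 1, by omega⟩
  refine le_iSup_of_le m ?_
  unfold A
  exact le_iSup_of_le (Pt n j) (le_iSup_of_le inferInstance (le_iSup_of_le (dq q)
    (le_iSup_of_le (isRMetric_dq hq) (le_iSup_of_le Pt.base (le_iSup_of_le (NN n j)
    (le_iSup_of_le base_mem (le_iSup_of_le hm le_rfl)))))))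

/-- `ℝ` with the absolute value. -/
noncomputable def realPBanach : PBanach 1 ℝ where
  nrm y := |y|
  nonneg y := abs_nonneg y
  eq_zero_of_nrm y hy := abs_eq_zero.1 hy
  nrm_smul c y := by rw [smul_eq_mul, abs_mul]
  nrm_add y z := by simpa using abs_add_le y z
  complete u hu := by
    have hc : CauchySeq u := by
      rw [Metric.cauchySeq_iff]
      intro ε hε
      obtain ⟨K, hK⟩ := hu ε hε
      exact ⟨K, fun m hm n hn => by rw [Real.dist_eq]; exact hK m hm n hn⟩
    obtain ⟨y, hy⟩ := cauchySeq_tendsto_of_complete hc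
    refine ⟨y, fun ε hε => ?_⟩
    obtain ⟨K, hK⟩ := (Metric.tendsto_atTop.1 hy) ε hε
    exact ⟨K, fun n hn => by have := hK n hn; rwa [Real.dist_eq] at this⟩

/-- Hahn-Banach: a norming functional. -/
lemma exists_norming {Y : Type} [AddCommGroup Y] [Module ℝ Y] (B : PBanach 1 Y) (z : Y) :
    ∃ φ : Y →ₗ[ℝ] ℝ, φ z = B.nrm z ∧ ∀ y, φ y ≤ B.nrm y := by
  have hadd : ∀ x y, B.nrm (x + y) ≤ B.nrm x + B.nrm y := fun x y => by
    simpa using B.nrm_add x y
  by_cases hz : z = 0
  · subst hz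
    exact ⟨0, by simp [B.nrm_zero], fun y => by simpa using B.nonneg y⟩
  · obtain ⟨φ, h1, h2⟩ := exists_extension_of_le_sublinear
      (LinearPMap.mkSpanSingleton z (B.nrm z) hz) B.nrm
      (fun c hc x => by rw [B.nrm_smul, abs_of_pos hc]) hadd (by
        rintro ⟨x, hx⟩
        obtain ⟨c, rfl⟩ := Submodule.mem_span_singleton.1 hx
        rw [LinearPMap.mkSpanSingleton'_apply, smul_eq_mul]
        show c * B.nrm z ≤ B.nrm (c • z)
        rw [B.nrm_smul]
        exact mul_le_mul_of_nonneg_right (le_abs_self c) (B.nonneg z))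
    refine ⟨φ, ?_, h2⟩
    have h3 := h1 ⟨z, Submodule.mem_span_singleton_self z⟩
    rw [LinearPMap.mkSpanSingleton_apply] at h3
    exact h3

lemma freeNorm_one_le {M : Type} (d : M → M → ℝ) (hd : IsRMetric 1 d) (o : M) (N : Set M)
    (ho : o ∈ N) (μ : N →₀ ℝ) :
    freeNorm 1 (fun x y : N => d x y) ⟨o, ho⟩ μ ≤
      freeNorm 1 d o (μ.mapDomain (fun x : N => (x : M))) := by
  classical
  have hd0 : ∀ x, d x x = 0 := fun x => by
    have := (hd.rpow_eq_zero_iff x x).2 rfl
    simpa using this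
  have hd1 : ∀ x y, d x y = d y x := fun x y => by simpa using hd.rpow_symm x y
  have hd2 : ∀ x y z, d x z ≤ d x y + d y z := fun x y z => by simpa using hd.rpow_triangle x y z
  let _ : PseudoMetricSpace M :=
    { dist := d
      dist_self := hd0
      dist_comm := hd1
      dist_triangle := hd2 }
  refine iSup_le fun Y => iSup_le fun _ => iSup_le fun _ => iSup_le fun B => iSup_le fun f =>
    iSup_le fun hf0 => iSup_le fun hf => ?_
  obtain ⟨φ, hφ1, hφ2⟩ := exists_norming B (μ.sum fun x a => a • f x)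
  let f' : M → ℝ := fun x => if h : x ∈ N then φ (f ⟨x, h⟩) else 0
  have hf' : LipschitzOnWith 1 f' N := by
    refine LipschitzOnWith.of_dist_le_mul fun x hx y hy => ?_
    have e1 : f' x = φ (f ⟨x, hx⟩) := dif_pos hx
    have e2 : f' y = φ (f ⟨y, hy⟩) := dif_pos hy
    rw [e1, e2, Real.dist_eq, ← map_sub, NNReal.coe_one, one_mul]
    show |φ (f ⟨x, hx⟩ - f ⟨y, hy⟩)| ≤ d x y
    have h1 := (hφ2 (f ⟨x, hx⟩ - f ⟨y, hy⟩)).trans (hf ⟨x, hx⟩ ⟨y, hy⟩)
    have h2 := (hφ2 (f ⟨y, hy⟩ - f ⟨x, hx⟩)).trans (hf ⟨y, hy⟩ ⟨x, hx⟩)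
    rw [abs_le]
    constructor
    · have h3 : φ (f ⟨y, hy⟩ - f ⟨x, hx⟩) = - φ (f ⟨x, hx⟩ - f ⟨y, hy⟩) := by
        rw [← map_neg, neg_sub]
      have h4 := hd1 y x
      simp only at h2
      linarith
    · exact h1
  obtain ⟨g, hg, hgf⟩ := hf'.extend_real
  have hgN : ∀ x : N, g x = φ (f x) := fun x => by
    rw [← hgf x.2]; exact dif_pos x.2
  have hg0 : g o = 0 := by
    have := hgN ⟨o, ho⟩
    rw [hf0, map_zero] at this
    exact this
  have hg1 : ∀ x y, realPBanach.nrm (g x - g y) ≤ d x y := by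
    intro x y
    have := hg.dist_le_mul x y
    rw [NNReal.coe_one, one_mul, Real.dist_eq] at this
    exact this
  have hsum : ((μ.mapDomain (fun x : N => (x : M))).sum fun x a => a • g x) =
      φ (μ.sum fun x a => a • f x) := by
    have h1 : ((μ.mapDomain (fun x : N => (x : M))).sum fun x a => a • g x) =
        Finsupp.linearCombination ℝ g (μ.mapDomain (fun x : N => (x : M))) :=
      (Finsupp.linearCombination_apply ℝ _).symm
    rw [h1, Finsupp.linearCombination_mapDomain, Finsupp.linearCombination_apply, map_finsuppSum]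
    refine Finsupp.sum_congr fun x _ => ?_
    simp [hgN x]
  have hval : ENNReal.ofReal (B.nrm (μ.sum fun x a => a • f x)) ≤
      ENNReal.ofReal (realPBanach.nrm
        ((μ.mapDomain (fun x : N => (x : M))).sum fun x a => a • g x)) := by
    refine ENNReal.ofReal_le_ofReal ?_
    rw [hsum, hφ1]
    exact le_abs_self _
  refine hval.trans ?_
  unfold freeNorm
  exact le_iSup_of_le ℝ (le_iSup_of_le inferInstance (le_iSup_of_le inferInstance
    (le_iSup_of_le realPBanach (le_iSup_of_le g (le_iSup_of_le hg0 (le_iSup_of_le hg1 le_rfl))))))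

lemma iSup_A_one : (⨆ n : ℕ, A 1 1 n) ≤ 1 := by
  refine iSup_le fun n => ?_
  unfold A
  refine iSup_le fun M => iSup_le fun _ => iSup_le fun d => iSup_le fun hd => iSup_le fun o =>
    iSup_le fun N => iSup_le fun ho => iSup_le fun _ => ?_
  unfold am
  refine iSup_le fun μ => iSup_le fun _ => ?_
  refine ENNReal.div_le_of_le_mul ?_
  rw [one_mul]
  exact freeNorm_one_le d hd o N ho μ

theorem main_iff (p q : ℝ) (hp : 0 < p) (hpq : p ≤ q) (hq : q ≤ 1) :
    (⨆ n : ℕ, A p q n) ≤ (2 : ℝ≥0∞) ^ (1 / q) ↔ p = 1 := by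
  constructor
  · intro h
    by_contra hp1
    have hlt : p < 1 := lt_of_le_of_ne (hpq.trans hq) hp1
    exact absurd h (not_le.2 (main_gt hp hlt hpq))
  · intro h
    subst h
    have hq1 : q = 1 := le_antisymm hq hpq
    subst hq1
    refine iSup_A_one.trans ?_
    rw [div_one, ENNReal.rpow_one]
    exact one_le_two

end final

end Pool.Agent.Lib_helper4.Amenability
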