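import Pool.Agent.Lib_helper4.ZetaProof

/-!
# Counting families of primitive vectors over finite chain rings
-/

namespace Pool.Agent.Lib_helper4.GraphicalZeta

section prim

variable {R : Type} [CommRing R] {π : R} {q k : ℕ}

/-- primitive vectors -/
def Prim (π : R) (P : R × R) : Prop := ¬ (π ∣ P.1 ∧ π ∣ P.2)

/-- congruence of lines modulo `π ^ t` -/
def Rel (π : R) (t : ℕ) (P Q : R × R) : Prop := π ^ t ∣ P.1 * Q.2 - P.2 * Q.1

lemma Rel.refl (t : ℕ) (P : R × R) : Rel π t P P := by
  unfold Rel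
  rw [mul_comm, sub_self]
  exact dvd_zero _

lemma Rel.symm {t : ℕ} {P Q : R × R} (h : Rel π t P Q) : Rel π t Q P := by
  unfold Rel at *
  have : Q.1 * P.2 - Q.2 * P.1 = -(P.1 * Q.2 - P.2 * Q.1) := by ring
  rw [this]
  exact (dvd_neg).2 h

lemma Rel.mono {t t' : ℕ} (htt : t ≤ t') {P Q : R × R} (h : Rel π t' P Q) : Rel π t P Q :=
  (pow_dvd_pow _ htt).trans h

lemma IsChain.isUnit_of_not_dvd (h : IsChain R π q k) {x : R} (hx : ¬ π ∣ x) : IsUnit x := by
  obtain ⟨i, hi, u, hu, rfl⟩ := h.form x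
  rcases Nat.eq_zero_or_pos i with rfl | hi0
  · simpa using hu
  · exact absurd (dvd_mul_of_dvd_right (dvd_pow_self _ (by omega)) _) hx

lemma IsChain.not_isUnit (h : IsChain R π q k) (hk : 1 ≤ k) : ¬ IsUnit π := by
  intro hu
  have := h.fin
  have h1 := h.card_ideal 1 hk
  have h2 := h.card
  have h3 : Nat.card {x : R // π ^ 1 ∣ x} = Nat.card R :=
    Nat.card_congr (Equiv.subtypeUnivEquiv (fun x => by
      rw [pow_one]; exact hu.dvd))
  rw [h3, h2] at h1
  have := h.q_pos
  have h4 := Nat.pow_right_injective this h1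
  omega

lemma IsChain.not_dvd_of_isUnit (h : IsChain R π q k) (hk : 1 ≤ k) {x : R} (hx : IsUnit x) :
    ¬ π ∣ x := by
  intro hd
  exact h.not_isUnit hk (isUnit_of_dvd_unit hd hx)

lemma IsChain.rel_trans (h : IsChain R π q k) {t : ℕ} {P Q S : R × R} (hQ : Prim π Q)
    (h1 : Rel π t P Q) (h2 : Rel π t Q S) : Rel π t P S := by
  unfold Rel at *
  have e1 : (P.1 * S.2 - P.2 * S.1) * Q.1 =
      (Q.1 * S.2 - Q.2 * S.1) * P.1 + (P.1 * Q.2 - P.2 * Q.1) * S.1 := by ring
  have e2 : (P.1 * S.2 - P.2 * S.1) * Q.2 =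
      (Q.1 * S.2 - Q.2 * S.1) * P.2 + (P.1 * Q.2 - P.2 * Q.1) * S.2 := by ring
  rcases not_and_or.1 hQ with hq | hq
  · have hu := h.isUnit_of_not_dvd hq
    have h3 : π ^ t ∣ (P.1 * S.2 - P.2 * S.1) * Q.1 := by
      rw [e1]
      exact dvd_add (dvd_mul_of_dvd_left h2 _) (dvd_mul_of_dvd_left h1 _)
    exact (hu.dvd_mul_right).1 h3
  · have hu := h.isUnit_of_not_dvd hq
    have h3 : π ^ t ∣ (P.1 * S.2 - P.2 * S.1) * Q.2 := by
      rw [e2]
      exact dvd_add (dvd_mul_of_dvd_left h2 _) (dvd_mul_of_dvd_left h1 _)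
    exact (hu.dvd_mul_right).1 h3

/-- the size of a class of primitive vectors modulo `π ^ t` -/
def ssize (q k t : ℕ) : ℕ := if t = 0 then q ^ (2 * k) - q ^ (2 * k - 2) else
  q ^ (2 * k - t) - q ^ (2 * k - t - 1)

lemma card_prod_sub {α β : Type} (p : α → Prop) (r : β → Prop) :
    Nat.card {z : α × β // p z.1 ∧ r z.2} = Nat.card {x // p x} * Nat.card {y // r y} := by
  rw [← Nat.card_prod]
  exact Nat.card_congr
    { toFun := fun z => (⟨z.1.1, z.2.1⟩, ⟨z.1.2, z.2.2⟩)
      invFun := fun z => ⟨(z.1.1, z.2.1), z.1.2, z.2.2⟩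
      left_inv := fun z => rfl
      right_inv := fun z => rfl }

lemma card_not {α : Type} [Finite α] (p : α → Prop) :
    Nat.card {x // ¬ p x} = Nat.card α - Nat.card {x // p x} := by
  classical
  have := Fintype.ofFinite α
  rw [Nat.card_eq_fintype_card, Nat.card_eq_fintype_card, Nat.card_eq_fintype_card,
    Fintype.card_subtype_compl]

lemma IsChain.card_std (h : IsChain R π q k) (hk : 1 ≤ k) {t : ℕ} (ht : t ≤ k) :
    Nat.card {z : R × R // Prim π z ∧ π ^ t ∣ z.2} = ssize q k t := by
  have := h.fin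
  have c1 := h.card_ideal 1 hk
  have ct := h.card_ideal t ht
  have c0 := h.card
  rw [pow_one] at c1
  unfold ssize
  split_ifs with h0
  · subst h0
    have e1 : Nat.card {z : R × R // Prim π z ∧ π ^ 0 ∣ z.2} =
        Nat.card {z : R × R // ¬ (π ∣ z.1 ∧ π ∣ z.2)} :=
      Nat.card_congr (Equiv.subtypeEquivRight fun z => by simp [Prim])
    rw [e1, card_not, card_prod_sub, Nat.card_prod, c0, c1, ← pow_add, ← pow_add]
    congr 2 <;> omega
  · have e1 : Nat.card {z : R × R // Prim π z ∧ π ^ t ∣ z.2} =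
        Nat.card {z : R × R // (¬ π ∣ z.1) ∧ π ^ t ∣ z.2} :=
      Nat.card_congr (Equiv.subtypeEquivRight fun z => by
        have hpt : π ∣ π ^ t := dvd_pow_self _ h0
        constructor
        · rintro ⟨h1, h2⟩
          exact ⟨fun h3 => h1 ⟨h3, hpt.trans h2⟩, h2⟩
        · rintro ⟨h1, h2⟩
          exact ⟨fun h3 => h1 h3.1, h2⟩)
    rw [e1, card_prod_sub (fun z => ¬ π ∣ z), card_not, c0, c1, ct, Nat.sub_mul, ← pow_add,
      ← pow_add]
    congr 2 <;> omega

lemma IsChain.card_class_aux (h : IsChain R π q k) (hk : 1 ≤ k) {t : ℕ} (ht : t ≤ k) {P : R × R}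
    (hP : IsUnit P.1) :
    Nat.card {z : R × R // Prim π z ∧ Rel π t P z} = ssize q k t := by
  rw [← h.card_std hk ht]
  obtain ⟨u, hu⟩ := hP
  let e : R × R ≃ R × R :=
    { toFun := fun z => (z.1, P.1 * z.2 - P.2 * z.1)
      invFun := fun z => (z.1, (↑u⁻¹ : R) * (z.2 + P.2 * z.1))
      left_inv := fun z => by
        ext
        · rfl
        · show (↑u⁻¹ : R) * (P.1 * z.2 - P.2 * z.1 + P.2 * z.1) = z.2
          rw [sub_add_cancel, ← hu, Units.inv_mul_cancel_left]
      right_inv := fun z => by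
        ext
        · rfl
        · show P.1 * ((↑u⁻¹ : R) * (z.2 + P.2 * z.1)) - P.2 * z.1 = z.2
          rw [← hu, Units.mul_inv_cancel_left]
          ring }
  refine Nat.card_congr (e.subtypeEquiv fun z => ?_)
  have h1 : (e z).1 = z.1 := rfl
  have h2 : (e z).2 = P.1 * z.2 - P.2 * z.1 := rfl
  unfold Prim Rel
  rw [h1, h2]
  refine and_congr (not_congr ?_) Iff.rfl
  constructor
  · rintro ⟨h3, h4⟩
    exact ⟨h3, dvd_sub (dvd_mul_of_dvd_right h4 _) (dvd_mul_of_dvd_right h3 _)⟩
  · rintro ⟨h3, h4⟩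
    refine ⟨h3, ?_⟩
    have h5 : π ∣ P.1 * z.2 := by
      have := dvd_add h4 (dvd_mul_of_dvd_right h3 P.2)
      rwa [sub_add_cancel] at this
    exact (IsUnit.dvd_mul_left ⟨u, hu⟩).1 h5

lemma IsChain.card_class (h : IsChain R π q k) (hk : 1 ≤ k) {t : ℕ} (ht : t ≤ k) {P : R × R}
    (hP : Prim π P) :
    Nat.card {z : R × R // Prim π z ∧ Rel π t P z} = ssize q k t := by
  rcases not_and_or.1 hP with h1 | h1
  · exact h.card_class_aux hk ht (h.isUnit_of_not_dvd h1)
  · rw [← h.card_class_aux hk ht (P := P.swap) (h.isUnit_of_not_dvd h1)]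
    refine Nat.card_congr ((Equiv.prodComm R R).subtypeEquiv fun z => ?_)
    unfold Prim Rel
    simp only [Equiv.prodComm_apply, Prod.fst_swap, Prod.snd_swap]
    rw [and_comm (a := π ∣ z.1)]
    refine and_congr Iff.rfl ?_
    have : P.2 * z.1 - P.1 * z.2 = -(P.1 * z.2 - P.2 * z.1) := by ring
    rw [this, dvd_neg]

lemma IsChain.card_prim (h : IsChain R π q k) (hk : 1 ≤ k) :
    Nat.card {z : R × R // Prim π z} = ssize q k 0 := by
  rw [← h.card_std hk (Nat.zero_le _)]
  exact Nat.card_congr (Equiv.subtypeEquivRight fun z => by simp)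

/-- families of primitive vectors with prescribed congruences -/
def Cnt (π : R) (m : ℕ) (r : Fin m → Fin m → ℕ) : Type :=
  {P : Fin m → R × R // (∀ v, Prim π (P v)) ∧ ∀ u v, Rel π (r u v) (P u) (P v)}

instance [Finite R] (m : ℕ) (r : Fin m → Fin m → ℕ) : Finite (Cnt π m r) := by
  unfold Cnt; infer_instance

lemma card_cnt_zero (r : Fin 0 → Fin 0 → ℕ) : Nat.card (Cnt π 0 r) = 1 := by
  have : Unique (Cnt π 0 r) :=
    { default := ⟨fun v => v.elim0, fun v => v.elim0, fun v => v.elim0⟩
      uniq := fun P => Subtype.ext (Subsingleton.elim _ _) }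
  exact Nat.card_unique

lemma IsChain.card_cnt_one (h : IsChain R π q k) (hk : 1 ≤ k) (r : Fin 1 → Fin 1 → ℕ) :
    Nat.card (Cnt π 1 r) = ssize q k 0 := by
  rw [← h.card_prim hk]
  refine Nat.card_congr
    { toFun := fun P => ⟨P.1 0, P.2.1 0⟩
      invFun := fun z => ⟨fun _ => z.1, fun _ => z.2, fun u v => Rel.refl _ _⟩
      left_inv := fun P => ?_
      right_inv := fun z => rfl }
  apply Subtype.ext
  funext v
  show P.1 0 = P.1 v
  rw [Subsingleton.elim v 0]

/-- the constraint between the vertices `0` and `u + 1` -/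
def r0 {m : ℕ} (r : Fin (m + 1) → Fin (m + 1) → ℕ) (u : Fin m) : ℕ :=
  max (r 0 u.succ) (r u.succ 0)

/-- the constraints after the elimination of the vertex `0` -/
def rElim {m : ℕ} (r : Fin (m + 1) → Fin (m + 1) → ℕ) (w : Fin m) (u v : Fin m) : ℕ :=
  max (r u.succ v.succ) (if v = w then r0 r u else 0)

lemma IsChain.card_cnt_succ (h : IsChain R π q k) (hk : 1 ≤ k) {m : ℕ}
    (r : Fin (m + 1) → Fin (m + 1) → ℕ) (w : Fin m) (hw : ∀ u, r0 r u ≤ r0 r w)
    (hwk : r0 r w ≤ k) :
    Nat.card (Cnt π (m + 1) r) = ssize q k (r0 r w) * Nat.card (Cnt π m (rElim r w)) := by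
  have := h.fin
  have := Fintype.ofFinite (Cnt π m (rElim r w))
  have e : Cnt π (m + 1) r ≃ Σ P' : Cnt π m (rElim r w),
      {z : R × R // Prim π z ∧ Rel π (r0 r w) (P'.1 w) z} :=
    { toFun := fun P => ⟨⟨fun v => P.1 v.succ, fun v => P.2.1 _, fun u v => by
          unfold rElim
          rcases le_total (r u.succ v.succ) (if v = w then r0 r u else 0) with hle | hle
          · rw [max_eq_right hle]
            split_ifs with hvw
            · subst hvw
              -- through the vertex `0`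
              have h1 : Rel π (r0 r u) (P.1 u.succ) (P.1 0) := by
                unfold r0
                rcases le_total (r 0 u.succ) (r u.succ 0) with h2 | h2
                · rw [max_eq_right h2]; exact P.2.2 _ _
                · rw [max_eq_left h2]; exact (P.2.2 _ _).symm
              have h3 : Rel π (r0 r v) (P.1 v.succ) (P.1 0) := by
                unfold r0
                rcases le_total (r 0 v.succ) (r v.succ 0) with h2 | h2
                · rw [max_eq_right h2]; exact P.2.2 _ _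
                · rw [max_eq_left h2]; exact (P.2.2 _ _).symm
              exact h.rel_trans (P.2.1 0) h1 (h3.mono (hw u)).symm
            · unfold Rel; simp
          · rw [max_eq_left hle]
            exact P.2.2 _ _⟩,
        ⟨P.1 0, P.2.1 0, by
          unfold r0
          rcases le_total (r 0 w.succ) (r w.succ 0) with h2 | h2
          · rw [max_eq_right h2]; exact P.2.2 _ _
          · rw [max_eq_left h2]; exact (P.2.2 _ _).symm⟩⟩
      invFun := fun Q => ⟨Fin.cons Q.2.1 Q.1.1, fun v => by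
          refine Fin.cases ?_ (fun v => ?_) v
          · exact Q.2.2.1
          · exact Q.1.2.1 v, fun u v => by
          have key : ∀ v : Fin m, Rel π (r0 r v) (Q.1.1 v) Q.2.1 := by
            intro v
            have h1 : Rel π (r0 r v) (Q.1.1 v) (Q.1.1 w) := by
              refine (Q.1.2.2 v w).mono ?_
              unfold rElim
              rw [if_pos rfl]
              exact le_max_right _ _
            exact h.rel_trans (Q.1.2.1 w) h1 (Q.2.2.2.mono (hw v))
          revert v
          refine Fin.cases ?_ (fun u => ?_) u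
          · intro v
            refine Fin.cases ?_ (fun v => ?_) v
            · exact Rel.refl _ _
            · exact ((key v).mono (le_max_left _ _)).symm
          · intro v
            refine Fin.cases ?_ (fun v => ?_) v
            · exact (key u).mono (le_max_right _ _)
            · exact (Q.1.2.2 u v).mono (le_max_left _ _)⟩
      left_inv := fun P => by
        apply Subtype.ext
        exact Fin.cons_self_tail P.1
      right_inv := fun Q => rfl }
  rw [Nat.card_congr e, Nat.card_sigma]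
  rw [Finset.sum_congr rfl fun P _ => h.card_class hk hwk (P.2.1 w)]
  rw [Finset.sum_const, Finset.card_univ, smul_eq_mul, Nat.card_eq_fintype_card, mul_comm]

end prim

section conf

variable {R : Type} [CommRing R] {π : R} {q k : ℕ}

lemma IsChain.pow_ne_zero (h : IsChain R π q k) {j : ℕ} (hj : j < k) : π ^ j ≠ 0 := by
  intro h0
  have h1 := h.card_ideal j hj.le
  have h2 : Nat.card {x : R // π ^ j ∣ x} = 1 := by
    rw [h0]
    have : Unique {x : R // (0 : R) ∣ x} :=
      { default := ⟨0, dvd_rfl⟩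
        uniq := fun x => Subtype.ext (zero_dvd_iff.1 x.2) }
    exact Nat.card_unique
  rw [h2] at h1
  have h3 : 1 < q ^ (k - j) := Nat.one_lt_pow (by omega) (by have := h.q_pos; omega)
  omega

lemma IsChain.mul_eq_zero_iff (h : IsChain R π q k) (m : ℕ) (z : R) :
    π ^ m * z = 0 ↔ π ^ (k - m) ∣ z := by
  constructor
  · intro hz
    obtain ⟨i, hi, u, hu, rfl⟩ := h.form z
    refine dvd_mul_of_dvd_right (pow_dvd_pow _ ?_) _
    by_contra hcon
    push Not at hcon
    have h1 : π ^ (m + i) = 0 := by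
      have : u * π ^ (m + i) = 0 := by rw [← hz]; ring
      exact (hu.mul_right_eq_zero).1 this
    exact h.pow_ne_zero (by omega) h1
  · rintro ⟨c, rfl⟩
    rw [← mul_assoc, ← pow_add]
    have : m + (k - m) = k + (m + (k - m) - k) := by omega
    rw [this, pow_add, h.pow_zero, zero_mul, zero_mul]

lemma vval_eq {P : R × R} {a : ℕ} (ha : a ≤ k) (h1 : π ^ a ∣ P.1 ∧ π ^ a ∣ P.2)
    (h2 : a < k → ¬ (π ^ (a + 1) ∣ P.1 ∧ π ^ (a + 1) ∣ P.2)) : vval π k P = a := by
  classical
  unfold vval
  rw [Nat.findGreatest_eq_iff]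
  refine ⟨ha, fun _ => h1, fun n hn hnk hP => ?_⟩
  exact h2 (by omega) ⟨(pow_dvd_pow _ hn).trans hP.1, (pow_dvd_pow _ hn).trans hP.2⟩

/-- configurations with prescribed valuations -/
def VConf {n : ℕ} (Γ : SimpleGraph (Fin n)) (π : R) (k : ℕ) (a : Fin n → ℕ) : Type :=
  {P : Par Γ R // ∀ v, vval π k (P.1 v) = a v}

instance {n : ℕ} (Γ : SimpleGraph (Fin n)) [Finite R] : Finite (Par Γ R) := by
  unfold Par; infer_instance

instance {n : ℕ} (Γ : SimpleGraph (Fin n)) [Finite R] (a : Fin n → ℕ) :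
    Finite (VConf Γ π k a) := by
  unfold VConf; infer_instance

lemma card_par_eq_sum {n : ℕ} (Γ : SimpleGraph (Fin n)) [Finite R] :
    Nat.card (Par Γ R) =
      ∑ a : Fin n → Fin (k + 1), Nat.card (VConf Γ π k (fun v => (a v : ℕ))) := by
  rw [← Nat.card_sigma]
  refine Nat.card_congr
    { toFun := fun P => ⟨fun v => ⟨vval π k (P.1 v), Nat.lt_succ_of_le (vval_le _)⟩,
        ⟨P, fun v => rfl⟩⟩
      invFun := fun x => x.2.1
      left_inv := fun P => rfl
      right_inv := ?_ }
  rintro ⟨a, ⟨P, hP⟩⟩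
  obtain rfl : a = fun v => ⟨vval π k (P.1 v), Nat.lt_succ_of_le (vval_le _)⟩ := by
    funext v
    exact Fin.ext (hP v).symm
  rfl

/-- multiplicities -/
def fsize (q k a : ℕ) : ℕ := if a < k then q ^ (2 * a) else ssize q k 0

lemma IsChain.card_fibre (h : IsChain R π q k) (hk : 1 ≤ k) {P : R × R} {a : ℕ}
    (hP : vval π k P = a) :
    Nat.card {z : R × R // Prim π z ∧ (π ^ a * z.1 = P.1 ∧ π ^ a * z.2 = P.2)} = fsize q k a := by
  have ha : a ≤ k := by rw [← hP]; exact vval_le _
  have hs := vval_spec (π := π) (k := k) P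
  rw [hP] at hs
  unfold fsize
  split_ifs with hak
  · obtain ⟨⟨x, hx⟩, ⟨y, hy⟩⟩ := hs
    have hmax := vval_max P (by rw [hP]; exact hak)
    rw [hP] at hmax
    have hann := h.card_ann ha
    have e1 : Nat.card {z : R × R // Prim π z ∧ (π ^ a * z.1 = P.1 ∧ π ^ a * z.2 = P.2)} =
        Nat.card {z : R × R // π ^ a * z.1 = 0 ∧ π ^ a * z.2 = 0} := by
      refine Nat.card_congr ((Equiv.subRight (x, y)).subtypeEquiv fun z => ?_)
      simp only [Equiv.subRight_apply, Prod.fst_sub, Prod.snd_sub, mul_sub]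
      rw [← hx, ← hy, sub_eq_zero, sub_eq_zero]
      constructor
      · exact fun h1 => h1.2
      · intro h1
        refine ⟨fun h2 => hmax ⟨?_, ?_⟩, h1⟩
        · rw [← h1.1, pow_succ]; exact mul_dvd_mul_left _ h2.1
        · rw [← h1.2, pow_succ]; exact mul_dvd_mul_left _ h2.2
    rw [e1, card_prod_sub (fun z => π ^ a * z = 0) (fun z => π ^ a * z = 0), hann, ← pow_add,
      two_mul]
  · obtain rfl : a = k := by omega
    rw [← h.card_prim hk]
    refine Nat.card_congr (Equiv.subtypeEquivRight fun z => ?_)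
    rw [h.pow_zero, zero_dvd_iff, zero_dvd_iff] at hs
    rw [h.pow_zero, hs.1, hs.2, zero_mul, zero_mul]
    simp

open Classical in
/-- the congruences between the primitive vectors underlying a configuration -/
noncomputable def rho {n : ℕ} (Γ : SimpleGraph (Fin n)) (k : ℕ) (a : Fin n → ℕ) (u v : Fin n) : ℕ :=
  if Γ.Adj u v then k - (a u + a v) else 0

lemma IsChain.card_cnt_eq (h : IsChain R π q k) (hk : 1 ≤ k) {n : ℕ} (Γ : SimpleGraph (Fin n))
    (a : Fin n → ℕ) (ha : ∀ v, a v ≤ k) :
    Nat.card (Cnt π n (rho Γ k a)) = Nat.card (VConf Γ π k a) * ∏ v, fsize q k (a v) := by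
  classical
  have := h.fin
  have := Fintype.ofFinite (VConf Γ π k a)
  let f : Cnt π n (rho Γ k a) → VConf Γ π k a := fun P =>
    ⟨⟨fun v => (π ^ (a v) * (P.1 v).1, π ^ (a v) * (P.1 v).2), fun u v huv => by
      have h1 := P.2.2 u v
      unfold rho Rel at h1
      rw [if_pos huv, ← h.mul_eq_zero_iff] at h1
      show (π ^ (a u) * (P.1 u).1) * (π ^ (a v) * (P.1 v).2) =
        (π ^ (a u) * (P.1 u).2) * (π ^ (a v) * (P.1 v).1)
      rw [← sub_eq_zero, ← h1, pow_add]
      ring⟩, fun v => by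
      refine vval_eq (ha v) ⟨dvd_mul_right _ _, dvd_mul_right _ _⟩ fun hav hdiv => ?_
      apply P.2.1 v
      have key : ∀ z : R, π ^ (a v + 1) ∣ π ^ (a v) * z → π ∣ z := by
        rintro z ⟨c, hc⟩
        have h2 : π ^ (a v) * (z - π * c) = 0 := by
          rw [mul_sub, hc]; ring
        rw [h.mul_eq_zero_iff] at h2
        have h3 : π ∣ z - π * c := (dvd_pow_self _ (by omega)).trans h2
        have h4 := dvd_add h3 (dvd_mul_right π c)
        rwa [sub_add_cancel] at h4
      exact ⟨key _ hdiv.1, key _ hdiv.2⟩⟩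
  rw [Nat.card_congr (Equiv.sigmaFiberEquiv f).symm, Nat.card_sigma]
  have hfib : ∀ P : VConf Γ π k a, Nat.card {P' : Cnt π n (rho Γ k a) // f P' = P} =
      ∏ v, fsize q k (a v) := by
    intro P
    have e : {P' : Cnt π n (rho Γ k a) // f P' = P} ≃
        ∀ v, {z : R × R // Prim π z ∧ (π ^ (a v) * z.1 = (P.1.1 v).1 ∧
          π ^ (a v) * z.2 = (P.1.1 v).2)} :=
      { toFun := fun P' v => ⟨P'.1.1 v, P'.1.2.1 v, by
          have h1 := congrArg (fun Q : VConf Γ π k a => (Q.1.1 v).1) P'.2
          have h2 := congrArg (fun Q : VConf Γ π k a => (Q.1.1 v).2) P'.2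
          exact ⟨h1, h2⟩⟩
        invFun := fun z => ⟨⟨fun v => (z v).1, fun v => (z v).2.1, fun u v => by
            unfold rho
            split_ifs with huv
            · unfold Rel
              rw [← h.mul_eq_zero_iff, pow_add]
              have h1 := P.1.2 u v huv
              have e1 := (z u).2.2.1
              have e2 := (z u).2.2.2
              have e3 := (z v).2.2.1
              have e4 := (z v).2.2.2
              linear_combination h1 + (π ^ (a v) * (z v).1.2) * e1 + (P.1.1 u).1 * e4 -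
                (π ^ (a v) * (z v).1.1) * e2 - (P.1.1 u).2 * e3
            · unfold Rel; simp⟩, by
            apply Subtype.ext
            apply Subtype.ext
            funext v
            exact Prod.ext (z v).2.2.1 (z v).2.2.2⟩
        left_inv := fun P' => rfl
        right_inv := fun z => rfl }
    rw [Nat.card_congr e, Nat.card_pi]
    exact Finset.prod_congr rfl fun v _ => h.card_fibre hk (P.2 v)
  rw [Finset.sum_congr rfl fun P _ => hfib P, Finset.sum_const, Finset.card_univ, smul_eq_mul,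
    Nat.card_eq_fintype_card]

end conf

end Pool.Agent.Lib_helper4.GraphicalZeta
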