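import Pool.Agent.Lib_helper41.Lat.Isom

/-!
# Block C: CAT(0) spaces, density lemma, Euclidean space, polyhedral complexes
-/

namespace Pool.Agent.Lat

open Set Topology Filter

section Cat0
variable {X : Type*} [MetricSpace X]

theorem IsCAT0.geo_spec (hX : IsCAT0 X) (x y : X) :
    hX.geo x y 0 = x ∧ hX.geo x y 1 = y ∧
    ∀ s ∈ Icc (0 : ℝ) 1, ∀ t ∈ Icc (0 : ℝ) 1,
      dist (hX.geo x y s) (hX.geo x y t) = |s - t| * dist x y :=
  (hX.geodesic x y).choose_spec

theorem IsCAT0.geo_zero (hX : IsCAT0 X) (x y : X) : hX.geo x y 0 = x := (hX.geo_spec x y).1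

theorem IsCAT0.geo_one (hX : IsCAT0 X) (x y : X) : hX.geo x y 1 = y := (hX.geo_spec x y).2.1

theorem IsCAT0.dist_left (hX : IsCAT0 X) (x y : X) {t : ℝ} (ht : t ∈ Icc (0 : ℝ) 1) :
    dist x (hX.geo x y t) = t * dist x y := by
  have h := (hX.geo_spec x y).2.2 0 ⟨le_refl _, zero_le_one⟩ t ht
  rw [hX.geo_zero] at h
  rw [h, zero_sub, abs_neg, abs_of_nonneg ht.1]

theorem IsCAT0.dist_right (hX : IsCAT0 X) (x y : X) {t : ℝ} (ht : t ∈ Icc (0 : ℝ) 1) :
    dist (hX.geo x y t) y = (1 - t) * dist x y := by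
  have h := (hX.geo_spec x y).2.2 t ht 1 ⟨zero_le_one, le_refl _⟩
  rw [hX.geo_one] at h
  rw [h, abs_sub_comm, abs_of_nonneg (by linarith [ht.2])]

theorem IsCAT0.eq_geo (hX : IsCAT0 X) {x y z : X} {t : ℝ} (ht : t ∈ Icc (0 : ℝ) 1)
    (h1 : dist x z = t * dist x y) (h2 : dist z y = (1 - t) * dist x y) :
    z = hX.geo x y t := by
  have h := hX.comparison (hX.geo x y t) x y z t ht h1 h2
  rw [dist_comm _ x, hX.dist_left x y ht, hX.dist_right x y ht] at h
  have h0 : dist (hX.geo x y t) z ^ 2 ≤ 0 := by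
    refine h.trans (le_of_eq ?_)
    ring
  have h3 : dist (hX.geo x y t) z = 0 := by
    have := sq_nonneg (dist (hX.geo x y t) z)
    exact pow_eq_zero_iff (two_ne_zero) |>.1 (le_antisymm h0 this)
  exact (dist_eq_zero.1 h3).symm

theorem IsCAT0.map_geo (hX : IsCAT0 X) (f : X ≃ᵢ X) (x y : X) {t : ℝ}
    (ht : t ∈ Icc (0 : ℝ) 1) : f (hX.geo x y t) = hX.geo (f x) (f y) t := by
  apply hX.eq_geo ht
  · rw [f.dist_eq, f.dist_eq, hX.dist_left x y ht]
  · rw [f.dist_eq, f.dist_eq, hX.dist_right x y ht]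

theorem IsCAT0.geo_symm (hX : IsCAT0 X) (x y : X) {t : ℝ} (ht : t ∈ Icc (0 : ℝ) 1) :
    hX.geo x y t = hX.geo y x (1 - t) := by
  apply hX.eq_geo ⟨by linarith [ht.2], by linarith [ht.1]⟩
  · rw [dist_comm, hX.dist_right x y ht, dist_comm y x]
  · rw [dist_comm, hX.dist_left x y ht, dist_comm y x]; ring

theorem IsCAT0.dist_geo_left (hX : IsCAT0 X) (x y y' : X) {t : ℝ} (ht : t ∈ Icc (0 : ℝ) 1) :
    dist (hX.geo x y t) (hX.geo x y' t) ≤ t * dist y y' := by
  have h1 := hX.comparison (hX.geo x y t) x y' (hX.geo x y' t) t ht (hX.dist_left x y' ht)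
    (hX.dist_right x y' ht)
  have h2 := hX.comparison y' x y (hX.geo x y t) t ht (hX.dist_left x y ht)
    (hX.dist_right x y ht)
  rw [dist_comm _ x, hX.dist_left x y ht, dist_comm _ y'] at h1
  have h3 : dist (hX.geo x y t) (hX.geo x y' t) ^ 2 ≤ (t * dist y y') ^ 2 := by
    have h4 := mul_le_mul_of_nonneg_left h2 ht.1
    rw [dist_comm y' x, dist_comm y' y] at h4
    nlinarith
  exact le_of_sq_le_sq h3 (mul_nonneg ht.1 dist_nonneg)

theorem IsCAT0.dist_geo_geo (hX : IsCAT0 X) (x y x' y' : X) {t : ℝ} (ht : t ∈ Icc (0 : ℝ) 1) :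
    dist (hX.geo x y t) (hX.geo x' y' t) ≤ (1 - t) * dist x x' + t * dist y y' := by
  have ht' : 1 - t ∈ Icc (0 : ℝ) 1 := ⟨by linarith [ht.2], by linarith [ht.1]⟩
  have h1 := hX.dist_geo_left x y y' ht
  have h2 := hX.dist_geo_left y' x x' ht'
  rw [← hX.geo_symm x y' ht, ← hX.geo_symm x' y' ht] at h2
  have h3 := dist_triangle (hX.geo x y t) (hX.geo x y' t) (hX.geo x' y' t)
  linarith

theorem IsCAT0.continuous_geo (hX : IsCAT0 X) :
    Continuous (fun p : X × X × Icc (0 : ℝ) 1 => hX.geo p.1 p.2.1 p.2.2) := by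
  rw [continuous_iff_continuousAt]
  rintro ⟨x0, y0, t0⟩
  rw [ContinuousAt, tendsto_iff_dist_tendsto_zero]
  have hc : Continuous (fun p : X × X × Icc (0 : ℝ) 1 =>
      dist p.1 x0 + dist p.2.1 y0 + |(p.2.2 : ℝ) - t0| * dist x0 y0) := by fun_prop
  have hlim : Tendsto (fun p : X × X × Icc (0 : ℝ) 1 =>
      dist p.1 x0 + dist p.2.1 y0 + |(p.2.2 : ℝ) - t0| * dist x0 y0) (𝓝 (x0, y0, t0)) (𝓝 0) := by
    have := hc.tendsto (x0, y0, t0)
    simpa using this
  refine squeeze_zero (fun _ => dist_nonneg) ?_ hlim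
  rintro ⟨x, y, t⟩
  simp only
  have h1 := hX.dist_geo_geo x y x0 y0 t.2
  have h2 := (hX.geo_spec x0 y0).2.2 t t.2 t0 t0.2
  have h3 := dist_triangle (hX.geo x y t) (hX.geo x0 y0 t) (hX.geo x0 y0 t0)
  have h4 : (1 - (t : ℝ)) * dist x x0 ≤ dist x x0 := by
    have := mul_nonneg t.2.1 (dist_nonneg (x := x) (y := x0)); nlinarith
  have h5 : (t : ℝ) * dist y y0 ≤ dist y y0 := by
    have := mul_le_mul_of_nonneg_right t.2.2 (dist_nonneg (x := y) (y := y0)); linarith
  linarith

theorem IsCAT0.exists_geo_of_between (hX : IsCAT0 X) {x y z : X}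
    (h : dist x z + dist z y = dist x y) : ∃ t ∈ Icc (0 : ℝ) 1, z = hX.geo x y t := by
  rcases eq_or_ne (dist x y) 0 with h0 | h0
  · refine ⟨0, ⟨le_refl _, zero_le_one⟩, ?_⟩
    rw [hX.geo_zero]
    have h1 : dist x z = 0 := by
      have h2 := dist_nonneg (x := x) (y := z)
      have h3 := dist_nonneg (x := z) (y := y)
      linarith
    exact (dist_eq_zero.1 h1).symm
  · have hpos : 0 < dist x y := lt_of_le_of_ne dist_nonneg (Ne.symm h0)
    have h2 := dist_nonneg (x := x) (y := z)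
    have h3 := dist_nonneg (x := z) (y := y)
    have ht : dist x z / dist x y ∈ Icc (0 : ℝ) 1 :=
      ⟨div_nonneg h2 hpos.le, by rw [div_le_one hpos]; linarith⟩
    refine ⟨dist x z / dist x y, ht, hX.eq_geo ht ?_ ?_⟩
    · field_simp
    · field_simp; linarith

theorem IsCAT0.geo_between (hX : IsCAT0 X) (x y : X) {t : ℝ} (ht : t ∈ Icc (0 : ℝ) 1) :
    dist x (hX.geo x y t) + dist (hX.geo x y t) y = dist x y := by
  rw [hX.dist_left x y ht, hX.dist_right x y ht]; ring

theorem IsCAT0.gconvex_iff (hX : IsCAT0 X) (C : Set X) :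
    GConvex C ↔ ∀ x ∈ C, ∀ y ∈ C, ∀ t ∈ Icc (0 : ℝ) 1, hX.geo x y t ∈ C := by
  constructor
  · intro h x hx y hy t ht
    exact h x hx y hy _ (hX.geo_between x y ht)
  · intro h x hx y hy z hz
    obtain ⟨t, ht, rfl⟩ := hX.exists_geo_of_between hz
    exact h x hx y hy t ht

theorem IsCAT0.gconvex_fixed (hX : IsCAT0 X) (f : X ≃ᵢ X) : GConvex {x | f x = x} := by
  rw [hX.gconvex_iff]
  intro x hx y hy t ht
  have hx' : f x = x := hx
  have hy' : f y = y := hy
  change f (hX.geo x y t) = hX.geo x y t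
  rw [hX.map_geo f x y ht, hx', hy']

theorem IsCAT0.density (hX : IsCAT0 X) (A : Subgroup (X ≃ᵢ X)) (hmin : ActsMinimally A)
    (B : Set (X ≃ᵢ X)) (hB : CocompactIn B A) (F : X → ℝ) (hF : Continuous F)
    (hconv : ∀ x y, ∀ t ∈ Icc (0 : ℝ) 1, F (hX.geo x y t) ≤ (1 - t) * F x + t * F y)
    (hinv : ∀ b ∈ B, ∀ x, F (b x) = F x) (x y : X) : F x = F y := by
  obtain ⟨Q, hQ, hQA, hQB⟩ := hB
  have hev : ∀ x : X, Continuous (fun g : X ≃ᵢ X => g x) := fun x =>
    continuous_isom_iff.1 continuous_id x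
  have hQne : Q.Nonempty := by
    obtain ⟨b, _, q, hq, _⟩ := hQB 1 A.one_mem
    exact ⟨q, hq⟩
  have hred : ∀ a ∈ A, ∃ q ∈ Q, ∀ x, F (a x) = F (q x) := by
    intro a ha
    obtain ⟨b, hb, q, hq, rfl⟩ := hQB a ha
    exact ⟨q, hq, fun x => hinv b hb (q x)⟩
  -- the maximum over an orbit
  have hmax : ∀ x, ∃ q ∈ Q, ∀ a ∈ A, F (a x) ≤ F (q x) := by
    intro x
    obtain ⟨q, hq, hmx⟩ := hQ.exists_isMaxOn hQne (hF.comp (hev x)).continuousOn
    refine ⟨q, hq, fun a ha => ?_⟩
    obtain ⟨q', hq', he⟩ := hred a ha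
    rw [he x]
    exact hmx hq'
  have hsub : ∀ c : ℝ, ∀ x0 : X, (∀ a ∈ A, F (a x0) ≤ c) → ∀ x, ∀ a ∈ A, F (a x) ≤ c := by
    intro c x0 hx0
    have huniv : {x : X | ∀ a ∈ A, F (a x) ≤ c} = univ := by
      apply hmin
      · exact ⟨x0, hx0⟩
      · have : {x : X | ∀ a ∈ A, F (a x) ≤ c} = ⋂ a ∈ A, {x : X | F (a x) ≤ c} := by
          ext z; simp
        rw [this]
        refine isClosed_biInter fun a _ => ?_
        exact isClosed_le (hF.comp a.continuous) continuous_const
      · rw [hX.gconvex_iff]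
        intro z hz w hw t ht a ha
        rw [hX.map_geo a z w ht]
        have h1 := hconv (a z) (a w) t ht
        have h2 := mul_le_mul_of_nonneg_left (hz a ha) (sub_nonneg.2 ht.2)
        have h3 := mul_le_mul_of_nonneg_left (hw a ha) ht.1
        linarith
      · intro a ha z hz b hb
        have := hz (b * a) (A.mul_mem hb ha)
        exact this
    intro z
    have : z ∈ {x : X | ∀ a ∈ A, F (a x) ≤ c} := huniv ▸ mem_univ z
    exact this
  obtain ⟨q0, hq0, hm0⟩ := hmax x
  set M := F (q0 x) with hM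
  have hle : ∀ z, ∀ a ∈ A, F (a z) ≤ M := hsub M x hm0
  have hatt : ∀ z, ∃ q ∈ Q, F (q z) = M := by
    intro z
    obtain ⟨q, hq, hm⟩ := hmax z
    refine ⟨q, hq, le_antisymm (hle z q (hQA hq)) ?_⟩
    exact hsub (F (q z)) z hm x q0 (hQA hq0)
  have hfin : ∀ s : Finset X, ∃ z : X, ∀ a ∈ A, F (a z) = M → ∀ w ∈ s, F (a w) = M := by
    classical
    intro s
    induction s using Finset.induction_on with
    | empty => exact ⟨x, fun a _ _ w hw => absurd hw (Finset.notMem_empty w)⟩
    | insert w s _ ih =>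
      obtain ⟨z, hz⟩ := ih
      have ht : (1 / 2 : ℝ) ∈ Icc (0 : ℝ) 1 := ⟨by norm_num, by norm_num⟩
      refine ⟨hX.geo z w (1 / 2), fun a ha h => ?_⟩
      rw [hX.map_geo a z w ht] at h
      have h1 := hconv (a z) (a w) (1 / 2) ht
      have h2 := hle z a ha
      have h3 := hle w a ha
      have h4 : F (a z) = M := by linarith
      have h5 : F (a w) = M := by linarith
      intro v hv
      rcases Finset.mem_insert.1 hv with rfl | hv
      · exact h5
      · exact hz a ha h4 v hv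
  have hall : (Q ∩ ⋂ z : X, {q : X ≃ᵢ X | F (q z) = M}).Nonempty := by
    apply hQ.inter_iInter_nonempty
    · intro z
      exact isClosed_eq (hF.comp (hev z)) continuous_const
    · intro u
      obtain ⟨z, hz⟩ := hfin u
      obtain ⟨q, hq, hqz⟩ := hatt z
      refine ⟨q, hq, ?_⟩
      simp only [mem_iInter]
      intro w hw
      exact hz q (hQA hq) hqz w hw
  obtain ⟨q, _, hq⟩ := hall
  have hq' : ∀ z, F (q z) = M := fun z => mem_iInter.1 hq z
  have hfin2 : ∀ z, F z = M := fun z => by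
    have := hq' (q.symm z)
    rwa [q.apply_symm_apply] at this
  rw [hfin2 x, hfin2 y]

theorem IsCAT0.displacement_const (hX : IsCAT0 X) (A : Subgroup (X ≃ᵢ X))
    (hmin : ActsMinimally A) (B : Set (X ≃ᵢ X)) (hB : CocompactIn B A) (α : X ≃ᵢ X)
    (hα : ∀ b ∈ B, b * α = α * b) (x y : X) : dist x (α x) = dist y (α y) := by
  refine hX.density A hmin B hB (fun z => dist z (α z)) (by fun_prop) ?_ ?_ x y
  · intro z w t ht
    rw [hX.map_geo α z w ht]
    exact hX.dist_geo_geo z w (α z) (α w) ht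
  · intro b hb z
    have : α (b z) = b (α z) := by
      have := congrArg (fun f : X ≃ᵢ X => f z) (hα b hb)
      exact this.symm
    rw [this, b.dist_eq]

theorem euclid_between {n : ℕ} {x y z : EE n} {t : ℝ}
    (h1 : dist x z = t * dist x y) (h2 : dist z y = (1 - t) * dist x y) :
    (1 - t) • (x - z) + t • (y - z) = 0 := by
  rw [dist_eq_norm, dist_eq_norm] at h1
  rw [dist_comm, dist_eq_norm, dist_eq_norm] at h2
  set a := x - z with ha
  set b := y - z with hb
  have hab : x - y = a - b := by rw [ha, hb]; abel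
  rw [hab] at h1 h2
  have e := norm_sub_sq_real a b
  have h3 : 2 * inner ℝ a b = - (2 * (t * (1 - t)) * ‖a - b‖ ^ 2) := by
    rw [h1, h2] at e
    nlinarith
  have h4 : ‖(1 - t) • a + t • b‖ ^ 2 = 0 := by
    rw [norm_add_sq_real, norm_smul, norm_smul, inner_smul_left, inner_smul_right]
    simp only [Real.norm_eq_abs, mul_pow, sq_abs, conj_trivial]
    rw [h1, h2]
    linear_combination ((1 - t) * t) * h3
  have h5 : ‖(1 - t) • a + t • b‖ = 0 := by
    exact pow_eq_zero_iff (two_ne_zero) |>.1 h4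
  exact norm_eq_zero.1 h5

theorem euclid_isCAT0 (n : ℕ) : IsCAT0 (EE n) where
  nonempty := ⟨0⟩
  geodesic := by
    intro x y
    refine ⟨fun t => x + t • (y - x), by simp, by simp, ?_⟩
    intro s _ t _
    rw [dist_eq_norm, dist_comm x y, dist_eq_norm]
    have : x + s • (y - x) - (x + t • (y - x)) = (s - t) • (y - x) := by
      rw [sub_smul]; abel
    rw [this, norm_smul, Real.norm_eq_abs]
  comparison := by
    intro p x y z t ht h1 h2
    have h0 := euclid_between h1 h2
    have hxy : ‖x - z‖ = t * dist x y := by rw [← h1, dist_eq_norm]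
    have hyz : ‖y - z‖ = (1 - t) * dist x y := by rw [← h2, dist_comm, dist_eq_norm]
    have e1 : dist p x = ‖(p - z) - (x - z)‖ := by rw [dist_eq_norm]; congr 1; abel
    have e2 : dist p y = ‖(p - z) - (y - z)‖ := by rw [dist_eq_norm]; congr 1; abel
    have e3 := norm_sub_sq_real (p - z) (x - z)
    have e4 := norm_sub_sq_real (p - z) (y - z)
    have e5 : (1 - t) * inner ℝ (p - z) (x - z) + t * inner ℝ (p - z) (y - z) = 0 := by
      have := congrArg (fun v => inner ℝ (p - z) v) h0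
      simpa [inner_add_right, inner_smul_right] using this
    rw [e1, e2, e3, e4, hxy, hyz, dist_eq_norm p z]
    nlinarith

theorem euclid_minimal (n : ℕ) : ActsMinimally (⊤ : Subgroup (EE n ≃ᵢ EE n)) := by
  intro C hne _ _ hinv
  obtain ⟨x, hx⟩ := hne
  refine eq_univ_of_forall fun y => ?_
  have := hinv (trans (y - x)) (Subgroup.mem_top _) x hx
  rwa [trans_apply, add_sub_cancel] at this

theorem euclid_centralizer {n : ℕ} (B : Set (EE n ≃ᵢ EE n)) (hB : Cocompact B)
    (s : EE n ≃ᵢ EE n) (hs : ∀ b ∈ B, b * s = s * b) :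
    ∃ w : EE n, s = trans w ∧ ∀ b ∈ B, lin b w = w := by
  have hB' : CocompactIn B (⊤ : Subgroup (EE n ≃ᵢ EE n)) := by
    obtain ⟨Q, hQ, h⟩ := hB
    exact ⟨Q, hQ, fun _ _ => Subgroup.mem_top _, fun g _ => h g⟩
  have hd := (euclid_isCAT0 n).displacement_const ⊤ (euclid_minimal n) B hB' s hs
  have hlin : ∀ v : EE n, lin s v = v := by
    intro v
    by_contra hne
    have hne' : lin s v - v ≠ 0 := sub_ne_zero.2 hne
    have hpos : 0 < ‖lin s v - v‖ := norm_pos_iff.2 hne'
    -- displacement at `r • v`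
    have key : ∀ r : ℝ, ‖s 0 + r • (lin s v - v)‖ = ‖s 0‖ := by
      intro r
      have h := hd (r • v) 0
      rw [dist_comm, dist_eq_norm, dist_comm, dist_eq_norm, sub_zero] at h
      rw [← h]
      congr 1
      have h2 := apply_add s 0 (r • v)
      rw [zero_add] at h2
      rw [h2, (lin s).map_smul, smul_sub]
      abel
    have h1 := key ((2 * ‖s 0‖ + 1) / ‖lin s v - v‖)
    have h2 : ‖((2 * ‖s 0‖ + 1) / ‖lin s v - v‖) • (lin s v - v)‖ = 2 * ‖s 0‖ + 1 := by
      rw [norm_smul, Real.norm_eq_abs, abs_of_nonneg (by positivity)]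
      field_simp
    have h3 := norm_sub_le (s 0 + ((2 * ‖s 0‖ + 1) / ‖lin s v - v‖) • (lin s v - v)) (s 0)
    rw [add_sub_cancel_left, h1, h2] at h3
    linarith [norm_nonneg (s 0)]
  refine ⟨s 0, ?_, ?_⟩
  · apply IsometryEquiv.ext
    intro v
    have h2 := apply_add s 0 v
    rw [zero_add, hlin] at h2
    rw [h2, trans_apply, add_comm]
  · intro b hb
    have h3 := congrArg (fun f : EE n ≃ᵢ EE n => f 0) (hs b hb)
    have h4 : b (s 0) = s (b 0) := h3
    have h5 := apply_add s 0 (b 0)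
    rw [zero_add, hlin] at h5
    rw [lin_apply, h4, h5]
    abel

theorem PolyComplex.isClosed_aut (K : PolyComplex X) : IsClosed (K.Aut : Set (X ≃ᵢ X)) := by
  have hev : ∀ x : X, Continuous (fun g : X ≃ᵢ X => g x) := fun x =>
    continuous_isom_iff.1 continuous_id x
  have hevi : ∀ x : X, Continuous (fun g : X ≃ᵢ X => g⁻¹ x) := fun x =>
    (hev x).comp continuous_inv
  -- one direction
  have main : ∀ f ∈ closure (K.Aut : Set (X ≃ᵢ X)), ∀ s ∈ K.cells, f '' s ∈ K.cells := by
    intro f hf s hs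
    obtain ⟨x0, hx0⟩ := K.cell_nonempty s hs
    obtain ⟨r, hr, hfin⟩ := K.locallyFinite (f x0)
    set T := {t ∈ K.cells | (t ∩ Metric.ball (f x0) r).Nonempty} with hT
    let U : Set (X ≃ᵢ X) := {g | dist (g x0) (f x0) < r}
    have hU : IsOpen U := isOpen_lt ((hev x0).dist continuous_const) continuous_const
    have hfU : f ∈ U := by simpa [U] using hr
    let D : Set (X ≃ᵢ X) := ⋃ t ∈ T, {g | g '' s = t}
    have hD : IsClosed D := by
      refine hfin.isClosed_biUnion fun t ht => ?_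
      have hcl : {g : X ≃ᵢ X | g '' s = t} =
          (⋂ x ∈ s, {g : X ≃ᵢ X | g x ∈ t}) ∩ (⋂ y ∈ t, {g : X ≃ᵢ X | g⁻¹ y ∈ s}) := by
        ext g
        simp only [mem_inter_iff, mem_iInter, mem_ofPred_eq]
        constructor
        · intro h
          refine ⟨fun x hx => h ▸ mem_image_of_mem _ hx, fun y hy => ?_⟩
          rw [← h] at hy
          obtain ⟨x, hx, rfl⟩ := hy
          simpa using hx
        · rintro ⟨h1, h2⟩
          apply Subset.antisymm
          · rintro _ ⟨x, hx, rfl⟩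
            exact h1 x hx
          · intro y hy
            exact ⟨g⁻¹ y, h2 y hy, by simp⟩
      rw [hcl]
      refine IsClosed.inter ?_ ?_
      · exact isClosed_biInter fun x _ => (K.cell_compact t ht.1).isClosed.preimage (hev x)
      · exact isClosed_biInter fun y _ => (K.cell_compact s hs).isClosed.preimage (hevi y)
    have hsub : U ∩ (K.Aut : Set (X ≃ᵢ X)) ⊆ D := by
      rintro g ⟨hgU, hgA⟩
      have h1 : g '' s ∈ T := by
        refine ⟨(hgA s).2 hs, g x0, mem_image_of_mem _ hx0, ?_⟩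
        exact hgU
      exact mem_biUnion h1 rfl
    have hfD : f ∈ D := by
      have h1 := hU.inter_closure (t := (K.Aut : Set (X ≃ᵢ X))) ⟨hfU, hf⟩
      exact (closure_minimal hsub hD) h1
    obtain ⟨t, ht, hft⟩ := mem_iUnion₂.1 hfD
    have : f '' s = t := hft
    rw [this]
    exact ht.1
  rw [← closure_subset_iff_isClosed]
  intro f hf s
  refine ⟨fun h => ?_, main f hf s⟩
  have hfi : f⁻¹ ∈ closure (K.Aut : Set (X ≃ᵢ X)) := by
    have h1 : f⁻¹ ∈ (K.Aut.topologicalClosure : Set (X ≃ᵢ X)) :=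
      K.Aut.topologicalClosure.inv_mem hf
    exact h1
  have h2 := main f⁻¹ hfi _ h
  have h3 : (f⁻¹ : X ≃ᵢ X) '' (f '' s) = s := by
    rw [← image_comp]
    have : ((f⁻¹ : X ≃ᵢ X) ∘ f) = id := by ext x; simp
    rw [this, image_id]
  rwa [h3] at h2

theorem PolyComplex.finite_meet (K : PolyComplex X) {C : Set X} (hC : IsCompact C) :
    {s ∈ K.cells | (s ∩ C).Nonempty}.Finite := by
  refine hC.induction_on (p := fun C => {s ∈ K.cells | (s ∩ C).Nonempty}.Finite) ?_ ?_ ?_ ?_
  · have : {s ∈ K.cells | (s ∩ (∅ : Set X)).Nonempty} = ∅ := by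
      ext s; simp
    rw [this]; exact finite_empty
  · intro s t hst ht
    exact ht.subset fun u hu => ⟨hu.1, hu.2.mono (inter_subset_inter_right _ hst)⟩
  · intro s t hs ht
    refine (hs.union ht).subset ?_
    rintro u ⟨hu, x, hxu, hx⟩
    rcases hx with hx | hx
    · exact Or.inl ⟨hu, x, hxu, hx⟩
    · exact Or.inr ⟨hu, x, hxu, hx⟩
  · intro x _
    obtain ⟨r, hr, hfin⟩ := K.locallyFinite x
    exact ⟨Metric.ball x r, mem_nhdsWithin_of_mem_nhds (Metric.ball_mem_nhds x hr), hfin⟩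

theorem PolyComplex.stab_open (K : PolyComplex X) (hX : IsCAT0 X) (x : X) :
    ∃ U ∈ 𝓝 (1 : X ≃ᵢ X), ∀ f ∈ U, f ∈ K.Aut → f x = x := by
  have hev : ∀ x : X, Continuous (fun g : X ≃ᵢ X => g x) := fun x =>
    continuous_isom_iff.1 continuous_id x
  obtain ⟨s, hs, hxs⟩ := K.cover x
  -- the vertices of `s`
  have hV : {v ∈ s | {v} ∈ K.cells}.Finite := by
    have h1 := K.finite_meet (K.cell_compact s hs)
    have h2 : (fun v : X => ({v} : Set X)) '' {v ∈ s | {v} ∈ K.cells} ⊆
        {t ∈ K.cells | (t ∩ s).Nonempty} := by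
      rintro _ ⟨v, ⟨hv, hvc⟩, rfl⟩
      exact ⟨hvc, v, rfl, hv⟩
    exact Finite.of_finite_image (h1.subset h2) (singleton_injective.injOn)
  -- vertices are isolated
  have hiso : ∀ v : X, ∃ ρ > 0, ∀ w, {w} ∈ K.cells → dist w v < ρ → w = v := by
    intro v
    obtain ⟨r, hr, hfin⟩ := K.locallyFinite v
    have hW : {w | {w} ∈ K.cells ∧ dist w v < r}.Finite := by
      have h2 : (fun v : X => ({v} : Set X)) '' {w | {w} ∈ K.cells ∧ dist w v < r} ⊆
          {t ∈ K.cells | (t ∩ Metric.ball v r).Nonempty} := by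
        rintro _ ⟨w, ⟨hw, hd⟩, rfl⟩
        exact ⟨hw, w, rfl, hd⟩
      exact Finite.of_finite_image (hfin.subset h2) (singleton_injective.injOn)
    have hcl : IsClosed ({w | {w} ∈ K.cells ∧ dist w v < r} \ {v}) := (hW.sdiff).isClosed
    have hnb : ({w | {w} ∈ K.cells ∧ dist w v < r} \ {v})ᶜ ∈ 𝓝 v :=
      hcl.isOpen_compl.mem_nhds (by simp)
    obtain ⟨ρ, hρ, hsub⟩ := Metric.mem_nhds_iff.1 hnb
    refine ⟨min ρ r, lt_min hρ hr, fun w hw hd => ?_⟩
    by_contra hne
    exact hsub (Metric.mem_ball.2 (lt_of_lt_of_le hd (min_le_left _ _)))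
      ⟨⟨hw, lt_of_lt_of_le hd (min_le_right _ _)⟩, hne⟩
  choose ρ hρ hρ' using hiso
  refine ⟨⋂ v ∈ {v ∈ s | {v} ∈ K.cells}, {f : X ≃ᵢ X | dist (f v) v < ρ v}, ?_, ?_⟩
  · rw [biInter_mem hV]
    intro v _
    have h1 : IsOpen {f : X ≃ᵢ X | dist (f v) v < ρ v} :=
      isOpen_lt ((hev v).dist continuous_const) continuous_const
    exact h1.mem_nhds (by simpa using hρ v)
  · intro f hf hfA
    have h1 : s ⊆ {x | f x = x} := by
      apply K.hull s hs
      · exact isClosed_eq f.continuous continuous_id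
      · exact hX.gconvex_fixed f
      · intro v hv hvc
        have h2 : dist (f v) v < ρ v := mem_iInter₂.1 hf v ⟨hv, hvc⟩
        have h3 : {f v} ∈ K.cells := by
          have := (hfA {v}).2 hvc
          rwa [image_singleton] at this
        exact hρ' v (f v) h3 h2
    exact h1 hxs

theorem PolyComplex.properSpace (K : PolyComplex X) (hX : IsCAT0 X)
    (hco : ActsCocompactly K.Aut) : ProperSpace X := by
  -- local compactness
  have hloc : ∀ x : X, ∃ r > 0, IsCompact (Metric.closedBall x r) := by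
    intro x
    obtain ⟨r, hr, hfin⟩ := K.locallyFinite x
    refine ⟨r / 2, by positivity, ?_⟩
    have hcomp : IsCompact (⋃ t ∈ {t ∈ K.cells | (t ∩ Metric.ball x r).Nonempty}, t) :=
      hfin.isCompact_biUnion fun t ht => K.cell_compact t ht.1
    refine hcomp.of_isClosed_subset Metric.isClosed_closedBall ?_
    intro y hy
    have hy' : y ∈ Metric.ball x r := by
      rw [Metric.mem_closedBall] at hy
      rw [Metric.mem_ball]; linarith
    obtain ⟨t, ht, hyt⟩ := K.cover y
    exact mem_biUnion (show t ∈ {t ∈ K.cells | (t ∩ Metric.ball x r).Nonempty} from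
      ⟨ht, y, hyt, hy'⟩) hyt
  obtain ⟨Q, hQ, hQco⟩ := hco
  -- uniform radius
  have hunifQ : ∃ r > 0, ∀ q ∈ Q, IsCompact (Metric.closedBall q r) := by
    refine hQ.induction_on (p := fun S => ∃ r > 0, ∀ q ∈ S, IsCompact (Metric.closedBall q r))
      ?_ ?_ ?_ ?_
    · exact ⟨1, one_pos, fun q hq => absurd hq (notMem_empty q)⟩
    · rintro s t hst ⟨r, hr, h⟩
      exact ⟨r, hr, fun q hq => h q (hst hq)⟩
    · rintro s t ⟨r, hr, h⟩ ⟨r', hr', h'⟩
      refine ⟨min r r', lt_min hr hr', fun q hq => ?_⟩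
      rcases hq with hq | hq
      · exact (h q hq).of_isClosed_subset Metric.isClosed_closedBall
          (Metric.closedBall_subset_closedBall (min_le_left _ _))
      · exact (h' q hq).of_isClosed_subset Metric.isClosed_closedBall
          (Metric.closedBall_subset_closedBall (min_le_right _ _))
    · intro x _
      obtain ⟨r, hr, h⟩ := hloc x
      refine ⟨Metric.ball x (r / 2),
        mem_nhdsWithin_of_mem_nhds (Metric.ball_mem_nhds x (by positivity)),
        r / 2, by positivity, fun q hq => ?_⟩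
      refine h.of_isClosed_subset Metric.isClosed_closedBall ?_
      apply Metric.closedBall_subset_closedBall'
      rw [Metric.mem_ball] at hq
      linarith
  obtain ⟨r0, hr0, hQr⟩ := hunifQ
  have hunif : ∀ x : X, IsCompact (Metric.closedBall x r0) := by
    intro x
    obtain ⟨a, _, ha⟩ := hQco x
    have h1 := (hQr (a x) ha).image a.symm.continuous
    have h2 : a.symm '' (Metric.closedBall (a x) r0) = Metric.closedBall x r0 := by
      rw [a.symm.image_closedBall]; simp
    rwa [h2] at h1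
  -- induction on the radius
  have hstep : ∀ (x : X) (R : ℝ), 0 ≤ R → IsCompact (Metric.closedBall x R) →
      IsCompact (Metric.closedBall x (R + r0 / 2)) := by
    intro x R hR hc
    obtain ⟨t, _, htfin, hcov⟩ := hc.finite_cover_balls (e := r0 / 4) (by positivity)
    have hcomp : IsCompact (⋃ y ∈ t, Metric.closedBall y r0) :=
      htfin.isCompact_biUnion fun y _ => hunif y
    refine hcomp.of_isClosed_subset Metric.isClosed_closedBall ?_
    intro z hz
    rw [Metric.mem_closedBall] at hz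
    -- a point `w` of the geodesic at distance `≤ R` from `x` and `≤ r0 / 2` from `z`
    have hw : ∃ w, dist w x ≤ R ∧ dist z w ≤ r0 / 2 := by
      rcases le_or_gt (dist z x) R with h | h
      · exact ⟨z, h, by rw [dist_self]; positivity⟩
      · have hpos : 0 < dist x z := by rw [dist_comm]; linarith
        have hRz : R < dist x z := by rw [dist_comm]; exact h
        have ht : R / dist x z ∈ Icc (0 : ℝ) 1 :=
          ⟨by positivity, by rw [div_le_one hpos]; exact hRz.le⟩
        refine ⟨hX.geo x z (R / dist x z), ?_, ?_⟩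
        · rw [dist_comm, hX.dist_left x z ht]
          rw [div_mul_cancel₀ _ hpos.ne']
        · rw [dist_comm, hX.dist_right x z ht, sub_mul, div_mul_cancel₀ _ hpos.ne', one_mul]
          rw [dist_comm x z]; linarith
    obtain ⟨w, hwx, hzw⟩ := hw
    obtain ⟨y, hy, hwy⟩ := mem_iUnion₂.1 (hcov (Metric.mem_closedBall.2 hwx))
    rw [Metric.mem_ball] at hwy
    refine mem_biUnion hy ?_
    rw [Metric.mem_closedBall]
    calc dist z y ≤ dist z w + dist w y := dist_triangle _ _ _
      _ ≤ r0 := by linarith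
  have hnat : ∀ (x : X) (k : ℕ), IsCompact (Metric.closedBall x (k * (r0 / 2))) := by
    intro x k
    induction k with
    | zero => simp
    | succ k ih =>
      have h := hstep x (k * (r0 / 2)) (by positivity) ih
      have e : ((k + 1 : ℕ) : ℝ) * (r0 / 2) = k * (r0 / 2) + r0 / 2 := by push_cast; ring
      rw [e]; exact h
  refine ⟨fun x R => ?_⟩
  obtain ⟨k, hk⟩ := exists_nat_gt (R / (r0 / 2))
  refine (hnat x k).of_isClosed_subset Metric.isClosed_closedBall
    (Metric.closedBall_subset_closedBall ?_)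
  rw [div_lt_iff₀ (by positivity)] at hk
  exact hk.le

end Cat0

end Pool.Agent.Lat
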