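import Pool.Agent.Lib_helper4.RatGF

/-!
# Piecewise linear functions and piecewise exponential functions
-/

namespace Pool.Agent.Lib_helper4.GraphicalZeta


section tools

variable {ι : Type}

open Classical in
/-- the indicator function of `S` is piecewise exponential -/
def Nice (S : Set (ι → ℕ)) : Prop := (fun x => if x ∈ S then (1 : ℂ) else 0) ∈ galg ι

lemma nice_le (f g : (ι → ℕ) →+ ℕ) : Nice {x | f x ≤ g x} := by
  classical
  apply Algebra.subset_adjoin
  left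
  refine ⟨f, g, ?_⟩
  funext x
  by_cases h : f x ≤ g x <;> simp [h]

lemma galg_const (c : ℂ) : (fun _ => c : (ι → ℕ) → ℂ) ∈ galg ι := by
  have := (galg ι).algebraMap_mem c
  exact this

lemma galg_add {F G : (ι → ℕ) → ℂ} (hF : F ∈ galg ι) (hG : G ∈ galg ι) :
    (fun x => F x + G x) ∈ galg ι := (galg ι).add_mem hF hG

lemma galg_mul {F G : (ι → ℕ) → ℂ} (hF : F ∈ galg ι) (hG : G ∈ galg ι) :
    (fun x => F x * G x) ∈ galg ι := (galg ι).mul_mem hF hG

lemma galg_prod {α : Type} (s : Finset α) {F : α → (ι → ℕ) → ℂ} (hF : ∀ i ∈ s, F i ∈ galg ι) :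
    (fun x => ∏ i ∈ s, F i x) ∈ galg ι := by
  have := (galg ι).prod_mem hF
  have h2 : (∏ i ∈ s, F i) = fun x => ∏ i ∈ s, F i x := by
    funext x
    rw [Finset.prod_apply]
  rwa [h2] at this

lemma galg_pow_coord (w : ℂ) (j : ι) : (fun x : ι → ℕ => w ^ x j) ∈ galg ι := by
  apply Algebra.subset_adjoin
  right
  exact ⟨j, w, rfl⟩

lemma galg_pow_lin [Fintype ι] (w : ℂ) (f : (ι → ℕ) →+ ℕ) :
    (fun x : ι → ℕ => w ^ f x) ∈ galg ι := by
  classical
  have h1 : (fun x : ι → ℕ => ∏ j, (w ^ f (Pi.single j 1)) ^ x j) ∈ galg ι :=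
    galg_prod _ fun j _ => galg_pow_coord _ j
  convert h1 using 1
  funext x
  have h2 : x = ∑ i, x i • (Pi.single i 1 : ι → ℕ) := by
    funext j
    simp [Finset.sum_apply, Pi.single_apply]
  have h3 : f x = ∑ i, x i * f (Pi.single i 1) := by
    conv_lhs => rw [h2]
    rw [map_sum]
    refine Finset.sum_congr rfl fun i _ => ?_
    rw [map_nsmul, smul_eq_mul]
  rw [h3, ← Finset.prod_pow_eq_pow_sum]
  refine Finset.prod_congr rfl fun i _ => ?_
  rw [← pow_mul, mul_comm]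

open Classical in
lemma galg_ite {S : Set (ι → ℕ)} (hS : Nice S) {F G : (ι → ℕ) → ℂ} (hF : F ∈ galg ι)
    (hG : G ∈ galg ι) : (fun x => if x ∈ S then F x else G x) ∈ galg ι := by
  have h1 := galg_add (galg_mul hS hF)
    (galg_mul (galg_add (galg_const 1) (galg_mul (galg_const (-1)) hS)) hG)
  convert h1 using 1
  funext x
  by_cases hx : x ∈ S <;> simp [hx]

lemma Nice.compl {S : Set (ι → ℕ)} (hS : Nice S) : Nice Sᶜ := by
  classical
  have := galg_ite hS (galg_const 0) (galg_const 1)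
  unfold Nice
  convert this using 1
  funext x
  by_cases hx : x ∈ S <;> simp [hx]

lemma Nice.inter {S T : Set (ι → ℕ)} (hS : Nice S) (hT : Nice T) : Nice (S ∩ T) := by
  classical
  have := galg_ite hS hT (galg_const 0)
  unfold Nice
  convert this using 1
  funext x
  by_cases hx : x ∈ S <;> by_cases hx' : x ∈ T <;> simp [hx, hx']

lemma Nice.union {S T : Set (ι → ℕ)} (hS : Nice S) (hT : Nice T) : Nice (S ∪ T) := by
  have := (hS.compl.inter hT.compl).compl
  rwa [← Set.compl_union, compl_compl] at this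

lemma nice_univ : Nice (Set.univ : Set (ι → ℕ)) := by
  classical
  unfold Nice
  convert galg_const (ι := ι) 1 using 1
  funext x
  simp

lemma nice_iInter {α : Type} [Finite α] {S : α → Set (ι → ℕ)} (hS : ∀ i, Nice (S i)) :
    Nice {x | ∀ i, x ∈ S i} := by
  classical
  have := Fintype.ofFinite α
  have h : ∀ s : Finset α, Nice {x | ∀ i ∈ s, x ∈ S i} := by
    intro s
    induction s using Finset.induction_on with
    | empty => convert nice_univ (ι := ι) using 1; ext x; simp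
    | insert a s _ ih =>
      convert (hS a).inter ih using 1
      ext x
      simp
  convert h Finset.univ using 1
  ext x
  simp

/-- piecewise linear functions -/
inductive PL : ((ι → ℕ) → ℕ) → Prop
  | lin (f g : (ι → ℕ) →+ ℕ) : PL (fun x => f x - g x)
  | ite (S : Set (ι → ℕ)) (hS : Nice S) (τ τ' σ : (ι → ℕ) → ℕ) (h : PL τ) (h' : PL τ')
      (h1 : ∀ x ∈ S, σ x = τ x) (h2 : ∀ x ∉ S, σ x = τ' x) : PL σ

lemma PL.zero : PL (fun _ : ι → ℕ => 0) := by
  have := PL.lin (0 : (ι → ℕ) →+ ℕ) 0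
  exact this

lemma PL.nice_le {τ τ' : (ι → ℕ) → ℕ} (h : PL τ) (h' : PL τ') : Nice {x | τ x ≤ τ' x} := by
  induction h with
  | lin f g =>
    induction h' with
    | lin f' g' =>
      have h1 : {x | f x - g x ≤ f' x - g' x} = {x | f x ≤ g x} ∪
          {x | (f + g') x ≤ (f' + g) x} := by
        ext x
        simp only [Set.mem_ofPred_eq, Set.mem_union, AddMonoidHom.add_apply]
        omega
      rw [h1]
      exact (Pool.Agent.Lib_helper4.GraphicalZeta.nice_le f g).union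
        (Pool.Agent.Lib_helper4.GraphicalZeta.nice_le _ _)
    | ite S hS τ τ' σ _ _ h1 h2 ih1 ih2 =>
      have h3 : {x | f x - g x ≤ σ x} = (S ∩ {x | f x - g x ≤ τ x}) ∪
          (Sᶜ ∩ {x | f x - g x ≤ τ' x}) := by
        ext x
        by_cases hx : x ∈ S
        · simp [hx, h1 x hx]
        · simp [hx, h2 x hx]
      rw [h3]
      exact (hS.inter ih1).union (hS.compl.inter ih2)
  | ite S hS τ₁ τ₂ σ _ _ h1 h2 ih1 ih2 =>
    have h3 : {x | σ x ≤ τ' x} = (S ∩ {x | τ₁ x ≤ τ' x}) ∪ (Sᶜ ∩ {x | τ₂ x ≤ τ' x}) := by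
      ext x
      by_cases hx : x ∈ S
      · simp [hx, h1 x hx]
      · simp [hx, h2 x hx]
    rw [h3]
    exact (hS.inter ih1).union (hS.compl.inter ih2)

lemma PL.max {τ τ' : (ι → ℕ) → ℕ} (h : PL τ) (h' : PL τ') : PL (fun x => max (τ x) (τ' x)) := by
  refine PL.ite {x | τ' x ≤ τ x} (h'.nice_le h) τ τ' _ h h' (fun x hx => ?_) (fun x hx => ?_)
  · exact max_eq_left hx
  · exact max_eq_right (le_of_not_ge hx)

lemma PL.pow_mem [Fintype ι] {τ : (ι → ℕ) → ℕ} (h : PL τ) {w : ℂ} (hw : w ≠ 0) :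
    (fun x => w ^ τ x) ∈ galg ι := by
  classical
  induction h with
  | lin f g =>
    have h1 := galg_ite (Pool.Agent.Lib_helper4.GraphicalZeta.nice_le f g) (galg_const 1)
      (galg_mul (galg_pow_lin w f) (galg_pow_lin w⁻¹ g))
    convert h1 using 1
    funext x
    show w ^ (f x - g x) = _
    by_cases hx : f x ≤ g x
    · rw [if_pos (show x ∈ {x | f x ≤ g x} from hx), Nat.sub_eq_zero_of_le hx, pow_zero]
    · rw [if_neg (show x ∉ {x | f x ≤ g x} from hx)]
      push Not at hx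
      obtain ⟨c, hc⟩ := Nat.exists_eq_add_of_lt hx
      rw [hc]
      have : g x + c + 1 - g x = c + 1 := by omega
      rw [this, inv_pow, pow_add, pow_add, pow_add, pow_one]
      field_simp
  | ite S hS τ τ' σ _ _ h1 h2 ih1 ih2 =>
    convert galg_ite hS ih1 ih2 using 1
    funext x
    by_cases hx : x ∈ S
    · rw [if_pos hx, h1 x hx]
    · rw [if_neg hx, h2 x hx]

/-- `f` agrees on `D` with a piecewise exponential function -/
def GoodOn (D : Set (ι → ℕ)) (f : (ι → ℕ) → ℂ) : Prop := ∃ G ∈ galg ι, ∀ x ∈ D, f x = G x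

lemma GoodOn.mono {D D' : Set (ι → ℕ)} {f : (ι → ℕ) → ℂ} (h : GoodOn D f) (hD : D' ⊆ D) :
    GoodOn D' f := by
  obtain ⟨G, hG, h⟩ := h
  exact ⟨G, hG, fun x hx => h x (hD hx)⟩

lemma GoodOn.congr {D : Set (ι → ℕ)} {f g : (ι → ℕ) → ℂ} (h : GoodOn D f)
    (hfg : ∀ x ∈ D, g x = f x) : GoodOn D g := by
  obtain ⟨G, hG, h⟩ := h
  exact ⟨G, hG, fun x hx => (hfg x hx).trans (h x hx)⟩

lemma GoodOn.mul {D : Set (ι → ℕ)} {f g : (ι → ℕ) → ℂ} (h : GoodOn D f) (h' : GoodOn D g) :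
    GoodOn D (fun x => f x * g x) := by
  obtain ⟨G, hG, h⟩ := h
  obtain ⟨G', hG', h'⟩ := h'
  refine ⟨_, galg_mul hG hG', fun x hx => ?_⟩
  show f x * g x = G x * G' x
  rw [h x hx, h' x hx]

lemma goodOn_split {D S : Set (ι → ℕ)} {f : (ι → ℕ) → ℂ} (hS : Nice S)
    (h : GoodOn (D ∩ S) f) (h' : GoodOn (D \ S) f) : GoodOn D f := by
  classical
  obtain ⟨G, hG, h⟩ := h
  obtain ⟨G', hG', h'⟩ := h'
  refine ⟨_, galg_ite hS hG hG', fun x hx => ?_⟩
  show f x = if x ∈ S then G x else G' x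
  by_cases hxS : x ∈ S
  · rw [if_pos hxS, h x ⟨hx, hxS⟩]
  · rw [if_neg hxS, h' x ⟨hx, hxS⟩]

lemma goodOn_cover {α : Type} (s : Finset α) {S : α → Set (ι → ℕ)} (hS : ∀ i ∈ s, Nice (S i))
    {f : (ι → ℕ) → ℂ} (D : Set (ι → ℕ)) (hcov : ∀ x ∈ D, ∃ i ∈ s, x ∈ S i)
    (hG : ∀ i ∈ s, GoodOn (D ∩ S i) f) : GoodOn D f := by
  classical
  induction s using Finset.induction_on generalizing D with
  | empty =>
    refine ⟨_, galg_const 0, fun x hx => ?_⟩
    obtain ⟨i, hi, _⟩ := hcov x hx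
    simp at hi
  | insert a s _ ih =>
    refine goodOn_split (hS a (Finset.mem_insert_self _ _)) (hG a (Finset.mem_insert_self _ _)) ?_
    refine ih (fun i hi => hS i (Finset.mem_insert_of_mem hi)) _ ?_ ?_
    · rintro x ⟨hx, hxa⟩
      obtain ⟨i, hi, hxi⟩ := hcov x hx
      rcases Finset.mem_insert.1 hi with rfl | hi
      · exact absurd hxi hxa
      · exact ⟨i, hi, hxi⟩
    · intro i hi
      refine (hG i (Finset.mem_insert_of_mem hi)).mono ?_
      rintro x ⟨⟨hx, _⟩, hxi⟩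
      exact ⟨hx, hxi⟩

end tools

end Pool.Agent.Lib_helper4.GraphicalZeta
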