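import Mathlib

/-!
# Rational generating functions of piecewise exponential functions on cones

`isRat_galg` : for `F` in the algebra generated by indicator functions of half spaces
`{f ≤ g}` and exponentials `x ↦ w ^ x j`, the generating function
`∑_{x ∈ box} F x * T ^ (x none)` is rational near `0`.
-/

namespace Pool.Agent.Lib_helper4.GraphicalZeta

open Filter Topology

section rat

/-- a family of functions of `T` whose sum is a rational function near `0` -/
def IsRat {α : Type} (f : α → ℂ → ℂ) : Prop :=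
  ∃ ρ : ℝ, 0 < ρ ∧ ∃ P Q : Polynomial ℂ, ∀ T : ℂ, ‖T‖ < ρ →
    Q.eval T ≠ 0 ∧ (Summable fun x => ‖f x T‖) ∧ ∑' x, f x T = P.eval T / Q.eval T

lemma IsRat.congr {α : Type} {f g : α → ℂ → ℂ} (hf : IsRat f) (h : ∀ x T, f x T = g x T) :
    IsRat g := by
  have : f = g := by funext x T; exact h x T
  rwa [← this]

lemma IsRat.equiv {α β : Type} {f : β → ℂ → ℂ} (hf : IsRat f) (e : α ≃ β) :
    IsRat (fun x T => f (e x) T) := by
  obtain ⟨ρ, hρ, P, Q, h⟩ := hf
  refine ⟨ρ, hρ, P, Q, fun T hT => ?_⟩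
  obtain ⟨h1, h2, h3⟩ := h T hT
  refine ⟨h1, ?_, ?_⟩
  · exact (Equiv.summable_iff e (f := fun x => ‖f x T‖)).2 h2
  · rw [← h3]
    exact Equiv.tsum_eq e (fun x => f x T)

lemma IsRat.add {α : Type} {f g : α → ℂ → ℂ} (hf : IsRat f) (hg : IsRat g) :
    IsRat (fun x T => f x T + g x T) := by
  obtain ⟨ρ, hρ, P, Q, h⟩ := hf
  obtain ⟨ρ', hρ', P', Q', h'⟩ := hg
  refine ⟨min ρ ρ', lt_min hρ hρ', P * Q' + P' * Q, Q * Q', fun T hT => ?_⟩
  obtain ⟨h1, h2, h3⟩ := h T (hT.trans_le (min_le_left _ _))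
  obtain ⟨h1', h2', h3'⟩ := h' T (hT.trans_le (min_le_right _ _))
  refine ⟨?_, ?_, ?_⟩
  · rw [Polynomial.eval_mul]; exact mul_ne_zero h1 h1'
  · exact Summable.of_nonneg_of_le (fun _ => norm_nonneg _) (fun x => norm_add_le _ _) (h2.add h2')
  · rw [Summable.tsum_add h2.of_norm h2'.of_norm, h3, h3']
    simp only [Polynomial.eval_mul, Polynomial.eval_add]
    field_simp

lemma IsRat.const_mul {α : Type} {f : α → ℂ → ℂ} (hf : IsRat f) (c : ℂ) :
    IsRat (fun x T => c * f x T) := by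
  obtain ⟨ρ, hρ, P, Q, h⟩ := hf
  refine ⟨ρ, hρ, Polynomial.C c * P, Q, fun T hT => ?_⟩
  obtain ⟨h1, h2, h3⟩ := h T hT
  refine ⟨h1, ?_, ?_⟩
  · have : Summable fun x => ‖c‖ * ‖f x T‖ := h2.mul_left _
    simpa [norm_mul] using this
  · rw [tsum_mul_left, h3]
    simp [mul_div_assoc]

lemma isRat_zero {α : Type} : IsRat (fun (_ : α) (_ : ℂ) => (0 : ℂ)) :=
  ⟨1, one_pos, 0, 1, fun T _ => ⟨by simp, by simp, by simp⟩⟩

lemma IsRat.sum {α ι : Type} (s : Finset ι) {f : ι → α → ℂ → ℂ} (hf : ∀ i ∈ s, IsRat (f i)) :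
    IsRat (fun x T => ∑ i ∈ s, f i x T) := by
  classical
  induction s using Finset.induction_on with
  | empty => simpa using isRat_zero
  | insert a s ha ih =>
    refine ((hf a (Finset.mem_insert_self _ _)).add (ih fun i hi =>
      hf i (Finset.mem_insert_of_mem hi))).congr fun x T => ?_
    rw [Finset.sum_insert ha]

lemma IsRat.prod {α β : Type} {f : α → ℂ → ℂ} {g : β → ℂ → ℂ} (hf : IsRat f) (hg : IsRat g) :
    IsRat (fun (x : α × β) T => f x.1 T * g x.2 T) := by
  obtain ⟨ρ, hρ, P, Q, h⟩ := hf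
  obtain ⟨ρ', hρ', P', Q', h'⟩ := hg
  refine ⟨min ρ ρ', lt_min hρ hρ', P * P', Q * Q', fun T hT => ?_⟩
  obtain ⟨h1, h2, h3⟩ := h T (hT.trans_le (min_le_left _ _))
  obtain ⟨h1', h2', h3'⟩ := h' T (hT.trans_le (min_le_right _ _))
  refine ⟨?_, ?_, ?_⟩
  · rw [Polynomial.eval_mul]; exact mul_ne_zero h1 h1'
  · exact summable_mul_of_summable_norm (f := fun x => f x T) (g := fun y => g y T) h2 h2' |>.norm
  · rw [← tsum_mul_tsum_of_summable_norm (f := fun x => f x T) (g := fun y => g y T) h2 h2', h3,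
      h3', Polynomial.eval_mul, Polynomial.eval_mul, div_mul_div_comm]

lemma isRat_of_finite {α : Type} [Finite α] (c : α → ℂ) (d : α → ℕ) :
    IsRat (fun x T => c x * T ^ d x) := by
  classical
  have := Fintype.ofFinite α
  refine ⟨1, one_pos, ∑ x, Polynomial.C (c x) * Polynomial.X ^ d x, 1, fun T _ => ?_⟩
  refine ⟨by simp, (hasSum_fintype _).summable, ?_⟩
  rw [tsum_fintype]
  simp [Polynomial.eval_finsetSum]

/-- the weight function of a monomial -/
noncomputable def mono {r : ℕ} (d : Fin r → ℕ) (ω : Fin r → ℂ) (n : Fin r → ℕ) (T : ℂ) : ℂ :=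
  ∏ i, (ω i * T ^ d i) ^ n i

/-- a single term of the geometric series -/
noncomputable def gS (d : ℕ) (ω : ℂ) (m₁ m : ℕ) (T : ℂ) : ℂ :=
  if m = m₁ then (ω * T ^ d) ^ m else 0

/-- the tail of the geometric series -/
noncomputable def gT (d : ℕ) (ω : ℂ) (m₀ m : ℕ) (T : ℂ) : ℂ :=
  if m₀ ≤ m then (ω * T ^ d) ^ m else 0

lemma isRat_single (d : ℕ) (ω : ℂ) (m₁ : ℕ) : IsRat (gS d ω m₁) := by
  unfold gS
  refine ⟨1, one_pos, (Polynomial.C ω * Polynomial.X ^ d) ^ m₁, 1, fun T _ => ⟨by simp, ?_, ?_⟩⟩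
  · refine summable_of_ne_finset_zero (s := {m₁}) fun m hm => ?_
    have : m ≠ m₁ := by simpa using hm
    simp [this]
  · rw [tsum_eq_single m₁ (fun m hm => by simp [hm])]
    simp

lemma isRat_tail {d : ℕ} (hd : 1 ≤ d) (ω : ℂ) (m₀ : ℕ) : IsRat (gT d ω m₀) := by
  unfold gT
  refine ⟨(‖ω‖ + 1)⁻¹, by positivity, (Polynomial.C ω * Polynomial.X ^ d) ^ m₀,
    1 - Polynomial.C ω * Polynomial.X ^ d, fun T hT => ?_⟩
  have hT1 : ‖T‖ ≤ 1 := by
    refine hT.le.trans ?_
    rw [inv_le_one₀ (by positivity)]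
    linarith [norm_nonneg ω]
  have hlt : ‖ω * T ^ d‖ < 1 := by
    rw [norm_mul, norm_pow]
    have h1 : ‖T‖ ^ d ≤ ‖T‖ := by
      calc ‖T‖ ^ d ≤ ‖T‖ ^ 1 := pow_le_pow_of_le_one (norm_nonneg _) hT1 hd
        _ = ‖T‖ := pow_one _
    calc ‖ω‖ * ‖T‖ ^ d ≤ ‖ω‖ * ‖T‖ := mul_le_mul_of_nonneg_left h1 (norm_nonneg _)
      _ ≤ ‖ω‖ * (‖ω‖ + 1)⁻¹ := mul_le_mul_of_nonneg_left hT.le (norm_nonneg _)
      _ < 1 := by
        rw [mul_inv_lt_iff₀ (by positivity)]
        linarith
  have hne : 1 - ω * T ^ d ≠ 0 := by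
    intro h
    have : ω * T ^ d = 1 := (sub_eq_zero.1 h).symm
    rw [this] at hlt
    simp at hlt
  set z := ω * T ^ d with hz
  -- shifted geometric series
  have hshift : ∀ m, (if m₀ ≤ m + m₀ then z ^ (m + m₀) else 0) = z ^ m₀ * z ^ m := by
    intro m
    rw [if_pos (Nat.le_add_left _ _), pow_add, mul_comm]
  have hgeo : HasSum (fun m : ℕ => z ^ m) (1 - z)⁻¹ := hasSum_geometric_of_norm_lt_one hlt
  have hgeo2 : HasSum (fun m : ℕ => z ^ m₀ * z ^ m) (z ^ m₀ * (1 - z)⁻¹) := hgeo.mul_left _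
  have hsum : HasSum (fun m : ℕ => if m₀ ≤ m then z ^ m else 0) (z ^ m₀ * (1 - z)⁻¹) := by
    have h1 := (hasSum_nat_add_iff (f := fun m : ℕ => if m₀ ≤ m then z ^ m else 0) m₀
      (g := z ^ m₀ * (1 - z)⁻¹)).1 (hgeo2.congr_fun (fun m => (hshift m)))
    have h2 : ∑ i ∈ Finset.range m₀, (if m₀ ≤ i then z ^ i else 0) = 0 := by
      refine Finset.sum_eq_zero fun i hi => ?_
      rw [if_neg]
      have := Finset.mem_range.1 hi
      omega
    rw [h2, add_zero] at h1
    exact h1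
  refine ⟨by simpa using hne, ?_, ?_⟩
  · have h3 : Summable fun m : ℕ => ‖z‖ ^ m := summable_geometric_of_norm_lt_one (by simpa using hlt)
    refine Summable.of_nonneg_of_le (fun _ => norm_nonneg _) (fun m => ?_) h3
    show ‖(if m₀ ≤ m then z ^ m else 0 : ℂ)‖ ≤ ‖z‖ ^ m
    split_ifs
    · rw [norm_pow]
    · rw [norm_zero]; positivity
  · rw [hsum.tsum_eq]
    simp [div_eq_mul_inv, hz]


/-- slices of a lower set stabilise -/
lemma slices_stabilise {r : ℕ} {S : Set (Fin (r + 1) → ℕ)} (hS : IsLowerSet S) :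
    ∃ m₀ : ℕ, ∀ m, m₀ ≤ m → ∀ n : Fin r → ℕ,
      ((Fin.cons m n : Fin (r + 1) → ℕ) ∈ S ↔ (Fin.cons m₀ n : Fin (r + 1) → ℕ) ∈ S) := by
  classical
  have hanti : ∀ m m' : ℕ, m ≤ m' → ∀ n n' : Fin r → ℕ, n ≤ n' →
      (Fin.cons m' n' : Fin (r + 1) → ℕ) ∈ S → (Fin.cons m n : Fin (r + 1) → ℕ) ∈ S := by
    intro m m' hm n n' hn h
    refine hS ?_ h
    intro i
    refine Fin.cases ?_ (fun i => ?_) i
    · simpa using hm
    · simpa using hn i
  by_contra hcon
  push Not at hcon
  -- build a bad sequence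
  have hstep : ∀ m₀ : ℕ, ∃ m, m₀ ≤ m ∧ ∃ n : Fin r → ℕ,
      (Fin.cons m₀ n : Fin (r + 1) → ℕ) ∈ S ∧ (Fin.cons m n : Fin (r + 1) → ℕ) ∉ S := by
    intro m₀
    obtain ⟨m, hm, n, hn⟩ := hcon m₀
    refine ⟨m, hm, n, ?_⟩
    rcases hn with ⟨h1, h2⟩ | ⟨h1, h2⟩
    · exact absurd (hanti _ _ hm _ _ le_rfl h1) h2
    · exact ⟨h2, h1⟩
  choose nx hnx n hn using hstep
  let seq : ℕ → ℕ := fun i => nx^[i] 0
  have hseq : ∀ i, seq (i + 1) = nx (seq i) := fun i => Function.iterate_succ_apply' nx i 0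
  have hmono : Monotone seq := monotone_nat_of_le_succ fun i => by
    rw [hseq]; exact hnx _
  obtain ⟨i, j, hij, hle⟩ := (wellQuasiOrdered_le (α := Fin r → ℕ)) (fun i => n (seq i))
  have h1 := (hn (seq j)).1
  have h2 := (hn (seq i)).2
  apply h2
  rw [← hseq]
  exact hanti _ _ (hmono (Nat.succ_le_of_lt hij)) _ _ hle h1

/-- splitting off the first coordinate -/
def consE (r : ℕ) : (Fin (r + 1) → ℕ) ≃ ℕ × (Fin r → ℕ) where
  toFun n := (n 0, Fin.tail n)
  invFun x := Fin.cons x.1 x.2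
  left_inv n := Fin.cons_self_tail n
  right_inv x := by simp

/-- lower sets have rational generating functions -/
lemma isRat_lower {r : ℕ} (S : Set (Fin r → ℕ)) (hS : IsLowerSet S) (d : Fin r → ℕ)
    (hd : ∀ i, 1 ≤ d i) (ω : Fin r → ℂ) :
    IsRat (fun (n : Fin r → ℕ) T => S.indicator (fun n => mono d ω n T) n) := by
  classical
  induction r with
  | zero =>
    refine (isRat_of_finite (fun n : Fin 0 → ℕ => S.indicator (fun _ => 1) n) (fun _ => 0)).congr ?_
    intro n T
    by_cases hn : n ∈ S <;> simp [mono, hn]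
  | succ r ih =>
    obtain ⟨m₀, hm₀⟩ := slices_stabilise hS
    let sl : ℕ → Set (Fin r → ℕ) := fun m => {n | (Fin.cons m n : Fin (r + 1) → ℕ) ∈ S}
    have hsl : ∀ m, IsLowerSet (sl m) := by
      intro m n n' hn h
      refine hS ?_ h
      intro i
      refine Fin.cases ?_ (fun i => ?_) i
      · simp
      · simpa using hn i
    let g : ℕ → (Fin r → ℕ) → ℂ → ℂ := fun m n T =>
      (sl m).indicator (fun n => mono (fun i => d i.succ) (fun i => ω i.succ) n T) n
    have hrec : ∀ m, IsRat (g m) := fun m => ih (sl m) (hsl m) _ (fun i => hd _) _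
    have hA : ∀ m₁ ∈ Finset.range m₀, IsRat (fun (x : ℕ × (Fin r → ℕ)) T =>
        gS (d 0) (ω 0) m₁ x.1 T * g m₁ x.2 T) :=
      fun m₁ _ => (isRat_single (d 0) (ω 0) m₁).prod (hrec m₁)
    have hB : IsRat (fun (x : ℕ × (Fin r → ℕ)) T => gT (d 0) (ω 0) m₀ x.1 T * g m₀ x.2 T) :=
      (isRat_tail (hd 0) (ω 0) m₀).prod (hrec m₀)
    have h1 := (IsRat.sum (Finset.range m₀) hA).add hB
    have h2 := h1.equiv (consE r)
    refine h2.congr fun n T => ?_
    show (∑ m₁ ∈ Finset.range m₀, gS (d 0) (ω 0) m₁ (n 0) T * g m₁ (Fin.tail n) T) +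
        gT (d 0) (ω 0) m₀ (n 0) T * g m₀ (Fin.tail n) T = S.indicator (fun n => mono d ω n T) n
    have hmono : mono d ω n T =
        (ω 0 * T ^ d 0) ^ (n 0) *
          mono (fun i => d i.succ) (fun i => ω i.succ) (Fin.tail n) T := by
      unfold mono
      rw [Fin.prod_univ_succ]
      rfl
    have hmem : n ∈ S ↔ Fin.tail n ∈ sl (n 0) := by
      show n ∈ S ↔ (Fin.cons (n 0) (Fin.tail n) : Fin (r + 1) → ℕ) ∈ S
      rw [Fin.cons_self_tail]
    have hval : S.indicator (fun n => mono d ω n T) n =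
        (ω 0 * T ^ d 0) ^ (n 0) * g (n 0) (Fin.tail n) T := by
      by_cases h : n ∈ S
      · rw [Set.indicator_of_mem h, hmono]
        show _ = _ * (sl (n 0)).indicator _ _
        rw [Set.indicator_of_mem (hmem.1 h)]
      · rw [Set.indicator_of_notMem h]
        show _ = _ * (sl (n 0)).indicator _ _
        rw [Set.indicator_of_notMem (fun h' => h (hmem.2 h')), mul_zero]
    rw [hval]
    rcases lt_or_ge (n 0) m₀ with hlt | hge
    · have e1 : gT (d 0) (ω 0) m₀ (n 0) T = 0 := if_neg (by omega)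
      rw [e1, zero_mul, add_zero, Finset.sum_eq_single (n 0)]
      · have e2 : gS (d 0) (ω 0) (n 0) (n 0) T = (ω 0 * T ^ d 0) ^ (n 0) := if_pos rfl
        rw [e2]
      · intro b _ hb
        have e3 : gS (d 0) (ω 0) b (n 0) T = 0 := if_neg (Ne.symm hb)
        rw [e3, zero_mul]
      · intro h
        exact absurd (Finset.mem_range.2 hlt) h
    · have e1 : gT (d 0) (ω 0) m₀ (n 0) T = (ω 0 * T ^ d 0) ^ (n 0) := if_pos hge
      rw [e1, Finset.sum_eq_zero, zero_add]
      · have h3 : g m₀ (Fin.tail n) T = g (n 0) (Fin.tail n) T := by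
          have h4 : Fin.tail n ∈ sl (n 0) ↔ Fin.tail n ∈ sl m₀ := hm₀ (n 0) hge (Fin.tail n)
          show (sl m₀).indicator _ _ = (sl (n 0)).indicator _ _
          by_cases h : Fin.tail n ∈ sl m₀
          · rw [Set.indicator_of_mem h, Set.indicator_of_mem (h4.2 h)]
          · rw [Set.indicator_of_notMem h, Set.indicator_of_notMem (fun h' => h (h4.1 h'))]
        rw [h3]
      · intro b hb
        have e3 : gS (d 0) (ω 0) b (n 0) T = 0 := if_neg (by
          have := Finset.mem_range.1 hb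
          omega)
        rw [e3, zero_mul]


lemma isRat_subtype_iff {α : Type} (S : Set α) (f : α → ℂ → ℂ) :
    IsRat (fun x T => S.indicator (fun x => f x T) x) ↔ IsRat (fun (x : S) T => f x T) := by
  have h1 : ∀ T, ∑' x : S, f x T = ∑' x, S.indicator (fun x => f x T) x := fun T =>
    tsum_subtype S (fun x => f x T)
  have h2 : ∀ T, (Summable fun x : S => ‖f x T‖) ↔
      Summable fun x => ‖S.indicator (fun x => f x T) x‖ := by
    intro T
    have h3 := summable_subtype_iff_indicator (f := fun x => ‖f x T‖) (s := S)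
    have h4 : (fun x => ‖S.indicator (fun x => f x T) x‖) = S.indicator (fun x => ‖f x T‖) := by
      funext x
      by_cases hx : x ∈ S <;> simp [hx]
    rw [h4]
    exact h3
  constructor
  · rintro ⟨ρ, hρ, P, Q, h⟩
    refine ⟨ρ, hρ, P, Q, fun T hT => ?_⟩
    obtain ⟨a1, a2, a3⟩ := h T hT
    exact ⟨a1, (h2 T).2 a2, by rw [h1]; exact a3⟩
  · rintro ⟨ρ, hρ, P, Q, h⟩
    refine ⟨ρ, hρ, P, Q, fun T hT => ?_⟩
    obtain ⟨a1, a2, a3⟩ := h T hT
    exact ⟨a1, (h2 T).1 a2, by rw [← h1]; exact a3⟩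

/-- finitely generated submonoids of `ℕ^ι` have rational generating functions -/
lemma isRat_fg {ι : Type} [Fintype ι] (E : AddSubmonoid (ι → ℕ)) (hE : E.FG) (w : ι → ℂ)
    (deg : (ι → ℕ) →+ ℕ) (hdeg : ∀ x ∈ E, x ≠ 0 → 1 ≤ deg x) :
    IsRat (fun (x : ι → ℕ) T => (E : Set (ι → ℕ)).indicator
      (fun x => (∏ j, w j ^ x j) * T ^ deg x) x) := by
  classical
  obtain ⟨r, φ, hφ⟩ := AddSubmonoid.fg_iff_exists_fin_addMonoidHom.1 hE
  have hφmem : ∀ n, φ n ∈ E := fun n => by rw [← hφ]; exact ⟨n, rfl⟩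
  let b : Fin r → (ι → ℕ) := fun i => φ (Pi.single i 1)
  have hφn : ∀ n : Fin r → ℕ, φ n = ∑ i, n i • b i := by
    intro n
    have h1 : n = ∑ i, n i • (Pi.single i 1 : Fin r → ℕ) := by
      funext j
      simp [Finset.sum_apply, Pi.single_apply]
    conv_lhs => rw [h1]
    rw [map_sum]
    exact Finset.sum_congr rfl fun i _ => map_nsmul φ _ _
  let d : Fin r → ℕ := fun i => if b i = 0 then 1 else deg (b i)
  have hd : ∀ i, 1 ≤ d i := by
    intro i
    simp only [d]
    split_ifs with h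
    · exact le_rfl
    · exact hdeg _ (hφmem _) h
  let ω : Fin r → ℂ := fun i => ∏ j, w j ^ (b i j)
  let L : Set (Fin r → ℕ) := {n | ∀ n', φ n' = φ n → toLex n ≤ toLex n'}
  have hL : IsLowerSet L := by
    intro n m hmn hn m' hm'
    obtain ⟨c, rfl⟩ := exists_add_of_le hmn
    have h1 : φ (m' + c) = φ (m + c) := by rw [map_add, map_add, hm']
    have h2 := hn _ h1
    have h3 : toLex m + toLex c ≤ toLex m' + toLex c := h2
    exact (add_le_add_iff_right (toLex c)).1 h3
  have hLzero : ∀ n ∈ L, ∀ i, b i = 0 → n i = 0 := by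
    intro n hn i hi
    by_contra hne
    have h1 : φ (Function.update n i 0) = φ n := by
      rw [hφn, hφn]
      refine Finset.sum_congr rfl fun j _ => ?_
      by_cases hj : j = i
      · subst hj; rw [hi]; simp
      · rw [Function.update_of_ne hj]
    have h2 := hn _ h1
    have h3 : Function.update n i 0 ≤ n := by
      intro j
      by_cases hj : j = i
      · subst hj; simp
      · rw [Function.update_of_ne hj]
    have h4 : toLex (Function.update n i 0) ≤ toLex n := Pi.toLex_monotone h3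
    have h5 : toLex n = toLex (Function.update n i 0) := le_antisymm h2 h4
    have h6 : n = Function.update n i 0 := toLex.injective h5
    have h7 := congrFun h6 i
    rw [Function.update_self] at h7
    exact hne h7
  have hmin : ∀ x ∈ E, ∃ n ∈ L, φ n = x := by
    intro x hx
    rw [← hφ] at hx
    obtain ⟨n, hn⟩ := hx
    have hne : {y : Lex (Fin r → ℕ) | φ (ofLex y) = x}.Nonempty := ⟨toLex n, hn⟩
    obtain ⟨y, hy, hy2⟩ := WellFounded.has_min (wellFounded_lt (α := Lex (Fin r → ℕ))) _ hne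
    refine ⟨ofLex y, fun n' hn' => ?_, hy⟩
    have h1 := hy2 (toLex n') (by
      show φ n' = x
      rw [hn']; exact hy)
    exact not_lt.1 h1
  -- the bijection
  let e : L → (E : Set (ι → ℕ)) := fun n => ⟨φ n, hφmem _⟩
  have he : Function.Bijective e := by
    constructor
    · rintro ⟨n, hn⟩ ⟨n', hn'⟩ h
      have h1 : φ n = φ n' := congrArg Subtype.val h
      have h2 : toLex n = toLex n' := le_antisymm (hn n' h1.symm) (hn' n h1)
      exact Subtype.ext (toLex.injective h2)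
    · rintro ⟨x, hx⟩
      obtain ⟨n, hn, hnx⟩ := hmin x hx
      exact ⟨⟨n, hn⟩, Subtype.ext hnx⟩
  have hrat := (isRat_subtype_iff L (mono d ω)).1 (isRat_lower L hL d hd ω)
  have hrat2 := hrat.equiv (Equiv.ofBijective e he).symm
  refine (isRat_subtype_iff (E : Set (ι → ℕ)) (fun x T => (∏ j, w j ^ x j) * T ^ deg x)).2
    (hrat2.congr fun x T => ?_)
  obtain ⟨n, rfl⟩ := (Equiv.ofBijective e he).surjective x
  rw [Equiv.symm_apply_apply]
  show mono d ω n T = (∏ j, w j ^ (φ n) j) * T ^ deg (φ n)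
  have hdeg2 : deg (φ n) = ∑ i, (n : Fin r → ℕ) i * d i := by
    rw [hφn, map_sum]
    refine Finset.sum_congr rfl fun i _ => ?_
    rw [map_nsmul, smul_eq_mul]
    simp only [d]
    split_ifs with h
    · rw [hLzero n n.2 i h]; simp
    · rfl
  have hw2 : (∏ j, w j ^ (φ n) j) = ∏ i, ω i ^ (n : Fin r → ℕ) i := by
    simp only [ω]
    simp_rw [← Finset.prod_pow]
    rw [Finset.prod_comm]
    refine Finset.prod_congr rfl fun j _ => ?_
    rw [hφn, Finset.sum_apply, ← Finset.prod_pow_eq_pow_sum]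
    refine Finset.prod_congr rfl fun i _ => ?_
    rw [← pow_mul]
    congr 1
    simp [mul_comm]
  rw [hdeg2, hw2, ← Finset.prod_pow_eq_pow_sum, ← Finset.prod_mul_distrib]
  unfold mono
  refine Finset.prod_congr rfl fun i _ => ?_
  rw [mul_pow, ← pow_mul, mul_comm (d i)]


/-- the submonoid of `ℕ^ι` defined by a family of linear inequalities -/
def cone {ι I : Type} (f g : I → (ι → ℕ) →+ ℕ) : AddSubmonoid (ι → ℕ) where
  carrier := {x | ∀ i, f i x ≤ g i x}
  zero_mem' := fun i => by simp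
  add_mem' := fun {x y} hx hy i => by
    rw [map_add, map_add]
    exact add_le_add (hx i) (hy i)

lemma cone_fg {ι I : Type} [Finite ι] [Finite I] (f g : I → (ι → ℕ) →+ ℕ) : (cone f g).FG := by
  classical
  let F : (ι → ℕ) × (I → ℕ) →+ (I → ℕ) :=
    { toFun := fun x i => f i x.1 + x.2 i
      map_zero' := by funext i; simp
      map_add' := fun x y => by
        funext i
        simp only [Prod.fst_add, Prod.snd_add, map_add, Pi.add_apply]
        ring }
  let G : (ι → ℕ) × (I → ℕ) →+ (I → ℕ) :=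
    { toFun := fun x i => g i x.1
      map_zero' := by funext i; simp
      map_add' := fun x y => by
        funext i
        simp only [Prod.fst_add, map_add, Pi.add_apply] }
  have h1 : (F.eqLocusM G).FG := AddSubmonoid.fg_eqLocusM F G
  have h2 := h1.map (AddMonoidHom.fst (ι → ℕ) (I → ℕ))
  convert h2 using 1
  ext x
  constructor
  · intro hx
    refine ⟨(x, fun i => g i x - f i x), ?_, rfl⟩
    show F (x, fun i => g i x - f i x) = G (x, fun i => g i x - f i x)
    funext i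
    exact Nat.add_sub_cancel' (hx i)
  · rintro ⟨⟨y, s⟩, hy, rfl⟩ i
    have h3 : F (y, s) = G (y, s) := hy
    have h4 := congrFun h3 i
    have h5 : f i y + s i = g i y := h4
    show f i y ≤ g i y
    omega

/-- generators of the algebra of piecewise exponential functions -/
def sgen (ι : Type) : Set ((ι → ℕ) → ℂ) :=
  {F | ∃ f g : (ι → ℕ) →+ ℕ, F = fun x => if f x ≤ g x then 1 else 0} ∪
    {F | ∃ (j : ι) (w : ℂ), F = fun x => w ^ x j}

/-- the algebra of piecewise exponential functions -/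
def galg (ι : Type) : Subalgebra ℂ ((ι → ℕ) → ℂ) := Algebra.adjoin ℂ (sgen ι)

/-- the empty family -/
def emptyFam (ι : Type) : Empty → (ι → ℕ) →+ ℕ := fun e => e.elim

lemma mem_cone_empty {ι : Type} (x : ι → ℕ) :
    x ∈ (cone (emptyFam ι) (emptyFam ι) : Set (ι → ℕ)) := fun e => e.elim

lemma mem_closure_sgen {ι : Type} [Fintype ι] {F : (ι → ℕ) → ℂ}
    (hF : F ∈ Submonoid.closure (sgen ι)) :
    ∃ (I : Type) (_ : Fintype I) (f g : I → (ι → ℕ) →+ ℕ) (w : ι → ℂ),
      F = fun x => (cone f g : Set (ι → ℕ)).indicator (fun x => ∏ j, w j ^ x j) x := by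
  classical
  induction hF using Submonoid.closure_induction with
  | mem F hF =>
    rcases hF with ⟨f, g, rfl⟩ | ⟨j, w, rfl⟩
    · refine ⟨Unit, inferInstance, fun _ => f, fun _ => g, fun _ => 1, ?_⟩
      funext x
      by_cases hx : f x ≤ g x
      · rw [if_pos hx, Set.indicator_of_mem (show x ∈ (cone (fun _ : Unit => f) fun _ => g :
          Set (ι → ℕ)) from fun _ => hx)]
        simp
      · rw [if_neg hx, Set.indicator_of_notMem (s := (cone (fun _ : Unit => f) fun _ => g :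
          Set (ι → ℕ))) (fun h => hx (h ()))]
    · refine ⟨Empty, inferInstance, emptyFam ι, emptyFam ι, Function.update 1 j w, ?_⟩
      funext x
      rw [Set.indicator_of_mem (mem_cone_empty x)]
      rw [Finset.prod_eq_single j]
      · simp
      · intro i _ hi
        rw [Function.update_of_ne hi]
        simp
      · simp
  | one =>
    refine ⟨Empty, inferInstance, emptyFam ι, emptyFam ι, fun _ => 1, ?_⟩
    funext x
    rw [Set.indicator_of_mem (mem_cone_empty x)]
    simp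
  | mul F G _ _ ihF ihG =>
    obtain ⟨I, _, f, g, w, rfl⟩ := ihF
    obtain ⟨I', _, f', g', w', rfl⟩ := ihG
    refine ⟨I ⊕ I', inferInstance, Sum.elim f f', Sum.elim g g', fun j => w j * w' j, ?_⟩
    funext x
    have hmem : x ∈ (cone (Sum.elim f f') (Sum.elim g g') : Set (ι → ℕ)) ↔
        x ∈ (cone f g : Set (ι → ℕ)) ∧ x ∈ (cone f' g' : Set (ι → ℕ)) := by
      constructor
      · intro h
        exact ⟨fun i => h (Sum.inl i), fun i => h (Sum.inr i)⟩
      · rintro ⟨h1, h2⟩ (i | i)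
        · exact h1 i
        · exact h2 i
    show (cone f g : Set (ι → ℕ)).indicator (fun x => ∏ j, w j ^ x j) x *
      (cone f' g' : Set (ι → ℕ)).indicator (fun x => ∏ j, w' j ^ x j) x = _
    by_cases h1 : x ∈ (cone f g : Set (ι → ℕ)) <;> by_cases h2 : x ∈ (cone f' g' : Set (ι → ℕ))
    · rw [Set.indicator_of_mem h1, Set.indicator_of_mem h2, Set.indicator_of_mem (hmem.2 ⟨h1, h2⟩),
        ← Finset.prod_mul_distrib]
      refine Finset.prod_congr rfl fun j _ => ?_
      rw [mul_pow]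
    · rw [Set.indicator_of_notMem h2, mul_zero, Set.indicator_of_notMem fun h => h2 (hmem.1 h).2]
    · rw [Set.indicator_of_notMem h1, zero_mul, Set.indicator_of_notMem fun h => h1 (hmem.1 h).1]
    · rw [Set.indicator_of_notMem h1, zero_mul, Set.indicator_of_notMem fun h => h1 (hmem.1 h).1]

/-- the set of `x` with all coordinates bounded by the coordinate `none` -/
def box (n : ℕ) : Set (Option (Fin n) → ℕ) := {x | ∀ j, x j ≤ x none}

lemma isRat_span {n : ℕ} {F : (Option (Fin n) → ℕ) → ℂ} (hspan : F ∈ Submodule.span ℂ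
      ((Submonoid.closure (sgen (Option (Fin n))) : Set ((Option (Fin n) → ℕ) → ℂ)))) :
    IsRat (fun x T => (box n).indicator (fun x => F x * T ^ x none) x) := by
  classical
  induction hspan using Submodule.span_induction with
  | mem F hF =>
    obtain ⟨I, _, f, g, w, rfl⟩ := mem_closure_sgen hF
    let f' : I ⊕ Option (Fin n) → (Option (Fin n) → ℕ) →+ ℕ :=
      Sum.elim f fun j => Pi.evalAddMonoidHom (fun _ => ℕ) j
    let g' : I ⊕ Option (Fin n) → (Option (Fin n) → ℕ) →+ ℕ :=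
      Sum.elim g fun _ => Pi.evalAddMonoidHom (fun _ => ℕ) none
    have hmem : ∀ x, x ∈ (cone f' g' : Set (Option (Fin n) → ℕ)) ↔
        x ∈ (cone f g : Set (Option (Fin n) → ℕ)) ∧ x ∈ box n := by
      intro x
      constructor
      · intro h
        exact ⟨fun i => h (Sum.inl i), fun i => h (Sum.inr i)⟩
      · rintro ⟨h1, h2⟩ (i | i)
        · exact h1 i
        · exact h2 i
    refine (isRat_fg (cone f' g') (cone_fg f' g') w (Pi.evalAddMonoidHom (fun _ => ℕ) none)
      ?_).congr ?_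
    · intro x hx hx0
      have hb := ((hmem x).1 hx).2
      by_contra hlt
      apply hx0
      funext j
      have h1 := hb j
      have h2 : x none = 0 := by
        have : ¬ 1 ≤ x none := hlt
        omega
      rw [h2] at h1
      exact Nat.le_zero.1 h1
    · intro x T
      by_cases h1 : x ∈ (cone f g : Set (Option (Fin n) → ℕ)) <;> by_cases h2 : x ∈ box n
      · rw [Set.indicator_of_mem h2, Set.indicator_of_mem ((hmem x).2 ⟨h1, h2⟩)]
        show _ = (cone f g : Set (Option (Fin n) → ℕ)).indicator (fun x => ∏ j, w j ^ x j) x *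
          T ^ x none
        rw [Set.indicator_of_mem h1]
        rfl
      · rw [Set.indicator_of_notMem h2, Set.indicator_of_notMem fun h => h2 ((hmem x).1 h).2]
      · rw [Set.indicator_of_mem h2, Set.indicator_of_notMem fun h => h1 ((hmem x).1 h).1]
        show _ = (cone f g : Set (Option (Fin n) → ℕ)).indicator (fun x => ∏ j, w j ^ x j) x *
          T ^ x none
        rw [Set.indicator_of_notMem h1, zero_mul]
      · rw [Set.indicator_of_notMem h2, Set.indicator_of_notMem fun h => h2 ((hmem x).1 h).2]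
  | zero =>
    refine isRat_zero.congr fun x T => ?_
    by_cases h2 : x ∈ box n <;> simp [h2]
  | add F G _ _ ihF ihG =>
    refine (IsRat.add ihF ihG).congr fun x T => ?_
    by_cases h2 : x ∈ box n <;> simp [h2, add_mul]
  | smul c F _ ihF =>
    refine (IsRat.const_mul ihF c).congr fun x T => ?_
    by_cases h2 : x ∈ box n <;> simp [h2, mul_assoc]

lemma isRat_galg {n : ℕ} {F : (Option (Fin n) → ℕ) → ℂ} (hF : F ∈ galg (Option (Fin n))) :
    IsRat (fun x T => (box n).indicator (fun x => F x * T ^ x none) x) := by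
  apply isRat_span
  rw [← Algebra.adjoin_eq_span]
  exact hF

end rat

section fibre

/-- a point of the box from its `none` coordinate `k` and its other coordinates -/
def ext {n : ℕ} (k : ℕ) (a : Fin n → Fin (k + 1)) : Option (Fin n) → ℕ :=
  fun o => o.elim k (fun i => (a i : ℕ))

@[simp] lemma ext_none {n : ℕ} (k : ℕ) (a : Fin n → Fin (k + 1)) : ext k a none = k := rfl

@[simp] lemma ext_some {n : ℕ} (k : ℕ) (a : Fin n → Fin (k + 1)) (i : Fin n) :
    ext k a (some i) = a i := rfl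

lemma ext_mem_box {n : ℕ} (k : ℕ) (a : Fin n → Fin (k + 1)) : ext k a ∈ box n := by
  rintro (_ | i)
  · exact le_rfl
  · exact Nat.lt_succ_iff.1 (a i).2

/-- the box is fibred over the coordinate `none` -/
def boxEquiv (n : ℕ) : (Σ k : ℕ, (Fin n → Fin (k + 1))) ≃ box n where
  toFun p := ⟨ext p.1 p.2, ext_mem_box p.1 p.2⟩
  invFun x := ⟨x.1 none, fun i => ⟨x.1 (some i), Nat.lt_succ_iff.2 (x.2 (some i))⟩⟩
  left_inv p := rfl
  right_inv x := by
    apply Subtype.ext
    funext o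
    cases o <;> rfl

lemma isRat_fibre {n : ℕ} {F : (Option (Fin n) → ℕ) → ℂ} (hF : F ∈ galg (Option (Fin n))) :
    IsRat (fun (k : ℕ) T => (∑ a : Fin n → Fin (k + 1), F (ext k a)) * T ^ k) := by
  classical
  have h1 := (isRat_subtype_iff (box n) (fun x T => F x * T ^ x none)).1 (isRat_galg hF)
  have h2 := h1.equiv (boxEquiv n)
  obtain ⟨ρ, hρ, P, Q, h⟩ := h2
  refine ⟨ρ, hρ, P, Q, fun T hT => ?_⟩
  obtain ⟨a1, a2, a3⟩ := h T hT
  refine ⟨a1, ?_, ?_⟩
  · have h3 := a2.sigma
    refine Summable.of_nonneg_of_le (fun _ => norm_nonneg _) (fun k => ?_) h3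
    rw [tsum_fintype]
    show ‖(∑ a, F (ext k a)) * T ^ k‖ ≤ ∑ a, ‖F (ext k a) * T ^ k‖
    rw [Finset.sum_mul]
    exact norm_sum_le _ _
  · rw [← a3, Summable.tsum_sigma a2.of_norm]
    refine tsum_congr fun k => ?_
    rw [tsum_fintype]
    show (∑ a, F (ext k a)) * T ^ k = ∑ a, F (ext k a) * T ^ k
    rw [Finset.sum_mul]

lemma isRat_of_eq {n : ℕ} {F : (Option (Fin n) → ℕ) → ℂ} (hF : F ∈ galg (Option (Fin n)))
    {c : ℕ → ℂ} (hc : ∀ k, 1 ≤ k → c k = ∑ a : Fin n → Fin (k + 1), F (ext k a)) :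
    IsRat (fun (k : ℕ) T => c k * T ^ k) := by
  have h1 := (isRat_fibre hF).add
    ((isRat_single 1 1 0).const_mul (c 0 - ∑ a : Fin n → Fin (0 + 1), F (ext 0 a)))
  refine h1.congr fun k T => ?_
  unfold gS
  rcases Nat.eq_zero_or_pos k with rfl | hk
  · simp
  · rw [if_neg (by omega), hc k hk]
    simp

end fibre

section continuation

/-- rational generating functions have meromorphic continuations -/
lemma IsRat.continuation {c : ℕ → ℂ} (h : IsRat (fun (k : ℕ) T => c k * T ^ k)) {q : ℕ}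
    (hq : 2 ≤ q) : ∃ Z : ℂ → ℂ, (∀ s, MeromorphicAt Z s) ∧ ∃ σ : ℝ, ∀ s : ℂ, σ < s.re →
      HasSum (fun k : ℕ => c k * (q : ℂ) ^ (-(k : ℂ) * s)) (Z s) := by
  obtain ⟨ρ, hρ, P, Q, h⟩ := h
  have hq0 : (q : ℂ) ≠ 0 := by exact_mod_cast (by omega : q ≠ 0)
  have hq1 : (1 : ℝ) < q := by exact_mod_cast (by omega : 1 < q)
  have hT : ∀ s, AnalyticAt ℂ (fun s : ℂ => (q : ℂ) ^ (-s)) s := by
    have : Differentiable ℂ (fun s : ℂ => (q : ℂ) ^ (-s)) := by
      intro s
      exact (differentiableAt_id.neg).const_cpow (Or.inl hq0)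
    exact fun s => this.analyticAt s
  have hpol : ∀ (P : Polynomial ℂ) (s : ℂ), AnalyticAt ℂ (fun s : ℂ => P.eval ((q : ℂ) ^ (-s))) s := by
    intro P s
    have : Differentiable ℂ (fun s : ℂ => P.eval ((q : ℂ) ^ (-s))) := by
      intro s
      exact DifferentiableAt.comp s P.differentiable.differentiableAt (hT s).differentiableAt
    exact this.analyticAt s
  refine ⟨fun s => P.eval ((q : ℂ) ^ (-s)) / Q.eval ((q : ℂ) ^ (-s)), fun s =>
    (hpol P s).meromorphicAt.div (hpol Q s).meromorphicAt, -Real.log ρ / Real.log q, fun s hs => ?_⟩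
  have hnorm : ‖(q : ℂ) ^ (-s)‖ < ρ := by
    rw [Complex.norm_natCast_cpow_of_pos (by omega), Complex.neg_re,
      Real.rpow_def_of_pos (by linarith)]
    rw [div_lt_iff₀ (Real.log_pos hq1)] at hs
    rw [← Real.lt_log_iff_exp_lt hρ]
    linarith
  obtain ⟨_, h2, h3⟩ := h _ hnorm
  have h4 := h2.of_norm.hasSum
  rw [h3] at h4
  refine h4.congr_fun fun k => ?_
  show c k * (q : ℂ) ^ (-(k : ℂ) * s) = c k * ((q : ℂ) ^ (-s)) ^ k
  rw [← Complex.cpow_nat_mul]
  congr 2
  ring

end continuation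

end Pool.Agent.Lib_helper4.GraphicalZeta
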