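import Pool.Agent.Lib_helper1.TFS.Basic

/-!
# C*-framework, part 1: closed algebras generated by unitary representations, criterion for
the isomorphism of two reduced group C*-algebras.
-/

set_option autoImplicit false

open scoped ENNReal

namespace TFS

section Gen

variable {A : Type*} [NormedRing A] [NormedAlgebra ℂ A] [StarRing A] [StarModule ℂ A]
  [CStarRing A]

/-- the closed star subalgebra generated by the image of a unitary representation -/
noncomputable def CrRep {Γ : Type*} [Group Γ] (π : Γ →* unitary A) : StarSubalgebra ℂ A :=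
  (StarAlgebra.adjoin ℂ (Set.range fun g => (π g : A))).topologicalClosure

theorem isClosed_CrRep {Γ : Type*} [Group Γ] (π : Γ →* unitary A) :
    IsClosed (CrRep π : Set A) :=
  StarSubalgebra.isClosed_topologicalClosure _

theorem mem_CrRep {Γ : Type*} [Group Γ] (π : Γ →* unitary A) (g : Γ) : (π g : A) ∈ CrRep π :=
  StarSubalgebra.le_topologicalClosure _ (StarAlgebra.subset_adjoin ℂ _ ⟨g, rfl⟩)

theorem CrRep_le {Γ : Type*} [Group Γ] (π : Γ →* unitary A) {S : StarSubalgebra ℂ A}
    (hS : IsClosed (S : Set A)) (h : ∀ g, (π g : A) ∈ S) : CrRep π ≤ S := by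
  apply StarSubalgebra.topologicalClosure_minimal _ hS
  apply StarAlgebra.adjoin_le
  rintro _ ⟨g, rfl⟩
  exact h g

omit [CStarRing A] in
theorem adjoin_range_eq_span {Γ : Type*} [Group Γ] (π : Γ →* unitary A) :
    Subalgebra.toSubmodule (StarAlgebra.adjoin ℂ (Set.range fun g => (π g : A))).toSubalgebra =
      Submodule.span ℂ (Set.range fun g => (π g : A)) := by
  rw [StarAlgebra.adjoin_eq_span]
  congr 1
  have h1 : star (Set.range fun g => (π g : A)) = Set.range fun g => (π g : A) := by
    ext x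
    simp only [Set.mem_star, Set.mem_range]
    constructor
    · rintro ⟨g, hg⟩
      refine ⟨g⁻¹, ?_⟩
      rw [map_inv, ← Unitary.star_eq_inv, Unitary.coe_star, hg, star_star]
    · rintro ⟨g, rfl⟩
      refine ⟨g⁻¹, ?_⟩
      rw [map_inv, ← Unitary.star_eq_inv, Unitary.coe_star]
  rw [h1, Set.union_self]
  let S : Submonoid A :=
    { carrier := Set.range fun g => (π g : A)
      one_mem' := ⟨1, by simp⟩
      mul_mem' := by
        rintro _ _ ⟨g, rfl⟩ ⟨h, rfl⟩
        exact ⟨g * h, by simp⟩ }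
  apply le_antisymm
  · exact Submonoid.closure_le (S := S).2 (le_refl _)
  · exact Submonoid.subset_closure

/-- Induction principle: a closed linear condition satisfied by all `π g` holds on `CrRep π`. -/
theorem CrRep_induction {Γ : Type*} [Group Γ] (π : Γ →* unitary A) (p : A → Prop)
    (hcl : IsClosed {T | p T}) (h0 : p 0) (hadd : ∀ S T, p S → p T → p (S + T))
    (hsmul : ∀ (c : ℂ) T, p T → p (c • T)) (hπ : ∀ g, p (π g : A)) :
    ∀ T ∈ CrRep π, p T := by
  intro T hT
  let N : Submodule ℂ A :=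
    { carrier := {T | p T}
      zero_mem' := h0
      add_mem' := fun {a b} ha hb => hadd a b ha hb
      smul_mem' := fun c x hx => hsmul c x hx }
  have h1 : (StarAlgebra.adjoin ℂ (Set.range fun g => (π g : A)) : Set A) ⊆ {T | p T} := by
    intro S hS
    have h2 : S ∈ Subalgebra.toSubmodule
        (StarAlgebra.adjoin ℂ (Set.range fun g => (π g : A))).toSubalgebra := hS
    rw [adjoin_range_eq_span] at h2
    have h3 : Submodule.span ℂ (Set.range fun g => (π g : A)) ≤ N := by
      rw [Submodule.span_le]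
      rintro _ ⟨g, rfl⟩
      exact hπ g
    exact h3 h2
  have h4 : T ∈ closure (StarAlgebra.adjoin ℂ (Set.range fun g => (π g : A)) : Set A) := hT
  exact closure_minimal h1 hcl h4

end Gen

section Cr

variable {G : Type*} [Group G]

theorem Cr_eq_CrRep : Cr G = CrRep (lamU (G := G)) := rfl

theorem Cr_induction (p : BL G → Prop)
    (hcl : IsClosed {T | p T}) (h0 : p 0) (hadd : ∀ S T, p S → p T → p (S + T))
    (hsmul : ∀ (c : ℂ) T, p T → p (c • T)) (hlam : ∀ g : G, p (lam g)) :
    ∀ T ∈ Cr G, p T :=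
  CrRep_induction (lamU (G := G)) p hcl h0 hadd hsmul hlam

theorem inner_dl_left {X : Type*} (x : X) (f : L2 X) : inner ℂ (dl x) f = f x := by
  classical
  have h := lp.inner_single_left (𝕜 := ℂ) x (1 : ℂ) f
  have e : (dl x : L2 X) = lp.single 2 x (1 : ℂ) := by
    rw [dl]
  rw [e, h]
  simp

theorem norm_dl {X : Type*} (x : X) : ‖(dl x : L2 X)‖ = 1 := by
  have h := inner_self_eq_norm_sq_to_K (𝕜 := ℂ) (dl x : L2 X)
  rw [inner_dl_left, dl_apply, if_pos rfl] at h
  have h2 : ‖(dl x : L2 X)‖ ^ 2 = 1 := by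
    have h3 : ((‖(dl x : L2 X)‖ ^ 2 : ℝ) : ℂ) = ((1 : ℝ) : ℂ) := by
      rw [Complex.ofReal_pow, Complex.ofReal_one]; exact h.symm
    exact Complex.ofReal_injective h3
  nlinarith [norm_nonneg (dl x : L2 X)]

theorem dense_span_dl (X : Type*) :
    (Submodule.span ℂ (Set.range (dl : X → L2 X))).topologicalClosure = ⊤ := by
  rw [Submodule.topologicalClosure_eq_top_iff, Submodule.eq_bot_iff]
  intro f hf
  ext x
  rw [Submodule.mem_orthogonal] at hf
  have := hf (dl x) (Submodule.subset_span ⟨x, rfl⟩)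
  rw [inner_dl_left] at this
  simpa using this

theorem ext_dl {X : Type*} {E : Type*} [NormedAddCommGroup E] [NormedSpace ℂ E]
    {S T : L2 X →L[ℂ] E} (h : ∀ x, S (dl x) = T (dl x)) : S = T := by
  ext f
  have h1 : f ∈ (Submodule.span ℂ (Set.range (dl : X → L2 X))).topologicalClosure := by
    rw [dense_span_dl]; trivial
  have h2 : f ∈ closure (Submodule.span ℂ (Set.range (dl : X → L2 X)) : Set (L2 X)) := h1
  have hcl : IsClosed {f : L2 X | S f = T f} := isClosed_eq S.continuous T.continuous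
  refine closure_minimal ?_ hcl h2
  intro v hv
  induction hv using Submodule.span_induction with
  | mem v hv => obtain ⟨x, rfl⟩ := hv; exact h x
  | zero => simp
  | add v w _ _ hv hw =>
    have hv' : S v = T v := hv
    have hw' : S w = T w := hw
    show S (v + w) = T (v + w)
    rw [map_add, map_add, hv', hw']
  | smul c v _ hv =>
    have hv' : S v = T v := hv
    show S (c • v) = T (c • v)
    rw [map_smul, map_smul, hv']

/-- (C1) -/
theorem cr_equiv_of_rep {Γ Γ' : Type} [Group Γ] [Group Γ'] (π : Γ →* unitary (BL Γ'))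
    (hmem : ∀ g, (π g : BL Γ') ∈ Cr Γ')
    (htr : ∀ g, g ≠ 1 → inner ℂ (dl 1) ((π g : BL Γ') (dl 1)) = 0)
    (hdense : ∀ g', lam g' ∈
      (StarAlgebra.adjoin ℂ (Set.range fun g => (π g : BL Γ'))).topologicalClosure) :
    Nonempty (Cr Γ ≃⋆ₐ[ℂ] Cr Γ') := by
  classical
  have hC : CrRep π = Cr Γ' := by
    apply le_antisymm
    · exact CrRep_le π isClosed_Cr hmem
    · rw [Cr_eq_CrRep]
      exact CrRep_le _ (isClosed_CrRep π) hdense
  let v : Γ → L2 Γ' := fun g => (π g : BL Γ') (dl 1)
  have hv : Orthonormal ℂ v := by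
    rw [orthonormal_iff_ite]
    intro g h
    have h1 : inner ℂ (v g) (v h) = inner ℂ (dl 1) ((π (g⁻¹ * h) : BL Γ') (dl (1 : Γ'))) := by
      have h2 := ContinuousLinearMap.inner_map_map_of_mem_unitary (π g⁻¹).2 (v g) (v h)
      rw [← h2]
      have h3 : (π g⁻¹ : BL Γ') (v g) = dl 1 := by
        show (π g⁻¹ : BL Γ') ((π g : BL Γ') (dl 1)) = dl 1
        rw [← mul_apply_eq_comp, ← Submonoid.coe_mul, ← map_mul, inv_mul_cancel,
          map_one]
        rfl
      have h4 : (π g⁻¹ : BL Γ') (v h) = (π (g⁻¹ * h) : BL Γ') (dl 1) := by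
        show (π g⁻¹ : BL Γ') ((π h : BL Γ') (dl 1)) = _
        rw [← mul_apply_eq_comp, ← Submonoid.coe_mul, ← map_mul]
      rw [h3, h4]
    rw [h1]
    by_cases hgh : g = h
    · subst hgh
      rw [inv_mul_cancel, map_one, if_pos rfl]
      show inner ℂ (dl 1) (dl (1 : Γ')) = (1 : ℂ)
      rw [inner_dl_left, dl_apply, if_pos rfl]
    · rw [if_neg hgh]
      apply htr
      intro h5
      exact hgh (inv_mul_eq_one.1 h5)
  have hsp : ⊤ ≤ (Submodule.span ℂ (Set.range v)).topologicalClosure := by
    have key : ∀ T ∈ CrRep π, T (dl 1) ∈ (Submodule.span ℂ (Set.range v)).topologicalClosure := by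
      apply CrRep_induction π (fun T : BL Γ' => T (dl 1) ∈
        (Submodule.span ℂ (Set.range v)).topologicalClosure)
      · have hc : Continuous (fun T : BL Γ' => T (dl 1)) := by fun_prop
        exact (Submodule.isClosed_topologicalClosure _).preimage hc
      · show (0 : BL Γ') (dl 1) ∈ _
        rw [zero_apply]
        exact Submodule.zero_mem _
      · intro S T hS hT
        rw [add_apply]
        exact Submodule.add_mem _ hS hT
      · intro c T hT
        rw [smul_apply]
        exact Submodule.smul_mem _ c hT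
      · intro g
        exact Submodule.le_topologicalClosure _ (Submodule.subset_span ⟨g, rfl⟩)
    rw [← dense_span_dl Γ']
    apply Submodule.topologicalClosure_minimal _ _ (Submodule.isClosed_topologicalClosure _)
    rw [Submodule.span_le]
    rintro _ ⟨g', rfl⟩
    have h1 : (lam g' : BL Γ') (dl 1) = dl g' := by rw [lam_dl, mul_one]
    rw [← h1]
    apply key
    exact hdense g'
  let b : HilbertBasis Γ ℂ (L2 Γ') := HilbertBasis.mk hv hsp
  let W : L2 Γ ≃ₗᵢ[ℂ] L2 Γ' := b.repr.symm
  have hW : ∀ g, W (dl g) = v g := by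
    intro g
    have h1 := HilbertBasis.repr_symm_single b g
    have h2 : b g = v g := congrFun (HilbertBasis.coe_mk hv hsp) g
    have e : (dl g : L2 Γ) = lp.single 2 g (1 : ℂ) := by rw [dl]
    rw [← h2, ← h1, e]
  have hWlam : ∀ g, W.conjStarAlgEquiv (lam g) = (π g : BL Γ') := by
    intro g
    have h1 : (W.conjStarAlgEquiv (lam g)).comp (W.toContinuousLinearEquiv : L2 Γ →L[ℂ] L2 Γ') =
        ((π g : BL Γ')).comp (W.toContinuousLinearEquiv : L2 Γ →L[ℂ] L2 Γ') := by
      apply ext_dl
      intro h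
      show W.conjStarAlgEquiv (lam g) (W (dl h)) = (π g : BL Γ') (W (dl h))
      rw [LinearIsometryEquiv.conjStarAlgEquiv_apply_apply, LinearIsometryEquiv.symm_apply_apply,
        lam_dl, hW, hW]
      show (π (g * h) : BL Γ') (dl 1) = (π g : BL Γ') ((π h : BL Γ') (dl 1))
      rw [map_mul]
      rfl
    ext f : 1
    have h2 := congrArg (fun S : L2 Γ →L[ℂ] L2 Γ' => S (W.symm f)) h1
    have h3 : W (W.symm f) = f := W.apply_symm_apply f
    change (W.conjStarAlgEquiv (lam g)) (W (W.symm f)) = (π g : BL Γ') (W (W.symm f)) at h2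
    rwa [h3] at h2
  -- the conjugation maps `Cr Γ` onto `CrRep π`
  have hfwd : ∀ T ∈ Cr Γ, W.conjStarAlgEquiv T ∈ Cr Γ' := by
    have hcont : Continuous (W.conjStarAlgEquiv : BL Γ → BL Γ') := by
      have : (W.conjStarAlgEquiv : BL Γ → BL Γ') = fun T =>
        (W.toContinuousLinearEquiv : L2 Γ →L[ℂ] L2 Γ').comp
          (T.comp (W.symm.toContinuousLinearEquiv : L2 Γ' →L[ℂ] L2 Γ)) := by
        funext T; rfl
      rw [this]
      fun_prop
    apply Cr_induction
    · exact isClosed_Cr.preimage hcont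
    · show W.conjStarAlgEquiv 0 ∈ Cr Γ'
      rw [map_zero]; exact zero_mem _
    · intro S T hS hT
      rw [map_add]; exact add_mem hS hT
    · intro c T hT
      rw [map_smul]; exact SMulMemClass.smul_mem c hT
    · intro g
      rw [hWlam]; exact hmem g
  have hbwd : ∀ T ∈ Cr Γ', W.conjStarAlgEquiv.symm T ∈ Cr Γ := by
    have hcont : Continuous (W.conjStarAlgEquiv.symm : BL Γ' → BL Γ) := by
      have : (W.conjStarAlgEquiv.symm : BL Γ' → BL Γ) = fun T =>
        (W.symm.toContinuousLinearEquiv : L2 Γ' →L[ℂ] L2 Γ).comp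
          (T.comp (W.toContinuousLinearEquiv : L2 Γ →L[ℂ] L2 Γ')) := by
        funext T; rfl
      rw [this]
      fun_prop
    rw [← hC]
    apply CrRep_induction
    · exact isClosed_Cr.preimage hcont
    · rw [map_zero]; exact zero_mem _
    · intro S T hS hT
      rw [map_add]; exact add_mem hS hT
    · intro c T hT
      rw [map_smul]; exact SMulMemClass.smul_mem c hT
    · intro g
      rw [← hWlam, StarAlgEquiv.symm_apply_apply]; exact lam_mem_Cr g
  refine ⟨StarAlgEquiv.ofStarAlgHom
    (((W.conjStarAlgEquiv : BL Γ →⋆ₐ[ℂ] BL Γ').comp (Cr Γ).subtype).codRestrict (Cr Γ')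
      (fun x => hfwd x x.2))
    (((W.conjStarAlgEquiv.symm : BL Γ' →⋆ₐ[ℂ] BL Γ).comp (Cr Γ').subtype).codRestrict (Cr Γ)
      (fun x => hbwd x x.2)) ?_ ?_⟩
  · apply StarAlgHom.ext
    intro x
    apply Subtype.ext
    show W.conjStarAlgEquiv.symm (W.conjStarAlgEquiv (x : BL Γ)) = x
    exact StarAlgEquiv.symm_apply_apply _ _
  · apply StarAlgHom.ext
    intro x
    apply Subtype.ext
    show W.conjStarAlgEquiv (W.conjStarAlgEquiv.symm (x : BL Γ')) = x
    exact StarAlgEquiv.apply_symm_apply _ _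

end Cr

end TFS
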