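import Pool.Agent.Lib_helper4.TFS_C1

/-!
# C*-framework, part 2: an injective homomorphism of groups induces an isometric homomorphism
of reduced group C*-algebras.
-/

set_option autoImplicit false

open scoped ENNReal

namespace TFS

section Ampl

variable {Q G : Type*}

theorem summable_sq {X : Type*} (f : L2 X) : Summable (fun x => ‖f x‖ ^ 2) := by
  have h := lp.memℓp f
  rw [memℓp_gen_iff (by norm_num)] at h
  simpa using h

theorem memlp_of_summable_sq {X : Type*} {f : X → ℂ} (h : Summable (fun x => ‖f x‖ ^ 2)) :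
    Memℓp f 2 := by
  rw [memℓp_gen_iff (by norm_num)]
  simpa using h

theorem norm_sq_eq {X : Type*} (f : L2 X) : ‖f‖ ^ 2 = ∑' x, ‖f x‖ ^ 2 := by
  have h := lp.norm_rpow_eq_tsum (p := 2) (by norm_num) f
  simpa using h

/-- the restriction of a function on `Q × G` to the slice over `q` -/
noncomputable def slice (q : Q) : L2 (Q × G) →ₗ[ℂ] L2 G where
  toFun F := ⟨fun g => F (q, g), memlp_of_summable_sq
    ((summable_sq F).comp_injective (Prod.mk_right_injective q))⟩
  map_add' F F' := by ext g; rfl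
  map_smul' c F := by ext g; rfl

@[simp] theorem slice_apply (q : Q) (F : L2 (Q × G)) (g : G) : slice q F g = F (q, g) := rfl

theorem summable_slice (F : L2 (Q × G)) : Summable (fun q => ‖slice q F‖ ^ 2) := by
  have h := (summable_prod_of_nonneg (f := fun p : Q × G => ‖F p‖ ^ 2)
    (fun p => by positivity)).1 (summable_sq F)
  refine h.2.congr (fun q => ?_)
  rw [norm_sq_eq]
  rfl

theorem norm_sq_slice (F : L2 (Q × G)) : ‖F‖ ^ 2 = ∑' q, ‖slice q F‖ ^ 2 := by
  rw [norm_sq_eq, (summable_sq F).tsum_prod]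
  refine tsum_congr fun q => ?_
  rw [norm_sq_eq]
  rfl

theorem ampl_summable (T : BL G) (F : L2 (Q × G)) :
    Summable (fun p : Q × G => ‖T (slice p.1 F) p.2‖ ^ 2) := by
  rw [summable_prod_of_nonneg (fun p => by positivity)]
  refine ⟨fun q => summable_sq (T (slice q F)), ?_⟩
  have h1 : Summable (fun q => ‖T‖ ^ 2 * ‖slice q F‖ ^ 2) := (summable_slice F).mul_left _
  refine Summable.of_nonneg_of_le (fun q => tsum_nonneg fun g => by positivity) (fun q => ?_) h1
  have h2 : ∑' g, ‖T (slice q F) g‖ ^ 2 = ‖T (slice q F)‖ ^ 2 := (norm_sq_eq _).symm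
  show ∑' g, ‖T (slice q F) g‖ ^ 2 ≤ _
  rw [h2, ← mul_pow]
  exact pow_le_pow_left₀ (norm_nonneg _) (T.le_opNorm _) 2

/-- `1 ⊗ T` as a linear map -/
noncomputable def amplLin (T : BL G) : L2 (Q × G) →ₗ[ℂ] L2 (Q × G) where
  toFun F := ⟨fun p => T (slice p.1 F) p.2, memlp_of_summable_sq (ampl_summable T F)⟩
  map_add' F F' := by
    ext p
    show T (slice p.1 (F + F')) p.2 = T (slice p.1 F) p.2 + T (slice p.1 F') p.2
    rw [map_add, map_add]; rfl
  map_smul' c F := by
    ext p
    show T (slice p.1 (c • F)) p.2 = c * T (slice p.1 F) p.2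
    rw [map_smul, map_smul]; rfl

theorem amplLin_apply (T : BL G) (F : L2 (Q × G)) (p : Q × G) :
    amplLin T F p = T (slice p.1 F) p.2 := rfl

theorem slice_amplLin (T : BL G) (F : L2 (Q × G)) (q : Q) :
    slice q (amplLin T F) = T (slice q F) := by
  ext g; rfl

theorem norm_amplLin_le (T : BL G) (F : L2 (Q × G)) : ‖amplLin T F‖ ≤ ‖T‖ * ‖F‖ := by
  have h : ‖amplLin T F‖ ^ 2 ≤ (‖T‖ * ‖F‖) ^ 2 := by
    rw [norm_sq_slice, mul_pow, norm_sq_slice F, ← tsum_mul_left]
    refine Summable.tsum_le_tsum (fun q => ?_) (summable_slice _) ((summable_slice F).mul_left _)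
    rw [slice_amplLin, ← mul_pow]
    exact pow_le_pow_left₀ (norm_nonneg _) (T.le_opNorm _) 2
  exact le_of_sq_le_sq h (by positivity)

/-- `1 ⊗ T` as a bounded operator on `ℓ²(Q × G)` -/
noncomputable def ampl (T : BL G) : L2 (Q × G) →L[ℂ] L2 (Q × G) :=
  (amplLin T).mkContinuous ‖T‖ (norm_amplLin_le T)

theorem ampl_apply (T : BL G) (F : L2 (Q × G)) (p : Q × G) :
    ampl T F p = T (slice p.1 F) p.2 := rfl

theorem slice_ampl (T : BL G) (F : L2 (Q × G)) (q : Q) :
    slice q (ampl T F) = T (slice q F) := by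
  ext g; rfl

theorem norm_ampl_le (T : BL G) : ‖(ampl T : L2 (Q × G) →L[ℂ] L2 (Q × G))‖ ≤ ‖T‖ :=
  LinearMap.mkContinuous_norm_le _ (norm_nonneg _) _

theorem inner_slice (F F' : L2 (Q × G)) :
    inner ℂ F F' = ∑' q, inner ℂ (slice q F) (slice q F') := by
  rw [lp.inner_eq_tsum, (lp.summable_inner (𝕜 := ℂ) F F').tsum_prod]
  refine tsum_congr fun q => ?_
  rw [lp.inner_eq_tsum]
  rfl

variable (Q) in
/-- the amplification homomorphism -/
noncomputable def amplHom : BL G →⋆ₐ[ℂ] (L2 (Q × G) →L[ℂ] L2 (Q × G)) where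
  toFun T := ampl T
  map_one' := by ext F p; rfl
  map_mul' S T := by
    ext F p
    show (S * T) (slice p.1 F) p.2 = S (slice p.1 (ampl T F)) p.2
    rw [slice_ampl]; rfl
  map_zero' := by ext F p; rfl
  map_add' S T := by ext F p; rfl
  commutes' c := by ext F p; rfl
  map_star' T := by
    symm
    rw [ContinuousLinearMap.star_eq_adjoint, ContinuousLinearMap.star_eq_adjoint]
    symm
    rw [ContinuousLinearMap.eq_adjoint_iff]
    intro F F'
    rw [inner_slice, inner_slice]
    refine tsum_congr fun q => ?_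
    rw [slice_ampl, slice_ampl, ContinuousLinearMap.adjoint_inner_left]

theorem amplHom_apply (T : BL G) (F : L2 (Q × G)) (p : Q × G) :
    amplHom Q T F p = T (slice p.1 F) p.2 := rfl

theorem norm_amplHom_le (T : BL G) : ‖amplHom Q T‖ ≤ ‖T‖ := norm_ampl_le T

end Ampl

section Map

variable {G Γ : Type*} [Group G] [Group Γ]

/-- a decomposition of `Γ` into right cosets of the image of `j` -/
theorem exists_coset_equiv (j : G →* Γ) (hj : Function.Injective j) :
    ∃ e : Γ ≃ (Γ ⧸ j.range) × G, ∀ g₀ γ, e (j g₀ * γ) = ((e γ).1, g₀ * (e γ).2) := by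
  let J : G ≃* j.range := MonoidHom.ofInjective hj
  have hJ : ∀ h : j.range, j (J.symm h) = h := by
    intro h
    have h1 : (J (J.symm h) : Γ) = j (J.symm h) := rfl
    rw [← h1, J.apply_symm_apply]
  have hmem : ∀ γ : Γ, γ * ((γ⁻¹ : Γ) : Γ ⧸ j.range).out ∈ j.range := by
    intro γ
    have h1 : (((γ⁻¹ : Γ) : Γ ⧸ j.range).out : Γ ⧸ j.range) = ((γ⁻¹ : Γ) : Γ ⧸ j.range) :=
      QuotientGroup.out_eq' _
    have h2 := QuotientGroup.eq.1 h1.symm
    rwa [inv_inv] at h2
  let e : Γ ≃ (Γ ⧸ j.range) × G :=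
    { toFun := fun γ => (((γ⁻¹ : Γ) : Γ ⧸ j.range), J.symm ⟨_, hmem γ⟩)
      invFun := fun p => j p.2 * p.1.out⁻¹
      left_inv := by
        intro γ
        show j (J.symm ⟨_, hmem γ⟩) * (((γ⁻¹ : Γ) : Γ ⧸ j.range).out)⁻¹ = γ
        rw [hJ, mul_inv_cancel_right]
      right_inv := by
        rintro ⟨q, g⟩
        have h1 : (((j g * q.out⁻¹)⁻¹ : Γ) : Γ ⧸ j.range) = q := by
          rw [mul_inv_rev, inv_inv]
          have h2 : ((q.out * (j g)⁻¹ : Γ) : Γ ⧸ j.range) = (q.out : Γ ⧸ j.range) := by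
            rw [QuotientGroup.eq, mul_inv_rev, inv_inv, inv_mul_cancel_right]
            exact ⟨g, rfl⟩
          rw [h2, QuotientGroup.out_eq']
        apply Prod.ext
        · exact h1
        · show J.symm ⟨_, hmem (j g * q.out⁻¹)⟩ = g
          rw [MulEquiv.symm_apply_eq]
          apply Subtype.ext
          show j g * q.out⁻¹ * (((j g * q.out⁻¹)⁻¹ : Γ) : Γ ⧸ j.range).out = j g
          rw [h1, inv_mul_cancel_right] }
  have he : ∀ q g, e.symm (q, g) = j g * q.out⁻¹ := fun q g => rfl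
  refine ⟨e, fun g₀ γ => ?_⟩
  rw [← e.symm.apply_eq_iff_eq, e.symm_apply_apply, he, map_mul, mul_assoc, ← he,
    Prod.mk.eta, e.symm_apply_apply]

/-- a choice of coset decomposition -/
noncomputable def cosetEquiv (j : G →* Γ) (hj : Function.Injective j) :
    Γ ≃ (Γ ⧸ j.range) × G := (exists_coset_equiv j hj).choose

theorem cosetEquiv_mul (j : G →* Γ) (hj : Function.Injective j) (g₀ : G) (γ : Γ) :
    cosetEquiv j hj (j g₀ * γ) = ((cosetEquiv j hj γ).1, g₀ * (cosetEquiv j hj γ).2) :=
  (exists_coset_equiv j hj).choose_spec g₀ γ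

/-- the homomorphism `B(ℓ²G) → B(ℓ²Γ)` induced by an injective homomorphism `j : G → Γ` -/
noncomputable def bigMap (j : G →* Γ) (hj : Function.Injective j) : BL G →⋆ₐ[ℂ] BL Γ :=
  ((mapIso (cosetEquiv j hj).symm).conjStarAlgEquiv :
    (L2 ((Γ ⧸ j.range) × G) →L[ℂ] L2 ((Γ ⧸ j.range) × G)) →⋆ₐ[ℂ] BL Γ).comp
      (amplHom (Γ ⧸ j.range))

theorem bigMap_apply (j : G →* Γ) (hj : Function.Injective j) (T : BL G) (F : L2 Γ) (γ : Γ) :
    bigMap j hj T F γ = T (slice (cosetEquiv j hj γ).1 (mapIso (cosetEquiv j hj) F))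
      (cosetEquiv j hj γ).2 := rfl

theorem norm_bigMap_le (j : G →* Γ) (hj : Function.Injective j) (T : BL G) :
    ‖bigMap j hj T‖ ≤ ‖T‖ := by
  refine ContinuousLinearMap.opNorm_le_bound _ (norm_nonneg _) fun F => ?_
  show ‖mapIso (cosetEquiv j hj).symm (amplHom (Γ ⧸ j.range) T
    ((mapIso (cosetEquiv j hj).symm).symm F))‖ ≤ _
  rw [LinearIsometryEquiv.norm_map]
  refine (ContinuousLinearMap.le_opNorm _ _).trans ?_
  rw [LinearIsometryEquiv.norm_map]
  exact mul_le_mul_of_nonneg_right (norm_amplHom_le T) (norm_nonneg _)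

theorem continuous_bigMap (j : G →* Γ) (hj : Function.Injective j) :
    Continuous (bigMap j hj) :=
  AddMonoidHomClass.continuous_of_bound (bigMap j hj) 1
    (fun T => by rw [one_mul]; exact norm_bigMap_le j hj T)

theorem bigMap_lam (j : G →* Γ) (hj : Function.Injective j) (g : G) :
    bigMap j hj (lam g) = lam (j g) := by
  ext F γ
  rw [bigMap_apply, lam_apply, lam_apply, slice_apply, mapIso_apply]
  refine congrArg (fun x => F x) ?_
  rw [Equiv.symm_apply_eq, ← map_inv, cosetEquiv_mul]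

theorem bigMap_mem (j : G →* Γ) (hj : Function.Injective j) {T : BL G} (hT : T ∈ Cr G) :
    bigMap j hj T ∈ CrRep ((lamU (G := Γ)).comp j) := by
  revert T
  apply Cr_induction
  · exact (isClosed_CrRep _).preimage (continuous_bigMap j hj)
  · rw [map_zero]; exact zero_mem _
  · intro S T hS hT
    rw [map_add]; exact add_mem hS hT
  · intro c T hT
    rw [map_smul]; exact SMulMemClass.smul_mem c hT
  · intro g
    rw [bigMap_lam]
    exact mem_CrRep ((lamU (G := Γ)).comp j) g

theorem CrRep_comp_le (j : G →* Γ) : CrRep ((lamU (G := Γ)).comp j) ≤ Cr Γ :=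
  CrRep_le _ isClosed_Cr (fun g => lam_mem_Cr (j g))

/-- (C2) the homomorphism of reduced group C*-algebras induced by an injective homomorphism -/
noncomputable def crMap (j : G →* Γ) (hj : Function.Injective j) : Cr G →⋆ₐ[ℂ] Cr Γ :=
  ((bigMap j hj).comp (Cr G).subtype).codRestrict (Cr Γ)
    (fun x => CrRep_comp_le j (bigMap_mem j hj x.2))

theorem coe_crMap (j : G →* Γ) (hj : Function.Injective j) (T : Cr G) :
    (crMap j hj T : BL Γ) = bigMap j hj (T : BL G) := rfl

theorem crMap_lam (j : G →* Γ) (hj : Function.Injective j) (g : G) :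
    (crMap j hj ⟨lam g, lam_mem_Cr g⟩ : BL Γ) = lam (j g) := bigMap_lam j hj g

theorem norm_crMap_le (j : G →* Γ) (hj : Function.Injective j) (T : Cr G) :
    ‖crMap j hj T‖ ≤ ‖T‖ := norm_bigMap_le j hj T

theorem continuous_crMap (j : G →* Γ) (hj : Function.Injective j) :
    Continuous (crMap j hj) :=
  AddMonoidHomClass.continuous_of_bound (crMap j hj) 1
    (fun T => by rw [one_mul]; exact norm_crMap_le j hj T)

/-- the coefficient at the identity is preserved -/
theorem bigMap_injective (j : G →* Γ) (hj : Function.Injective j) :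
    Function.Injective (bigMap j hj) := by
  intro S T h
  ext f g
  let q : Γ ⧸ j.range := (cosetEquiv j hj 1).1
  classical
  let F' : L2 ((Γ ⧸ j.range) × G) := ⟨fun p => if p.1 = q then f p.2 else 0, by
    apply memlp_of_summable_sq
    rw [summable_prod_of_nonneg (fun p => by positivity)]
    constructor
    · intro q'
      by_cases hq : q' = q
      · simpa [hq] using summable_sq f
      · simp [hq]
    · apply summable_of_ne_finset_zero (s := {q})
      intro q' hq'
      have : q' ≠ q := by simpa using hq'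
      simp [this]⟩
  have hs : slice q F' = f := by
    ext g
    show (if q = q then f g else 0) = f g
    rw [if_pos rfl]
  have h1 := congrArg (fun R : BL Γ => R ((mapIso (cosetEquiv j hj)).symm F')
    ((cosetEquiv j hj).symm (q, g))) h
  simp only [bigMap_apply, LinearIsometryEquiv.apply_symm_apply, Equiv.apply_symm_apply,
    hs] at h1
  exact h1

end Map

end TFS
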