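import Pool.Agent.Lib_helper4.TFS_C2

/-!
# C*-framework, part 3: the intertwining theorem.
-/

set_option autoImplicit false

open scoped ENNReal
open Filter Topology

namespace TFS

section Trace

variable {G : Type*} [Group G]

/-- the canonical trace -/
noncomputable def tau (T : BL G) : ℂ := inner ℂ (dl (1 : G)) (T (dl 1))

theorem tau_def (T : BL G) : tau T = T (dl 1) 1 := inner_dl_left _ _

open Classical in
theorem tau_lam (g : G) : tau (lam g) = if g = 1 then 1 else 0 := by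
  rw [tau_def, lam_dl, mul_one, dl_apply]
  simp only [eq_comm]

theorem continuous_tau : Continuous (tau : BL G → ℂ) := by
  unfold tau
  fun_prop

theorem tau_zero : tau (0 : BL G) = 0 := by
  rw [tau, zero_apply, inner_zero_right]

theorem tau_add (S T : BL G) : tau (S + T) = tau S + tau T := by
  rw [tau, add_apply, inner_add_right]; rfl

theorem tau_smul (c : ℂ) (T : BL G) : tau (c • T) = c * tau T := by
  rw [tau, smul_apply, inner_smul_right]; rfl

theorem tau_mul_comm {S T : BL G} (hS : S ∈ Cr G) (hT : T ∈ Cr G) : tau (S * T) = tau (T * S) := by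
  revert T
  apply Cr_induction
  · exact isClosed_eq (continuous_tau.comp (by fun_prop)) (continuous_tau.comp (by fun_prop))
  · rw [mul_zero, zero_mul]
  · intro T T' h h'
    rw [mul_add, add_mul, tau_add, tau_add, h, h']
  · intro c T h
    rw [mul_smul_comm, smul_mul_assoc, tau_smul, tau_smul, h]
  · intro g
    revert S
    apply Cr_induction
    · exact isClosed_eq (continuous_tau.comp (by fun_prop)) (continuous_tau.comp (by fun_prop))
    · rw [mul_zero, zero_mul]
    · intro T T' h h'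
      rw [mul_add, add_mul, tau_add, tau_add, h, h']
    · intro c T h
      rw [mul_smul_comm, smul_mul_assoc, tau_smul, tau_smul, h]
    · intro h
      rw [← lam_mul, ← lam_mul, tau_lam, tau_lam]
      congr 1
      rw [eq_iff_iff, mul_eq_one_iff_eq_inv, mul_eq_one_iff_inv_eq, eq_comm]

theorem tau_conj {Y T : BL G} (hY : Y ∈ Cr G) (hT : T ∈ Cr G) (h : star Y * Y = 1) :
    tau (Y * T * star Y) = tau T := by
  rw [tau_mul_comm (mul_mem hY hT) (star_mem hY), ← mul_assoc, h, one_mul]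

end Trace

/-- partial products -/
def partialProd {M : Type*} [Monoid M] (V : ℕ → M) : ℕ → M
  | 0 => 1
  | k + 1 => partialProd V k * V k

theorem norm_conj_unitary {A : Type*} [NormedRing A] [StarRing A] [CStarRing A]
    (Y : unitary A) (T : A) : ‖(Y : A) * T * star (Y : A)‖ = ‖T‖ := by
  rw [← Unitary.coe_star, CStarRing.norm_mul_coe_unitary, CStarRing.norm_coe_unitary_mul]

theorem conj_mem_of_mem_closure {A : Type*} [NormedRing A] [NormedAlgebra ℂ A] [StarRing A]
    [StarModule ℂ A] [CStarRing A] (Y : unitary A) (S : StarSubalgebra ℂ A)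
    (hS : IsClosed (S : Set A)) (s : Set A) (h : ∀ x ∈ s, (Y : A) * x * star (Y : A) ∈ S) :
    ∀ T ∈ (StarAlgebra.adjoin ℂ s).topologicalClosure, (Y : A) * T * star (Y : A) ∈ S := by
  let φ : A →⋆ₐ[ℂ] A := ((Unitary.conjStarAlgAut ℂ A Y : A ≃⋆ₐ[ℂ] A) : A →⋆ₐ[ℂ] A)
  have hφ : ∀ T, φ T = (Y : A) * T * star (Y : A) := fun T => rfl
  have hcl : IsClosed ((S.comap φ : StarSubalgebra ℂ A) : Set A) := by
    have e : ((S.comap φ : StarSubalgebra ℂ A) : Set A) =
        (fun T : A => (Y : A) * T * star (Y : A)) ⁻¹' (S : Set A) := rfl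
    rw [e]
    exact hS.preimage (by fun_prop)
  intro T hT
  have h1 : T ∈ S.comap φ := by
    refine StarSubalgebra.topologicalClosure_minimal ?_ hcl hT
    apply StarAlgebra.adjoin_le
    intro x hx
    exact h x hx
  exact h1

/-- (C3) the intertwining theorem. -/
theorem intertwine_le {Γ Γ' : Type} [Group Γ] [Group Γ'] (G : ℕ → Type) [∀ n, Group (G n)]
    (c c' : ∀ n, G n →* G (n + 1)) (ι : ∀ n, G n →* Γ) (ι' : ∀ n, G n →* Γ')
    (hι : ∀ n, Function.Injective (ι n)) (hι' : ∀ n, Function.Injective (ι' n))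
    (hc : ∀ n f, ι (n + 1) (c n f) = ι n f) (hc' : ∀ n f, ι' (n + 1) (c' n f) = ι' n f)
    (hs : ∀ γ : Γ, ∃ n f, ι n f = γ) (hs' : ∀ γ : Γ', ∃ n f, ι' n f = γ)
    (V : ℕ → unitary (BL Γ')) (δ : ℕ → ℝ) (hδ0 : ∀ n, 0 ≤ δ n) (hδ : Summable δ)
    (N : ∀ n, G n → ℝ)
    (hNc : ∀ n f, N (n + 1) (c n f) ≤ N n f) (hNc' : ∀ n f, N (n + 1) (c' n f) ≤ N n f)
    (hVmem : ∀ n, (V n : BL Γ') ∈ (StarAlgebra.adjoin ℂ
      ((fun f => lam (ι' (n + 1) f)) '' {f | N (n + 1) f = 0})).topologicalClosure)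
    (hV : ∀ n f, ‖(V n : BL Γ') * lam (ι' (n + 1) (c n f)) * star (V n : BL Γ') -
      lam (ι' n f)‖ ≤ N n f * δ n) :
    Nonempty (Cr Γ ≃⋆ₐ[ℂ] Cr Γ') := by
  classical
  -- the partial products
  let Y : ℕ → unitary (BL Γ') := partialProd V
  have hY0 : Y 0 = 1 := rfl
  have hY1 : ∀ k, Y (k + 1) = Y k * V k := fun k => rfl
  have hVCr : ∀ n, (V n : BL Γ') ∈ Cr Γ' := by
    intro n
    refine StarSubalgebra.topologicalClosure_minimal ?_ isClosed_Cr (hVmem n)
    apply StarAlgebra.adjoin_le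
    rintro _ ⟨f, _, rfl⟩
    exact lam_mem_Cr _
  have hYCr : ∀ k, (Y k : BL Γ') ∈ Cr Γ' := by
    intro k
    induction k with
    | zero => rw [hY0]; exact one_mem _
    | succ k ih =>
      rw [hY1]
      exact mul_mem ih (hVCr k)
  -- the approximate representations
  let R : ∀ k, G k →* unitary (BL Γ') := fun k =>
    { toFun := fun f => Y k * lamU (ι' k f) * (Y k)⁻¹
      map_one' := by simp
      map_mul' := fun f g => by simp [mul_assoc] }
  have hRcoe : ∀ k f, (R k f : BL Γ') = (Y k : BL Γ') * lam (ι' k f) * star (Y k : BL Γ') :=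
    fun k f => rfl
  have hRCr : ∀ k f, (R k f : BL Γ') ∈ Cr Γ' := fun k f => by
    rw [hRcoe]
    exact mul_mem (mul_mem (hYCr k) (lam_mem_Cr _)) (star_mem (hYCr k))
  have hRstep : ∀ k f, dist (R k f : BL Γ') (R (k + 1) (c k f)) ≤ N k f * δ k := by
    intro k f
    have e1 : (R (k + 1) (c k f) : BL Γ') = (Y k : BL Γ') *
        ((V k : BL Γ') * lam (ι' (k + 1) (c k f)) * star (V k : BL Γ')) * star (Y k : BL Γ') := by
      rw [hRcoe, hY1]
      simp only [Submonoid.coe_mul, star_mul, mul_assoc]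
    rw [dist_comm, dist_eq_norm, e1, hRcoe, ← sub_mul, ← mul_sub, norm_conj_unitary]
    exact hV k f
  let B : ℕ → Γ → BL Γ' := fun k γ => if h : ∃ f, ι k f = γ then (R k h.choose : BL Γ') else 0
  have hB : ∀ k f, B k (ι k f) = (R k f : BL Γ') := by
    intro k f
    have h : ∃ f', ι k f' = ι k f := ⟨f, rfl⟩
    have h2 : h.choose = f := hι k h.choose_spec
    show (if h : ∃ f', ι k f' = ι k f then (R k h.choose : BL Γ') else 0) = _
    rw [dif_pos h, h2]
  -- elements at later stages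
  have hlater : ∀ n (f : G n) k, n ≤ k → ∃ f' : G k, ι k f' = ι n f ∧ N k f' ≤ N n f := by
    intro n f k hk
    induction k, hk using Nat.le_induction with
    | base => exact ⟨f, rfl, le_refl _⟩
    | succ k _ ih =>
      obtain ⟨f', h1, h2⟩ := ih
      exact ⟨c k f', by rw [hc, h1], (hNc k f').trans h2⟩
  have hlater' : ∀ n (f : G n) k, n ≤ k → ∃ f' : G k, ι' k f' = ι' n f ∧ N k f' ≤ N n f := by
    intro n f k hk
    induction k, hk using Nat.le_induction with
    | base => exact ⟨f, rfl, le_refl _⟩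
    | succ k _ ih =>
      obtain ⟨f', h1, h2⟩ := ih
      exact ⟨c' k f', by rw [hc', h1], (hNc' k f').trans h2⟩
  have hBstep : ∀ n (f : G n) k, n ≤ k →
      dist (B k (ι n f)) (B (k + 1) (ι n f)) ≤ N n f * δ k := by
    intro n f k hk
    obtain ⟨f', h1, h2⟩ := hlater n f k hk
    have e1 : B k (ι n f) = (R k f' : BL Γ') := by rw [← h1, hB]
    have e2 : B (k + 1) (ι n f) = (R (k + 1) (c k f') : BL Γ') := by
      rw [← h1, ← hc k f', hB]
    rw [e1, e2]
    exact (hRstep k f').trans (mul_le_mul_of_nonneg_right h2 (hδ0 k))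
  have hsumm : ∀ n (C : ℝ), Summable (fun k => C * δ (n + k)) := by
    intro n C
    have h1 : Summable (fun k => δ (k + n)) := (summable_nat_add_iff n).2 hδ
    refine (h1.mul_left C).congr (fun k => ?_)
    rw [add_comm]
  have hlim : ∀ n (f : G n), ∃ L, Tendsto (fun k => B k (ι n f)) atTop (𝓝 L) ∧
      dist (B n (ι n f)) L ≤ N n f * ∑' k, δ (n + k) := by
    intro n f
    have h1 : ∀ k, dist (B (n + k) (ι n f)) (B (n + (k + 1)) (ι n f)) ≤ N n f * δ (n + k) :=
      fun k => hBstep n f (n + k) (Nat.le_add_right n k)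
    have h2 := cauchySeq_of_dist_le_of_summable (f := fun k => B (n + k) (ι n f))
      (fun k => N n f * δ (n + k)) h1 (hsumm n _)
    obtain ⟨L, hL⟩ := cauchySeq_tendsto_of_complete h2
    refine ⟨L, ?_, ?_⟩
    · rw [← tendsto_add_atTop_iff_nat n]
      refine hL.congr (fun k => ?_)
      rw [add_comm]
    · have h3 := dist_le_tsum_of_dist_le_of_tendsto₀ (f := fun k => B (n + k) (ι n f))
        (fun k => N n f * δ (n + k)) h1 (hsumm n _) hL
      rw [tsum_mul_left] at h3
      exact h3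
  have hlimΓ : ∀ γ : Γ, ∃ L, Tendsto (fun k => B k γ) atTop (𝓝 L) := by
    intro γ
    obtain ⟨n, f, rfl⟩ := hs γ
    obtain ⟨L, hL, _⟩ := hlim n f
    exact ⟨L, hL⟩
  choose p hp using hlimΓ
  have hpdist : ∀ n (f : G n), dist (R n f : BL Γ') (p (ι n f)) ≤ N n f * ∑' k, δ (n + k) := by
    intro n f
    obtain ⟨L, hL, hd⟩ := hlim n f
    rw [hB] at hd
    rwa [tendsto_nhds_unique (hp (ι n f)) hL]
  -- eventual form
  have hev : ∀ γ : Γ, ∀ᶠ k in atTop, ∃ f : G k, ι k f = γ := by
    intro γ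
    obtain ⟨n, f, rfl⟩ := hs γ
    filter_upwards [eventually_ge_atTop n] with k hk
    obtain ⟨f', h1, _⟩ := hlater n f k hk
    exact ⟨f', h1⟩
  have hclU : IsClosed ((unitary (BL Γ') : Submonoid (BL Γ')) : Set (BL Γ')) := isClosed_unitary
  have hpU : ∀ γ, p γ ∈ unitary (BL Γ') := by
    intro γ
    refine hclU.mem_of_tendsto (hp γ) ?_
    filter_upwards [hev γ] with k hk
    obtain ⟨f, rfl⟩ := hk
    rw [hB]
    exact (R k f).2
  have hp1 : p 1 = 1 := by
    refine tendsto_nhds_unique (hp 1) ?_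
    refine (tendsto_const_nhds).congr (fun k => ?_)
    have h1 : B k (ι k 1) = (R k 1 : BL Γ') := hB k 1
    rw [map_one, map_one] at h1
    rw [h1]; rfl
  have hpmul : ∀ γ γ', p (γ * γ') = p γ * p γ' := by
    intro γ γ'
    refine tendsto_nhds_unique (hp (γ * γ')) ?_
    refine ((hp γ).mul (hp γ')).congr' ?_
    filter_upwards [hev γ, hev γ'] with k hk hk'
    obtain ⟨f, rfl⟩ := hk
    obtain ⟨f', rfl⟩ := hk'
    rw [hB, hB, ← map_mul, hB, map_mul]; rfl
  let π : Γ →* unitary (BL Γ') :=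
    { toFun := fun γ => ⟨p γ, hpU γ⟩
      map_one' := Subtype.ext hp1
      map_mul' := fun γ γ' => Subtype.ext (hpmul γ γ') }
  have hπ : ∀ γ, (π γ : BL Γ') = p γ := fun γ => rfl
  have hpCr : ∀ γ, p γ ∈ Cr Γ' := by
    intro γ
    refine isClosed_Cr.mem_of_tendsto (hp γ) ?_
    filter_upwards [hev γ] with k hk
    obtain ⟨f, rfl⟩ := hk
    rw [hB]
    exact hRCr k f
  have hYstar : ∀ k, star (Y k : BL Γ') * (Y k : BL Γ') = 1 := fun k => Unitary.coe_star_mul_self _
  have hYstar' : ∀ k, (Y k : BL Γ') * star (Y k : BL Γ') = 1 := fun k =>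
    Unitary.coe_mul_star_self _
  refine cr_equiv_of_rep π hpCr ?_ ?_
  · intro γ hγ
    show tau (p γ) = 0
    refine tendsto_nhds_unique ((continuous_tau.tendsto (p γ)).comp (hp γ)) ?_
    refine (tendsto_const_nhds).congr' ?_
    filter_upwards [hev γ] with k hk
    obtain ⟨f, rfl⟩ := hk
    show 0 = tau (B k (ι k f))
    rw [hB, hRcoe, tau_conj (hYCr k) (lam_mem_Cr _) (hYstar k), tau_lam, if_neg]
    intro h
    have h1 : f = 1 := hι' k (by rw [h, map_one])
    exact hγ (by rw [h1, map_one])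
  · -- density
    have hCπ : ∀ γ, p γ ∈ CrRep π := fun γ => mem_CrRep π γ
    have hcl := isClosed_CrRep π
    -- conjugates of elements of the exact part
    have hexact : ∀ n (f : G n), N n f = 0 → (R n f : BL Γ') ∈ CrRep π := by
      intro n f hf
      have h1 := hpdist n f
      rw [hf, zero_mul] at h1
      have h2 : (R n f : BL Γ') = p (ι n f) := dist_le_zero.1 h1
      rw [h2]
      exact hCπ _
    have hYC : ∀ k, (Y k : BL Γ') ∈ CrRep π := by
      intro k
      induction k with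
      | zero => rw [hY0]; exact one_mem _
      | succ k ih =>
        have h1 : (Y (k + 1) : BL Γ') * (V k : BL Γ') * star (Y (k + 1) : BL Γ') ∈ CrRep π := by
          refine conj_mem_of_mem_closure (Y (k + 1)) (CrRep π) hcl _ ?_ _ (hVmem k)
          rintro _ ⟨f, hf, rfl⟩
          exact hexact (k + 1) f hf
        rw [hY1] at h1
        -- `Y k * V k * V k * star (V k) * star (Y k)`
        have h2 : ((Y k * V k : unitary (BL Γ')) : BL Γ') * (V k : BL Γ') *
            star ((Y k * V k : unitary (BL Γ')) : BL Γ') =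
            (Y k : BL Γ') * (V k : BL Γ') * star (Y k : BL Γ') := by
          have h3 : (V k : BL Γ') * star (V k : BL Γ') = 1 := Unitary.coe_mul_star_self _
          simp only [Submonoid.coe_mul, star_mul]
          rw [mul_assoc, mul_assoc, mul_assoc, ← mul_assoc (V k : BL Γ') (star (V k : BL Γ')), h3,
            one_mul, ← mul_assoc]
        rw [h2] at h1
        have h4 := mul_mem h1 ih
        rw [mul_assoc, hYstar, mul_one] at h4
        rw [hY1]
        exact h4
    intro g'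
    show lam g' ∈ CrRep π
    obtain ⟨n, f, rfl⟩ := hs' g'
    -- approximations
    have happ : ∀ k, n ≤ k → ∃ T ∈ CrRep π, dist T (lam (ι' n f)) ≤ N n f * ∑' m, δ (k + m) := by
      intro k hk
      obtain ⟨f', h1, h2⟩ := hlater' n f k hk
      refine ⟨star (Y k : BL Γ') * p (ι k f') * Y k,
        mul_mem (mul_mem (star_mem (hYC k)) (hCπ _)) (hYC k), ?_⟩
      have e : lam (ι' n f) = star (Y k : BL Γ') * (R k f' : BL Γ') * (Y k : BL Γ') := by
        rw [hRcoe, h1]
        rw [mul_assoc, mul_assoc, mul_assoc, hYstar, mul_one, ← mul_assoc, hYstar, one_mul]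
      have h3 := hpdist k f'
      rw [e, dist_eq_norm, ← sub_mul, ← mul_sub]
      have h4 := norm_conj_unitary ((Y k)⁻¹) (p (ι k f') - (R k f' : BL Γ'))
      rw [← Unitary.star_eq_inv, Unitary.coe_star, star_star] at h4
      rw [h4, ← dist_eq_norm, dist_comm]
      exact h3.trans (mul_le_mul_of_nonneg_right h2 (tsum_nonneg fun m => hδ0 _))
    have htail : Tendsto (fun k => N n f * ∑' m, δ (k + m)) atTop (𝓝 0) := by
      have h1 := tendsto_sum_nat_add δ
      have h2 : Tendsto (fun k => N n f * ∑' m, δ (m + k)) atTop (𝓝 (N n f * 0)) :=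
        h1.const_mul _
      rw [mul_zero] at h2
      refine h2.congr (fun k => ?_)
      congr 1
      refine tsum_congr fun m => ?_
      rw [add_comm]
    rw [← SetLike.mem_coe, ← hcl.closure_eq, Metric.mem_closure_iff]
    intro ε hε
    obtain ⟨k, hk, hnk⟩ := ((htail.eventually (gt_mem_nhds hε)).and
      (eventually_ge_atTop n)).exists
    obtain ⟨T, hT, hd⟩ := happ k hnk
    exact ⟨T, hT, by rw [dist_comm]; exact lt_of_le_of_lt hd hk⟩

/-- (C3) the intertwining theorem, in the form used in the assembly. -/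
theorem intertwine {Γ Γ' : Type} [Group Γ] [Group Γ'] (G : ℕ → Type) [∀ k, Group (G k)]
    (c c' : ∀ k, G k →* G (k + 1)) (ι : ∀ k, G k →* Γ) (ι' : ∀ k, G k →* Γ')
    (hι : ∀ k f, ι (k + 1) (c k f) = ι k f) (hι' : ∀ k f, ι' (k + 1) (c' k f) = ι' k f)
    (inj : ∀ k, Function.Injective (ι k)) (inj' : ∀ k, Function.Injective (ι' k))
    (surj : ∀ g, ∃ k f, ι k f = g) (surj' : ∀ g, ∃ k f, ι' k f = g)
    (N : ∀ k, G k → ℝ) (_hN0 : ∀ k f, 0 ≤ N k f) (hN : ∀ k f, N (k + 1) (c k f) = N k f)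
    (hN' : ∀ k f, N (k + 1) (c' k f) = N k f)
    (δ : ℕ → ℝ) (hδ0 : ∀ k, 0 ≤ δ k) (hδ : Summable δ)
    (W : ℕ → unitary (BL Γ'))
    (hW : ∀ k f, ‖(W k : BL Γ') * lam (ι' (k + 1) (c k f)) * star (W k : BL Γ') -
      lam (ι' k f)‖ ≤ N k f * δ k)
    (hWmem : ∀ k, (W k : BL Γ') ∈ (StarAlgebra.adjoin ℂ {T : BL Γ' | ∃ f : G (k + 1),
      N (k + 1) f = 0 ∧ T = lam (ι' (k + 1) f)}).topologicalClosure) :
    Nonempty (Cr Γ ≃⋆ₐ[ℂ] Cr Γ') := by
  refine intertwine_le G c c' ι ι' inj inj' hι hι' surj surj' W δ hδ0 hδ N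
    (fun k f => (hN k f).le) (fun k f => (hN' k f).le) (fun k => ?_) hW
  have e : ((fun f => lam (ι' (k + 1) f)) '' {f | N (k + 1) f = 0}) =
      {T : BL Γ' | ∃ f : G (k + 1), N (k + 1) f = 0 ∧ T = lam (ι' (k + 1) f)} := by
    ext T
    constructor
    · rintro ⟨f, hf, rfl⟩
      exact ⟨f, hf, rfl⟩
    · rintro ⟨f, hf, rfl⟩
      exact ⟨f, hf, rfl⟩
  rw [e]
  exact hWmem k

end TFS
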