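import Mathlib

/-!
# Class counting zeta functions of graphical groups: definitions
-/

namespace Pool.Agent.Lib_helper4.GraphicalZeta

open IsLocalRing

/-- The edges `{u, v}` of `Γ`, written as pairs `(u, v)` with `u < v`. -/
def Edge {n : ℕ} (Γ : SimpleGraph (Fin n)) : Type := {e : Fin n × Fin n // e.1 < e.2 ∧ Γ.Adj e.1 e.2}

/-- The underlying set `R^V × R^E` of the graphical group `G_Γ(R)`. -/
@[ext]
structure GG {n : ℕ} (Γ : SimpleGraph (Fin n)) (R : Type) where
  /-- the `R^V` component -/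
  x : Fin n → R
  /-- the `R^E` component -/
  z : Edge Γ → R

/-- The group structure of `G_Γ(R)`:
`(x, z) * (x', z') = (x + x', z + z' + β(x, x'))` with `β(x, x')_{uv} = x_u * x'_v` for `u < v`. -/
instance GG.instGroup {n : ℕ} (Γ : SimpleGraph (Fin n)) (R : Type) [CommRing R] :
    Group (GG Γ R) where
  mul g h := ⟨fun v => g.x v + h.x v, fun e => g.z e + h.z e + g.x e.1.1 * h.x e.1.2⟩
  one := ⟨fun _ => 0, fun _ => 0⟩
  inv g := ⟨fun v => - g.x v, fun e => - g.z e + g.x e.1.1 * g.x e.1.2⟩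
  mul_assoc a b c := by
    refine GG.ext ?_ ?_
    · funext v
      exact add_assoc _ _ _
    · funext e
      show (a.z e + b.z e + a.x e.1.1 * b.x e.1.2) + c.z e + (a.x e.1.1 + b.x e.1.1) * c.x e.1.2 =
        a.z e + (b.z e + c.z e + b.x e.1.1 * c.x e.1.2) + a.x e.1.1 * (b.x e.1.2 + c.x e.1.2)
      ring
  one_mul a := by
    refine GG.ext ?_ ?_
    · funext v
      exact zero_add _
    · funext e
      show 0 + a.z e + 0 * a.x e.1.2 = a.z e
      ring
  mul_one a := by
    refine GG.ext ?_ ?_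
    · funext v
      exact add_zero _
    · funext e
      show a.z e + 0 + a.x e.1.1 * 0 = a.z e
      ring
  inv_mul_cancel a := by
    refine GG.ext ?_ ?_
    · funext v
      exact neg_add_cancel _
    · funext e
      show (- a.z e + a.x e.1.1 * a.x e.1.2) + a.z e + (- a.x e.1.1) * a.x e.1.2 = 0
      ring

/-- The number of conjugacy classes of `G_Γ(𝔒/𝔓^k)`. -/
noncomputable def ccNum {n : ℕ} (Γ : SimpleGraph (Fin n)) (O : Type) [CommRing O] [IsLocalRing O]
    (k : ℕ) : ℕ :=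
  Nat.card (ConjClasses (GG Γ (O ⧸ maximalIdeal O ^ k)))

/-- `Z` is the meromorphic continuation to `ℂ` of the class counting zeta function
`∑ k(G_Γ(𝔒/𝔓^k)) q^(-k s)` of `G_Γ ⊗ 𝔒`, where `q = |𝔒/𝔓|`: it is meromorphic on `ℂ` and equals the
sum of the series on some right half-plane. -/
def IsZetaCC {n : ℕ} (Γ : SimpleGraph (Fin n)) (O : Type) [CommRing O] [IsLocalRing O]
    (Z : ℂ → ℂ) : Prop :=
  (∀ s, MeromorphicAt Z s) ∧ ∃ σ : ℝ, ∀ s : ℂ, σ < s.re →
    HasSum (fun k : ℕ => (ccNum Γ O k : ℂ) * (Nat.card (ResidueField O) : ℂ) ^ (-(k : ℂ) * s)) (Z s)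

/-- The list of the 11 edges of the graph `graph9`. -/
def edges9 : List (Fin 9 × Fin 9) :=
  [(0, 1), (0, 2), (1, 4), (1, 6), (2, 3), (2, 5), (3, 5), (3, 6), (4, 5), (4, 7), (5, 8)]

/-- A graph on the 9 vertices `0, …, 8` with the 11 edges `edges9`. -/
def graph9 : SimpleGraph (Fin 9) where
  Adj u v := (u, v) ∈ edges9 ∨ (v, u) ∈ edges9
  symm := ⟨fun _ _ h => h.symm⟩
  loopless := ⟨by decide⟩

end Pool.Agent.Lib_helper4.GraphicalZeta
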