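import Pool.Agent.Lib_helper4.ZetaDefs

/-!
# A pole with real part `37/3` of a class counting zeta function of a graphical group: proofs
-/

namespace Pool.Agent.Lib_helper4.GraphicalZeta

open IsLocalRing

section count

variable {n : ℕ} (Γ : SimpleGraph (Fin n)) (R : Type) [CommRing R]

/-- pairs of vectors `(x, x')` with `x_u x'_v = x'_u x_v` along the edges -/
def Par : Type := {P : Fin n → R × R // ∀ u v, Γ.Adj u v → (P u).1 * (P v).2 = (P u).2 * (P v).1}

variable {Γ R}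

lemma GG.mul_x (g h : GG Γ R) (v : Fin n) : (g * h).x v = g.x v + h.x v := rfl

lemma GG.mul_z (g h : GG Γ R) (e : Edge Γ) :
    (g * h).z e = g.z e + h.z e + g.x e.1.1 * h.x e.1.2 := rfl

lemma GG.commute_iff (g h : GG Γ R) : Commute g h ↔
    ∀ u v, Γ.Adj u v → g.x u * h.x v = h.x u * g.x v := by
  have hbase : Commute g h ↔ ∀ e : Edge Γ, g.x e.1.1 * h.x e.1.2 = h.x e.1.1 * g.x e.1.2 := by
    constructor
    · intro hc e
      have h1 : (g * h).z e = (h * g).z e := by rw [hc.eq]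
      rw [GG.mul_z, GG.mul_z] at h1
      linear_combination h1
    · intro hc
      refine GG.ext ?_ ?_
      · funext v
        rw [GG.mul_x, GG.mul_x, add_comm]
      · funext e
        rw [GG.mul_z, GG.mul_z]
        linear_combination hc e
  rw [hbase]
  constructor
  · intro h1 u v huv
    rcases lt_trichotomy u v with hlt | heq | hgt
    · exact h1 ⟨(u, v), hlt, huv⟩
    · subst heq; exact absurd huv (Γ.loopless.irrefl u)
    · have := h1 ⟨(v, u), hgt, huv.symm⟩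
      simp only at this
      linear_combination -this
  · intro h1 e
    exact h1 _ _ e.2.2

/-- the underlying type of the graphical group -/
def GG.equivProd : GG Γ R ≃ (Fin n → R) × (Edge Γ → R) where
  toFun g := (g.x, g.z)
  invFun p := ⟨p.1, p.2⟩
  left_inv _ := rfl
  right_inv _ := rfl

/-- commuting pairs -/
def commEquiv : {p : GG Γ R × GG Γ R // Commute p.1 p.2} ≃
    Par Γ R × ((Edge Γ → R) × (Edge Γ → R)) where
  toFun p := (⟨fun v => (p.1.1.x v, p.1.2.x v), fun u v huv =>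
    ((GG.commute_iff _ _).1 p.2) u v huv⟩, (p.1.1.z, p.1.2.z))
  invFun t := ⟨(⟨fun v => (t.1.1 v).1, t.2.1⟩, ⟨fun v => (t.1.1 v).2, t.2.2⟩),
    (GG.commute_iff _ _).2 fun u v huv => t.1.2 u v huv⟩
  left_inv _ := rfl
  right_inv _ := rfl

lemma card_conjClasses [Finite R] :
    Nat.card (ConjClasses (GG Γ R)) * Nat.card R ^ n =
      Nat.card R ^ Nat.card (Edge Γ) * Nat.card (Par Γ R) := by
  have : Finite (Edge Γ) := by unfold Edge; infer_instance
  have h1 := card_comm_eq_card_conjClasses_mul_card (GG Γ R)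
  rw [Nat.card_congr (commEquiv (Γ := Γ) (R := R)), Nat.card_congr (GG.equivProd (Γ := Γ) (R := R)),
    Nat.card_prod, Nat.card_prod, Nat.card_prod] at h1
  have h2 : Nat.card (Fin n → R) = Nat.card R ^ n := by
    rw [Nat.card_fun, Nat.card_eq_fintype_card (α := Fin n), Fintype.card_fin]
  have h3 : Nat.card (Edge Γ → R) = Nat.card R ^ Nat.card (Edge Γ) := Nat.card_fun
  have hpos : 0 < Nat.card R ^ Nat.card (Edge Γ) := pow_pos Nat.card_pos _
  rw [h2, h3] at h1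
  have h4 : (Nat.card (ConjClasses (GG Γ R)) * Nat.card R ^ n) * Nat.card R ^ Nat.card (Edge Γ) =
      (Nat.card R ^ Nat.card (Edge Γ) * Nat.card (Par Γ R)) * Nat.card R ^ Nat.card (Edge Γ) := by
    calc _ = Nat.card (ConjClasses (GG Γ R)) * (Nat.card R ^ n * Nat.card R ^ Nat.card (Edge Γ)) := by
          ring
      _ = _ := by rw [← h1]; ring
  exact Nat.eq_of_mul_eq_mul_right hpos h4

end count

/-- chain ring data -/
structure IsChain (R : Type) [CommRing R] (π : R) (q k : ℕ) : Prop where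
  fin : Finite R
  form : ∀ x : R, ∃ i ≤ k, ∃ u : R, IsUnit u ∧ x = u * π ^ i
  pow_zero : π ^ k = 0
  card_ideal : ∀ i ≤ k, Nat.card {x : R // π ^ i ∣ x} = q ^ (k - i)
  q_pos : 2 ≤ q

section dvr

variable (O : Type) [CommRing O] [IsDomain O] [IsDiscreteValuationRing O]

lemma cardQuot_pow (k : ℕ) : Nat.card (O ⧸ maximalIdeal O ^ k) =
    Nat.card (ResidueField O) ^ k := by
  have h := cardQuot_pow_of_prime (S := O) (P := maximalIdeal O)
    (IsDiscreteValuationRing.not_a_field O) (i := k)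
  exact h

variable [Finite (ResidueField O)]

lemma isChain_quot : ∃ π : O, ∀ k : ℕ, IsChain (O ⧸ maximalIdeal O ^ k)
    (Ideal.Quotient.mk _ π) (Nat.card (ResidueField O)) k := by
  obtain ⟨ϖ, hϖ⟩ := IsDiscreteValuationRing.exists_irreducible O
  have hm : maximalIdeal O = Ideal.span {ϖ} := hϖ.maximalIdeal_eq
  have hq : 2 ≤ Nat.card (ResidueField O) := Finite.one_lt_card
  refine ⟨ϖ, fun k => ?_⟩
  have hcard : Nat.card (O ⧸ maximalIdeal O ^ k) = Nat.card (ResidueField O) ^ k :=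
    cardQuot_pow O k
  have hfin : Finite (O ⧸ maximalIdeal O ^ k) := by
    apply Nat.finite_of_card_ne_zero
    rw [hcard]
    exact pow_ne_zero _ (by omega)
  have hzero : (Ideal.Quotient.mk (maximalIdeal O ^ k) ϖ) ^ k = 0 := by
    rw [← map_pow, Ideal.Quotient.eq_zero_iff_mem, hm, Ideal.span_singleton_pow]
    exact Ideal.mem_span_singleton_self _
  refine ⟨hfin, ?_, hzero, ?_, hq⟩
  · intro x
    obtain ⟨x, rfl⟩ := Ideal.Quotient.mk_surjective x
    by_cases hx : x = 0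
    · subst hx
      exact ⟨k, le_rfl, 1, isUnit_one, by rw [hzero, map_zero, mul_zero]⟩
    · obtain ⟨i, u, rfl⟩ := IsDiscreteValuationRing.eq_unit_mul_pow_irreducible hx hϖ
      rcases le_or_gt i k with hi | hi
      · exact ⟨i, hi, _, u.isUnit.map (Ideal.Quotient.mk (maximalIdeal O ^ k)), by
          rw [map_mul, map_pow]⟩
      · refine ⟨k, le_rfl, 1, isUnit_one, ?_⟩
        rw [hzero, mul_zero, map_mul, map_pow]
        obtain ⟨j, rfl⟩ := Nat.exists_eq_add_of_le hi.le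
        rw [pow_add, hzero, zero_mul, mul_zero]
  · intro i hi
    set I : Ideal (O ⧸ maximalIdeal O ^ k) :=
      Ideal.span {(Ideal.Quotient.mk (maximalIdeal O ^ k) ϖ) ^ i} with hI
    have h1 : Nat.card {x : O ⧸ maximalIdeal O ^ k //
        (Ideal.Quotient.mk (maximalIdeal O ^ k) ϖ) ^ i ∣ x} = Nat.card I := by
      refine Nat.card_congr (Equiv.subtypeEquivRight fun x => ?_)
      exact (Ideal.mem_span_singleton).symm
    have h2 := Submodule.card_eq_card_quotient_mul_card I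
    have hle : maximalIdeal O ^ k ≤ maximalIdeal O ^ i := Ideal.pow_le_pow_right hi
    have hmi : maximalIdeal O ^ i = Ideal.span {ϖ ^ i} := by
      rw [hm, Ideal.span_singleton_pow]
    have hImap : I = (maximalIdeal O ^ i).map (Ideal.Quotient.mk (maximalIdeal O ^ k)) := by
      rw [hI, hmi, Ideal.map_span, Set.image_singleton, map_pow]
    have h3 : Nat.card ((O ⧸ maximalIdeal O ^ k) ⧸ I) = Nat.card (ResidueField O) ^ i := by
      rw [← cardQuot_pow O i, hImap]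
      exact Nat.card_congr (DoubleQuot.quotQuotEquivQuotOfLE hle).toEquiv
    rw [h1]
    rw [hcard, h3] at h2
    have h4 : Nat.card (ResidueField O) ^ k =
        Nat.card (ResidueField O) ^ i * Nat.card (ResidueField O) ^ (k - i) := by
      rw [← pow_add, Nat.add_sub_cancel' hi]
    rw [h4, mul_comm (Nat.card I)] at h2
    exact (Nat.eq_of_mul_eq_mul_left (pow_pos (by omega) _) h2).symm

end dvr

section chain

variable {R : Type} [CommRing R] {π : R} {q k : ℕ}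

lemma IsChain.card (h : IsChain R π q k) : Nat.card R = q ^ k := by
  have := h.card_ideal 0 (Nat.zero_le _)
  rw [Nat.sub_zero] at this
  rw [← this]
  exact Nat.card_congr (Equiv.subtypeUnivEquiv (fun x => by simp)).symm

/-- annihilator of `π ^ a` -/
lemma IsChain.card_ann (h : IsChain R π q k) {a : ℕ} (ha : a ≤ k) :
    Nat.card {z : R // π ^ a * z = 0} = q ^ a := by
  have := h.fin
  let φ : R →+ R := AddMonoidHom.mulLeft (π ^ a)
  have h1 : Nat.card R = Nat.card φ.range * Nat.card φ.ker := by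
    rw [AddSubgroup.card_eq_card_quotient_mul_card_addSubgroup φ.ker]
    congr 1
    exact Nat.card_congr (QuotientAddGroup.quotientKerEquivRange φ).toEquiv
  have h2 : Nat.card φ.range = q ^ (k - a) := by
    rw [← h.card_ideal a ha]
    refine Nat.card_congr (Equiv.subtypeEquivRight fun x => ?_)
    constructor
    · rintro ⟨y, rfl⟩
      exact ⟨y, rfl⟩
    · rintro ⟨y, rfl⟩
      exact ⟨y, rfl⟩
  have h3 : Nat.card φ.ker = Nat.card {z : R // π ^ a * z = 0} := rfl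
  rw [h.card, h2, h3] at h1
  have h4 : q ^ k = q ^ (k - a) * q ^ a := by rw [← pow_add, Nat.sub_add_cancel ha]
  rw [h4] at h1
  exact (Nat.eq_of_mul_eq_mul_left (pow_pos (by have := h.q_pos; omega) _) h1).symm

/-- lower bound for the number of vectors parallel to `(x, y)` -/
lemma IsChain.card_par_ge (h : IsChain R π q k) {b : ℕ} (hb : b ≤ k) {x y : R}
    (hx : π ^ b ∣ x) (hy : π ^ b ∣ y) :
    q ^ (k + b) ≤ Nat.card {Q : R × R // x * Q.2 = y * Q.1} := by
  have := h.fin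
  let φ : R × R →+ R := (AddMonoidHom.mulLeft x).comp (AddMonoidHom.snd R R) -
    (AddMonoidHom.mulLeft y).comp (AddMonoidHom.fst R R)
  have hφ : ∀ Q, φ Q = x * Q.2 - y * Q.1 := fun Q => rfl
  have h1 : Nat.card (R × R) = Nat.card φ.range * Nat.card φ.ker := by
    rw [AddSubgroup.card_eq_card_quotient_mul_card_addSubgroup φ.ker]
    congr 1
    exact Nat.card_congr (QuotientAddGroup.quotientKerEquivRange φ).toEquiv
  have h2 : Nat.card φ.range ≤ q ^ (k - b) := by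
    rw [← h.card_ideal b hb]
    refine Nat.card_le_card_of_injective
      (fun z : φ.range => (⟨z.1, ?_⟩ : {x : R // π ^ b ∣ x})) ?_
    · obtain ⟨Q, hQ⟩ := z.2
      rw [← hQ, hφ]
      exact dvd_sub (dvd_mul_of_dvd_left hx _) (dvd_mul_of_dvd_left hy _)
    · intro z w hzw
      exact Subtype.ext (by simpa using hzw)
  have h3 : Nat.card φ.ker = Nat.card {Q : R × R // x * Q.2 = y * Q.1} := by
    refine Nat.card_congr (Equiv.subtypeEquivRight fun Q => ?_)
    rw [AddMonoidHom.mem_ker, hφ, sub_eq_zero]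
  rw [Nat.card_prod, h.card, h3] at h1
  have hq : 0 < q := by have := h.q_pos; omega
  have h4 : q ^ k * q ^ k = q ^ (k - b) * q ^ (k + b) := by
    rw [← pow_add, ← pow_add]; congr 1; omega
  have h5 : q ^ (k - b) * q ^ (k + b) ≤
      q ^ (k - b) * Nat.card {Q : R × R // x * Q.2 = y * Q.1} := by
    rw [← h4, h1]
    exact Nat.mul_le_mul_right _ h2
  exact Nat.le_of_mul_le_mul_left h5 (pow_pos hq _)

lemma IsChain.card_par_le_aux (h : IsChain R π q k) {a b : ℕ} (ha : a < k) (hb : b ≤ k) {x y : R}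
    (hx : ¬ π ^ (a + 1) ∣ x) :
    Nat.card {Q : R × R // (π ^ b ∣ Q.1 ∧ π ^ b ∣ Q.2) ∧ x * Q.2 = y * Q.1} ≤
      q ^ (k - b + a) := by
  classical
  have := h.fin
  have hq : 0 < q := by have := h.q_pos; omega
  obtain ⟨i, hi, u, hu, hxu⟩ := h.form x
  have hia : i ≤ a := by
    by_contra hcon
    push Not at hcon
    apply hx
    rw [hxu]
    exact dvd_mul_of_dvd_right (pow_dvd_pow _ hcon) _
  -- a base solution
  have hg : ∃ g : R → R, ∀ c, (∃ z, x * z = y * c) → x * g c = y * c := by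
    refine ⟨fun c => if hc : ∃ z, x * z = y * c then hc.choose else 0, fun c hc => ?_⟩
    simp only [dif_pos hc]
    exact hc.choose_spec
  obtain ⟨g, hg⟩ := hg
  have hinj : Nat.card {Q : R × R // (π ^ b ∣ Q.1 ∧ π ^ b ∣ Q.2) ∧ x * Q.2 = y * Q.1} ≤
      Nat.card ({z : R // π ^ b ∣ z} × {z : R // π ^ i * z = 0}) := by
    refine Nat.card_le_card_of_injective
      (fun Q => (⟨Q.1.1, Q.2.1.1⟩, ⟨Q.1.2 - g Q.1.1, ?_⟩)) ?_
    · have h1 := hg Q.1.1 ⟨Q.1.2, Q.2.2⟩
      have h2 := Q.2.2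
      have h3 : u * (π ^ i * (Q.1.2 - g Q.1.1)) = 0 := by
        rw [← mul_assoc, ← hxu, mul_sub, h1, h2, sub_self]
      exact (hu.mul_right_eq_zero).1 h3
    · rintro ⟨Q, hQ⟩ ⟨Q', hQ'⟩ hQQ
      simp only [Prod.mk.injEq, Subtype.mk.injEq] at hQQ
      obtain ⟨h1, h2⟩ := hQQ
      rw [h1] at h2
      exact Subtype.ext (Prod.ext h1 (sub_left_inj.1 h2))
  refine hinj.trans ?_
  rw [Nat.card_prod, h.card_ideal b hb, h.card_ann (hia.trans ha.le), pow_add]
  exact Nat.mul_le_mul_left _ (Nat.pow_le_pow_right hq hia)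

lemma IsChain.card_par_le (h : IsChain R π q k) {a b : ℕ} (ha : a ≤ k) (hb : b ≤ k) {x y : R}
    (hxy : a < k → ¬ (π ^ (a + 1) ∣ x ∧ π ^ (a + 1) ∣ y)) :
    Nat.card {Q : R × R // (π ^ b ∣ Q.1 ∧ π ^ b ∣ Q.2) ∧ x * Q.2 = y * Q.1} ≤
      q ^ (k - b + a) := by
  have := h.fin
  have hq : 0 < q := by have := h.q_pos; omega
  rcases eq_or_lt_of_le ha with rfl | ha
  · have hinj : Nat.card {Q : R × R // (π ^ b ∣ Q.1 ∧ π ^ b ∣ Q.2) ∧ x * Q.2 = y * Q.1} ≤
        Nat.card ({z : R // π ^ b ∣ z} × {z : R // π ^ b ∣ z}) := by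
      refine Nat.card_le_card_of_injective
        (fun Q => (⟨Q.1.1, Q.2.1.1⟩, ⟨Q.1.2, Q.2.1.2⟩)) ?_
      rintro ⟨Q, hQ⟩ ⟨Q', hQ'⟩ hQQ
      simp only [Prod.mk.injEq, Subtype.mk.injEq] at hQQ
      exact Subtype.ext (Prod.ext hQQ.1 hQQ.2)
    refine hinj.trans ?_
    rw [Nat.card_prod, h.card_ideal b hb, ← pow_add]
    exact Nat.pow_le_pow_right hq (by omega)
  · rcases not_and_or.1 (hxy ha) with h1 | h1
    · exact h.card_par_le_aux ha hb h1
    · have h2 := h.card_par_le_aux (y := x) ha hb h1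
      refine le_trans (le_of_eq ?_) h2
      refine Nat.card_congr ((Equiv.prodComm R R).subtypeEquiv fun Q => ?_)
      simp only [Equiv.prodComm_apply, Prod.fst_swap, Prod.snd_swap]
      constructor
      · rintro ⟨⟨h3, h4⟩, h5⟩
        exact ⟨⟨h4, h3⟩, h5.symm⟩
      · rintro ⟨⟨h3, h4⟩, h5⟩
        exact ⟨⟨h4, h3⟩, h5.symm⟩

end chain

section valuation

variable {R : Type} [CommRing R] {π : R} {q k : ℕ}

open Classical in
/-- valuation of a vector -/
noncomputable def vval (π : R) (k : ℕ) (P : R × R) : ℕ :=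
  Nat.findGreatest (fun a => π ^ a ∣ P.1 ∧ π ^ a ∣ P.2) k

lemma vval_le (P : R × R) : vval π k P ≤ k := by
  classical
  exact Nat.findGreatest_le k

lemma vval_spec (P : R × R) : π ^ (vval π k P) ∣ P.1 ∧ π ^ (vval π k P) ∣ P.2 := by
  classical
  exact Nat.findGreatest_spec (P := fun a => π ^ a ∣ P.1 ∧ π ^ a ∣ P.2) (Nat.zero_le k)
    (by simp)

lemma vval_max (P : R × R) (h : vval π k P < k) :
    ¬ (π ^ (vval π k P + 1) ∣ P.1 ∧ π ^ (vval π k P + 1) ∣ P.2) := by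
  classical
  exact Nat.findGreatest_is_greatest (P := fun a => π ^ a ∣ P.1 ∧ π ^ a ∣ P.2)
    (Nat.lt_succ_self _) h

lemma exists_injOn_fin {α : Type} [Finite α] {N : ℕ} (hN : 0 < N) (p : α → Prop)
    (h : Nat.card {x // p x} ≤ N) :
    ∃ f : α → Fin N, ∀ x y, p x → p y → f x = f y → x = y := by
  classical
  refine ⟨fun x => if hx : p x then Fin.castLE h (Finite.equivFin {x // p x} ⟨x, hx⟩)
    else ⟨0, hN⟩, fun x y hx hy hxy => ?_⟩
  simp only [dif_pos hx, dif_pos hy] at hxy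
  exact congrArg Subtype.val
    ((Finite.equivFin {x // p x}).injective (Fin.castLE_injective h hxy))

/-- exponents of the forest bound -/
def fexp {V : Type} (k : ℕ) (p : V → Option V) (a : V → ℕ) (v : V) : ℕ :=
  (p v).elim (2 * (k - a v)) (fun u => k - a v + a u)

/-- configurations with prescribed valuations satisfying the relations of a forest -/
def ForestConf {V : Type} (π : R) (k : ℕ) (p : V → Option V) (a : V → ℕ) : Type :=
  {P : V → R × R // (∀ v, vval π k (P v) = a v) ∧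
    ∀ v u, p v = some u → (P u).1 * (P v).2 = (P u).2 * (P v).1}

lemma forest_code (h : IsChain R π q k) {V : Type} (p : V → Option V) (a : V → ℕ) (v : V)
    (hav : a v ≤ k) :
    ∃ code : (V → R × R) → Fin (q ^ fexp k p a v),
      ∀ P P' : ForestConf π k p a, (∀ u, p v = some u → P.1 u = P'.1 u) →
        code P.1 = code P'.1 → P.1 v = P'.1 v := by
  classical
  have := h.fin
  have hq : 0 < q := by have := h.q_pos; omega
  cases hpv : p v with
  | none =>
    have hc : Nat.card {Q : R × R // π ^ (a v) ∣ Q.1 ∧ π ^ (a v) ∣ Q.2} ≤ q ^ fexp k p a v := by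
      have h1 : Nat.card {Q : R × R // π ^ (a v) ∣ Q.1 ∧ π ^ (a v) ∣ Q.2} ≤
          Nat.card ({z : R // π ^ (a v) ∣ z} × {z : R // π ^ (a v) ∣ z}) := by
        refine Nat.card_le_card_of_injective (fun Q => (⟨Q.1.1, Q.2.1⟩, ⟨Q.1.2, Q.2.2⟩)) ?_
        rintro ⟨Q, hQ⟩ ⟨Q', hQ'⟩ hQQ
        simp only [Prod.mk.injEq, Subtype.mk.injEq] at hQQ
        exact Subtype.ext (Prod.ext hQQ.1 hQQ.2)
      refine h1.trans ?_
      rw [Nat.card_prod, h.card_ideal _ hav, ← pow_add]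
      unfold fexp
      rw [hpv]
      simp [two_mul]
    obtain ⟨f, hf⟩ := exists_injOn_fin (pow_pos hq _) _ hc
    refine ⟨fun P => f (P v), fun P P' _ hPP => hf _ _ ?_ ?_ hPP⟩
    · rw [← P.2.1 v]; exact vval_spec _
    · rw [← P'.2.1 v]; exact vval_spec _
  | some u =>
    have hcode : ∀ x : R × R, ∃ f : R × R → Fin (q ^ fexp k p a v), vval π k x = a u →
        ∀ Q Q' : R × R, ((π ^ (a v) ∣ Q.1 ∧ π ^ (a v) ∣ Q.2) ∧ x.1 * Q.2 = x.2 * Q.1) →
          ((π ^ (a v) ∣ Q'.1 ∧ π ^ (a v) ∣ Q'.2) ∧ x.1 * Q'.2 = x.2 * Q'.1) →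
          f Q = f Q' → Q = Q' := by
      intro x
      by_cases hx : vval π k x = a u
      · have h1 := h.card_par_le (a := a u) (b := a v) (x := x.1) (y := x.2)
          (by rw [← hx]; exact vval_le _) hav (by
            intro h2
            rw [← hx] at h2 ⊢
            exact vval_max x h2)
        have h2 : q ^ (k - a v + a u) = q ^ fexp k p a v := by
          unfold fexp
          rw [hpv]
          simp
        rw [h2] at h1
        obtain ⟨f, hf⟩ := exists_injOn_fin (pow_pos hq _) _ h1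
        exact ⟨f, fun _ => hf⟩
      · exact ⟨fun _ => ⟨0, pow_pos hq _⟩, fun h => absurd h hx⟩
    choose f hf using hcode
    refine ⟨fun P => f (P u) (P v), fun P P' hu hPP => ?_⟩
    have h1 : P.1 u = P'.1 u := hu u rfl
    have hPP2 : f (P.1 u) (P.1 v) = f (P'.1 u) (P'.1 v) := hPP
    rw [← h1] at hPP2
    refine hf (P.1 u) (P.2.1 u) _ _ ⟨?_, P.2.2 v u hpv⟩ ⟨?_, ?_⟩ hPP2
    · rw [← P.2.1 v]; exact vval_spec _
    · rw [← P'.2.1 v]; exact vval_spec _
    · rw [h1]; exact P'.2.2 v u hpv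

/-- The forest bound. -/
lemma forest_bound (h : IsChain R π q k) {V : Type} [Fintype V] (p : V → Option V)
    (rank : V → ℕ) (hrank : ∀ v u, p v = some u → rank u < rank v) (a : V → ℕ)
    (ha : ∀ v, a v ≤ k) :
    Nat.card (ForestConf π k p a) ≤ q ^ ∑ v, fexp k p a v := by
  classical
  have := h.fin
  choose code hcode using fun v => forest_code h p a v (ha v)
  have hinj : Function.Injective
      (fun (P : ForestConf π k p a) (v : V) => code v P.1) := by
    intro P P' hPP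
    have hv : ∀ n : ℕ, ∀ v, rank v = n → P.1 v = P'.1 v := by
      intro n
      induction n using Nat.strong_induction_on with
      | _ n ih =>
        intro v hv
        refine hcode v P P' (fun u hu => ih (rank u) ?_ u rfl) (congrFun hPP v)
        rw [← hv]; exact hrank v u hu
    exact Subtype.ext (funext fun v => hv _ v rfl)
  have h1 := Nat.card_le_card_of_injective _ hinj
  refine h1.trans (le_of_eq ?_)
  rw [Nat.card_pi, ← Finset.prod_pow_eq_pow_sum]
  refine Finset.prod_congr rfl fun v _ => ?_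
  simp

end valuation

section nine

instance : DecidableRel graph9.Adj := fun u v =>
  inferInstanceAs (Decidable ((u, v) ∈ edges9 ∨ (v, u) ∈ edges9))

lemma card_edge9 : Nat.card (Edge graph9) = 11 := by
  have : Nat.card (Edge graph9) =
      Nat.card {e : Fin 9 × Fin 9 // e.1 < e.2 ∧ ((e.1, e.2) ∈ edges9 ∨ (e.2, e.1) ∈ edges9)} := rfl
  rw [this, Nat.card_eq_fintype_card]
  decide

variable {R : Type} [CommRing R] {π : R} {q k : ℕ}

/-- parent functions of the three forests -/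
def par1 : Fin 9 → Option (Fin 9) :=
  ![none, some 0, some 0, some 6, some 1, some 4, some 1, some 4, some 5]
def par2 : Fin 9 → Option (Fin 9) :=
  ![none, some 0, some 0, some 2, some 1, some 2, some 3, some 4, some 5]
def par3 : Fin 9 → Option (Fin 9) :=
  ![none, some 6, some 0, some 2, none, some 3, some 3, some 4, some 5]
def rank1 : Fin 9 → ℕ := ![0, 1, 1, 3, 2, 3, 2, 3, 4]
def rank2 : Fin 9 → ℕ := ![0, 1, 1, 2, 2, 2, 3, 3, 3]
def rank3 : Fin 9 → ℕ := ![0, 4, 1, 2, 0, 3, 3, 1, 4]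

/-- configurations with prescribed valuations -/
def PatConf (π : R) (k : ℕ) (a : Fin 9 → ℕ) : Type :=
  {P : Par graph9 R // ∀ v, vval π k (P.1 v) = a v}

lemma patConf_le (h : IsChain R π q k) (p : Fin 9 → Option (Fin 9)) (rank : Fin 9 → ℕ)
    (hrank : ∀ v u, p v = some u → rank u < rank v)
    (hadj : ∀ v u, p v = some u → graph9.Adj u v)
    (a : Fin 9 → ℕ) (ha : ∀ v, a v ≤ k) :
    Nat.card (PatConf π k a) ≤ q ^ ∑ v, fexp k p a v := by
  have := h.fin
  have : Finite (ForestConf π k p a) := by unfold ForestConf; infer_instance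
  refine le_trans ?_ (forest_bound h p rank hrank a ha)
  refine Nat.card_le_card_of_injective
    (fun P => (⟨P.1.1, P.2, fun v u hvu => P.1.2 u v (hadj v u hvu)⟩ : ForestConf π k p a)) ?_
  rintro ⟨⟨P, h1⟩, h2⟩ ⟨⟨P', h1'⟩, h2'⟩ hPP
  have h3 : P = P' := congrArg Subtype.val hPP
  subst h3
  rfl

lemma patConf_cube (h : IsChain R π q k) (a : Fin 9 → ℕ) (ha : ∀ v, a v ≤ k) :
    Nat.card (PatConf π k a) ^ 3 ≤ q ^ (31 * k) := by
  have h1 := patConf_le h par1 rank1 (by decide) (by decide) a ha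
  have h2 := patConf_le h par2 rank2 (by decide) (by decide) a ha
  have h3 := patConf_le h par3 rank3 (by decide) (by decide) a ha
  have hq : 0 < q := by have := h.q_pos; omega
  have h4 : Nat.card (PatConf π k a) ^ 3 ≤
      q ^ (∑ v, fexp k par1 a v) * q ^ (∑ v, fexp k par2 a v) * q ^ (∑ v, fexp k par3 a v) := by
    calc Nat.card (PatConf π k a) ^ 3 = Nat.card (PatConf π k a) * Nat.card (PatConf π k a) *
          Nat.card (PatConf π k a) := by ring
      _ ≤ _ := Nat.mul_le_mul (Nat.mul_le_mul h1 h2) h3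
  refine h4.trans ?_
  rw [← pow_add, ← pow_add]
  refine Nat.pow_le_pow_right hq ?_
  have e0 := ha 0
  have e1 := ha 1
  have e2 := ha 2
  have e3 := ha 3
  have e4 := ha 4
  have e5 := ha 5
  have e6 := ha 6
  have e7 := ha 7
  have e8 := ha 8
  simp only [Fin.sum_univ_succ, Fin.sum_univ_zero, fexp, par1, par2, par3]
  simp
  omega


/-- splitting configurations according to their valuations -/
lemma card_par_le_sum (h : IsChain R π q k) :
    (Nat.card (Par graph9 R) : ℝ) ≤ ((k : ℝ) + 1) ^ 9 * (q : ℝ) ^ ((31 : ℝ) / 3 * k) := by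
  classical
  have := h.fin
  have hq0 : (0 : ℝ) < q := by have := h.q_pos; exact_mod_cast (by omega : 0 < q)
  have hfp : Finite (Par graph9 R) := by unfold Par; infer_instance
  have hfpat : ∀ a : Fin 9 → ℕ, Finite (PatConf (R := R) π k a) := fun a => by
    unfold PatConf; infer_instance
  let e : Par graph9 R → Σ a : Fin 9 → Fin (k + 1), PatConf (R := R) π k (fun v => (a v : ℕ)) :=
    fun P => ⟨fun v => ⟨vval π k (P.1 v), Nat.lt_succ_of_le (vval_le _)⟩, ⟨P, fun v => rfl⟩⟩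
  have he : Function.Injective e := by
    intro P P' hPP
    have : (fun t : Σ a : Fin 9 → Fin (k + 1), PatConf (R := R) π k (fun v => (a v : ℕ)) =>
      t.2.1) (e P) = (fun t : Σ a : Fin 9 → Fin (k + 1),
        PatConf (R := R) π k (fun v => (a v : ℕ)) => t.2.1) (e P') := by rw [hPP]
    exact this
  have h1 := Nat.card_le_card_of_injective e he
  rw [Nat.card_sigma] at h1
  have h2 : ∀ a : Fin 9 → Fin (k + 1),
      (Nat.card (PatConf (R := R) π k (fun v => (a v : ℕ))) : ℝ) ≤ (q : ℝ) ^ ((31 : ℝ) / 3 * k) := by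
    intro a
    have h3 := patConf_cube h (fun v => (a v : ℕ)) (fun v => Nat.lt_succ_iff.1 (a v).2)
    have h4 : ((Nat.card (PatConf (R := R) π k (fun v => (a v : ℕ))) : ℝ)) ^ 3 ≤
        (q : ℝ) ^ (31 * k) := by exact_mod_cast h3
    have h5 : ((q : ℝ) ^ ((31 : ℝ) / 3 * k)) ^ 3 = (q : ℝ) ^ (31 * k) := by
      rw [← Real.rpow_natCast, ← Real.rpow_mul hq0.le, ← Real.rpow_natCast]
      congr 1
      push_cast
      ring
    rw [← h5] at h4
    exact le_of_pow_le_pow_left₀ (by norm_num) (Real.rpow_nonneg hq0.le _) h4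
  calc (Nat.card (Par graph9 R) : ℝ) ≤
      ((∑ a : Fin 9 → Fin (k + 1), Nat.card (PatConf (R := R) π k (fun v => (a v : ℕ))) : ℕ) : ℝ) := by
        exact_mod_cast h1
    _ = ∑ a : Fin 9 → Fin (k + 1), (Nat.card (PatConf (R := R) π k (fun v => (a v : ℕ))) : ℝ) := by
        push_cast; rfl
    _ ≤ ∑ _a : Fin 9 → Fin (k + 1), (q : ℝ) ^ ((31 : ℝ) / 3 * k) :=
        Finset.sum_le_sum fun a _ => h2 a
    _ = _ := by
        rw [Finset.sum_const, nsmul_eq_mul, Finset.card_univ, Fintype.card_fun, Fintype.card_fin,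
          Fintype.card_fin]
        push_cast
        rfl

/-- the explicit family of configurations -/
def build (z1 th s3 s2 z7 w7 s4 : R) (c5 c6 QA QB : R × R) : Fin 9 → R × R :=
  ![(1 + z1, (1 + z1) * th), (s2, s2 * th), (s3, s3 * th), (s4, s4 * (th + w7)), c5, c6,
    (1 + z7, (1 + z7) * (th + w7)), QA, QB]

lemma par_of_edges {P : Fin 9 → R × R}
    (h : ∀ e ∈ edges9, (P e.1).1 * (P e.2).2 = (P e.1).2 * (P e.2).1) :
    ∀ u v, graph9.Adj u v → (P u).1 * (P v).2 = (P u).2 * (P v).1 := by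
  rintro u v (huv | huv)
  · exact h _ huv
  · have := h _ huv
    simp only at this
    linear_combination -this

lemma mul_zero_of_dvd (h : IsChain R π q k) {a b : ℕ} (hab : k ≤ a + b) {x y : R}
    (hx : π ^ a ∣ x) (hy : π ^ b ∣ y) : x * y = 0 := by
  obtain ⟨x', rfl⟩ := hx
  obtain ⟨y', rfl⟩ := hy
  obtain ⟨j, hj⟩ := Nat.exists_eq_add_of_le hab
  have : π ^ a * π ^ b = 0 := by rw [← pow_add, hj, pow_add, h.pow_zero, zero_mul]
  linear_combination x' * y' * this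

lemma build_mem {m : ℕ} (h : IsChain R π q (3 * m)) (z1 th s3 s2 z7 w7 s4 : R)
    (c5 c6 QA QB : R × R) (hs3 : π ^ m ∣ s3) (hs2 : π ^ (2 * m) ∣ s2) (hw7 : π ^ m ∣ w7)
    (hs4 : π ^ m ∣ s4) (hc5 : π ^ m ∣ c5.1 ∧ π ^ m ∣ c5.2)
    (hc6 : π ^ (2 * m) ∣ c6.1 ∧ π ^ (2 * m) ∣ c6.2)
    (hQA : c5.1 * QA.2 = c5.2 * QA.1) (hQB : c6.1 * QB.2 = c6.2 * QB.1) :
    ∀ u v, graph9.Adj u v → (build z1 th s3 s2 z7 w7 s4 c5 c6 QA QB u).1 *
      (build z1 th s3 s2 z7 w7 s4 c5 c6 QA QB v).2 =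
      (build z1 th s3 s2 z7 w7 s4 c5 c6 QA QB u).2 *
      (build z1 th s3 s2 z7 w7 s4 c5 c6 QA QB v).1 := by
  apply par_of_edges
  have a1 : s2 * c5.1 = 0 := mul_zero_of_dvd h (by omega) hs2 hc5.1
  have a2 : s2 * c5.2 = 0 := mul_zero_of_dvd h (by omega) hs2 hc5.2
  have a3 : s2 * w7 = 0 := mul_zero_of_dvd h (by omega) hs2 hw7
  have a4 : (s3 * s4) * w7 = 0 := mul_zero_of_dvd h (a := 2 * m) (b := m) (by omega)
    (by rw [two_mul, pow_add]; exact mul_dvd_mul hs3 hs4) hw7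
  have a5 : s3 * c6.1 = 0 := mul_zero_of_dvd h (by omega) hs3 hc6.1
  have a6 : s3 * c6.2 = 0 := mul_zero_of_dvd h (by omega) hs3 hc6.2
  have a7 : s4 * c6.1 = 0 := mul_zero_of_dvd h (by omega) hs4 hc6.1
  have a8 : s4 * c6.2 = 0 := mul_zero_of_dvd h (by omega) hs4 hc6.2
  have a9 : c5.1 * c6.2 = 0 := mul_zero_of_dvd h (by omega) hc5.1 hc6.2
  have a10 : c5.2 * c6.1 = 0 := mul_zero_of_dvd h (by omega) hc5.2 hc6.1
  intro e he
  simp only [edges9, List.mem_cons, List.not_mem_nil, or_false] at he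
  rcases he with rfl | rfl | rfl | rfl | rfl | rfl | rfl | rfl | rfl | rfl | rfl
  · show (1 + z1) * (s2 * th) = (1 + z1) * th * s2
    ring
  · show (1 + z1) * (s3 * th) = (1 + z1) * th * s3
    ring
  · show s2 * c5.2 = s2 * th * c5.1
    linear_combination a2 - th * a1
  · show s2 * ((1 + z7) * (th + w7)) = s2 * th * (1 + z7)
    linear_combination (1 + z7) * a3
  · show s3 * (s4 * (th + w7)) = s3 * th * s4
    linear_combination a4
  · show s3 * c6.2 = s3 * th * c6.1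
    linear_combination a6 - th * a5
  · show s4 * c6.2 = s4 * (th + w7) * c6.1
    linear_combination a8 - (th + w7) * a7
  · show s4 * ((1 + z7) * (th + w7)) = s4 * (th + w7) * (1 + z7)
    ring
  · show c5.1 * c6.2 = c5.2 * c6.1
    linear_combination a9 - a10
  · exact hQA
  · exact hQB

lemma isUnit_one_add (h : IsChain R π q k) {z : R} (hz : π ^ 1 ∣ z) : IsUnit (1 + z) := by
  have : IsNilpotent z := by
    obtain ⟨y, rfl⟩ := hz
    exact ⟨k, by rw [pow_one, mul_pow, h.pow_zero, zero_mul]⟩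
  exact this.isUnit_one_add

lemma build_inj (h : IsChain R π q k) {z1 th s3 s2 z7 w7 s4 z1' th' s3' s2' z7' w7' s4' : R}
    {c5 c6 QA QB c5' c6' QA' QB' : R × R} (hz1 : π ^ 1 ∣ z1) (hz7 : π ^ 1 ∣ z7)
    (hb : build z1 th s3 s2 z7 w7 s4 c5 c6 QA QB =
      build z1' th' s3' s2' z7' w7' s4' c5' c6' QA' QB') :
    z1 = z1' ∧ th = th' ∧ s3 = s3' ∧ s2 = s2' ∧ z7 = z7' ∧ w7 = w7' ∧ s4 = s4' ∧ c5 = c5' ∧
      c6 = c6' ∧ QA = QA' ∧ QB = QB' := by
  have b0 := congrFun hb 0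
  have b1 := congrFun hb 1
  have b2 := congrFun hb 2
  have b3 := congrFun hb 3
  have b4 := congrFun hb 4
  have b5 := congrFun hb 5
  have b6 := congrFun hb 6
  have b7 := congrFun hb 7
  have b8 := congrFun hb 8
  have c0 : (1 + z1, (1 + z1) * th) = (1 + z1', (1 + z1') * th') := b0
  have c1 : (s2, s2 * th) = (s2', s2' * th') := b1
  have c2 : (s3, s3 * th) = (s3', s3' * th') := b2
  have c3 : (s4, s4 * (th + w7)) = (s4', s4' * (th' + w7')) := b3
  have c6 : (1 + z7, (1 + z7) * (th + w7)) = (1 + z7', (1 + z7') * (th' + w7')) := b6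
  simp only [Prod.mk.injEq] at c0 c1 c2 c3 c6
  have hz : z1 = z1' := add_left_cancel c0.1
  subst hz
  have hth : th = th' := (isUnit_one_add h hz1).mul_left_cancel c0.2
  subst hth
  have hzz : z7 = z7' := add_left_cancel c6.1
  subst hzz
  have hww : w7 = w7' := add_left_cancel ((isUnit_one_add h hz7).mul_left_cancel c6.2)
  exact ⟨rfl, rfl, c2.1, c1.1, rfl, hww, c3.1, b4, b5, b7, b8⟩

/-- ideal elements -/
abbrev Mid (R : Type) [CommRing R] (π : R) (a : ℕ) : Type := {z : R // π ^ a ∣ z}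

/-- pairs `(c, Q)` with `c` divisible by `π ^ a` and `Q` parallel to `c` -/
abbrev CQ (R : Type) [CommRing R] (π : R) (a : ℕ) : Type :=
  Σ c : Mid R π a × Mid R π a, {Q : R × R // c.1.1 * Q.2 = c.2.1 * Q.1}

lemma card_CQ (h : IsChain R π q k) {a : ℕ} (ha : a ≤ k) :
    q ^ (k - a) * q ^ (k - a) * q ^ (k + a) ≤ Nat.card (CQ R π a) := by
  classical
  have := h.fin
  have : Fintype (Mid R π a × Mid R π a) := Fintype.ofFinite _
  rw [Nat.card_sigma]
  calc q ^ (k - a) * q ^ (k - a) * q ^ (k + a)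
      = ∑ _c : Mid R π a × Mid R π a, q ^ (k + a) := by
        rw [Finset.sum_const, Finset.card_univ, ← Nat.card_eq_fintype_card, Nat.card_prod,
          h.card_ideal a ha, smul_eq_mul]
    _ ≤ _ := Finset.sum_le_sum fun c _ => h.card_par_ge ha c.1.2 c.2.2

lemma card_par_ge_family {m : ℕ} (hm : 1 ≤ m) (h : IsChain R π q (3 * m)) :
    q ^ (31 * m) ≤ q ^ 2 * Nat.card (Par graph9 R) := by
  classical
  have := h.fin
  have hfp : Finite (Par graph9 R) := by unfold Par; infer_instance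
  let T := Mid R π 1 × R × Mid R π m × Mid R π (2 * m) × Mid R π 1 × Mid R π m × Mid R π m ×
    CQ R π m × CQ R π (2 * m)
  let f : T → Par graph9 R := fun t => match t with
    | (z1, th, s3, s2, z7, w7, s4, cA, cB) =>
      ⟨build z1.1 th s3.1 s2.1 z7.1 w7.1 s4.1 (cA.1.1.1, cA.1.2.1) (cB.1.1.1, cB.1.2.1)
        cA.2.1 cB.2.1, build_mem h z1.1 th s3.1 s2.1 z7.1 w7.1 s4.1 (cA.1.1.1, cA.1.2.1)
        (cB.1.1.1, cB.1.2.1) cA.2.1 cB.2.1 s3.2 s2.2 w7.2 s4.2 ⟨cA.1.1.2, cA.1.2.2⟩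
        ⟨cB.1.1.2, cB.1.2.2⟩ cA.2.2 cB.2.2⟩
  have hf : Function.Injective f := by
    rintro ⟨z1, th, s3, s2, z7, w7, s4, ⟨⟨cA1, cA2⟩, QA⟩, ⟨⟨cB1, cB2⟩, QB⟩⟩
      ⟨z1', th', s3', s2', z7', w7', s4', ⟨⟨cA1', cA2'⟩, QA'⟩, ⟨⟨cB1', cB2'⟩, QB'⟩⟩ htt
    have hb := congrArg Subtype.val htt
    obtain ⟨e1, e2, e3, e4, e5, e6, e7, e8, e9, e10, e11⟩ := build_inj h z1.2 z7.2 hb
    obtain ⟨z1, hz1⟩ := z1
    obtain ⟨s3, hs3⟩ := s3
    obtain ⟨s2, hs2⟩ := s2
    obtain ⟨z7, hz7⟩ := z7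
    obtain ⟨w7, hw7⟩ := w7
    obtain ⟨s4, hs4⟩ := s4
    obtain ⟨cA1, hcA1⟩ := cA1
    obtain ⟨cA2, hcA2⟩ := cA2
    obtain ⟨cB1, hcB1⟩ := cB1
    obtain ⟨cB2, hcB2⟩ := cB2
    obtain ⟨QA, hQA⟩ := QA
    obtain ⟨QB, hQB⟩ := QB
    obtain ⟨z1', hz1'⟩ := z1'
    obtain ⟨s3', hs3'⟩ := s3'
    obtain ⟨s2', hs2'⟩ := s2'
    obtain ⟨z7', hz7'⟩ := z7'
    obtain ⟨w7', hw7'⟩ := w7'
    obtain ⟨s4', hs4'⟩ := s4'
    obtain ⟨cA1', hcA1'⟩ := cA1'
    obtain ⟨cA2', hcA2'⟩ := cA2'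
    obtain ⟨cB1', hcB1'⟩ := cB1'
    obtain ⟨cB2', hcB2'⟩ := cB2'
    obtain ⟨QA', hQA'⟩ := QA'
    obtain ⟨QB', hQB'⟩ := QB'
    simp only [Prod.mk.injEq] at e1 e2 e3 e4 e5 e6 e7 e8 e9 e10 e11
    obtain ⟨e8a, e8b⟩ := e8
    obtain ⟨e9a, e9b⟩ := e9
    subst e1 e2 e3 e4 e5 e6 e7 e8a e8b e9a e9b e10 e11
    rfl
  have h1 := Nat.card_le_card_of_injective f hf
  have h2 : Nat.card T = q ^ (3 * m - 1) * (q ^ (3 * m) * (q ^ (3 * m - m) *
      (q ^ (3 * m - 2 * m) * (q ^ (3 * m - 1) * (q ^ (3 * m - m) * (q ^ (3 * m - m) *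
      (Nat.card (CQ R π m) * Nat.card (CQ R π (2 * m))))))))) := by
    simp only [T, Nat.card_prod]
    rw [h.card_ideal 1 (by omega), h.card_ideal m (by omega), h.card_ideal (2 * m) (by omega),
      h.card]
  have h3 := card_CQ h (a := m) (by omega)
  have h4 := card_CQ h (a := 2 * m) (by omega)
  have h5 : q ^ (3 * m - 1) * (q ^ (3 * m) * (q ^ (3 * m - m) *
      (q ^ (3 * m - 2 * m) * (q ^ (3 * m - 1) * (q ^ (3 * m - m) * (q ^ (3 * m - m) *
      ((q ^ (3 * m - m) * q ^ (3 * m - m) * q ^ (3 * m + m)) *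
      (q ^ (3 * m - 2 * m) * q ^ (3 * m - 2 * m) * q ^ (3 * m + 2 * m))))))))) ≤
      Nat.card (Par graph9 R) := by
    refine le_trans ?_ h1
    rw [h2]
    gcongr
  have h6 : q ^ (31 * m) = q ^ 2 * (q ^ (3 * m - 1) * (q ^ (3 * m) * (q ^ (3 * m - m) *
      (q ^ (3 * m - 2 * m) * (q ^ (3 * m - 1) * (q ^ (3 * m - m) * (q ^ (3 * m - m) *
      ((q ^ (3 * m - m) * q ^ (3 * m - m) * q ^ (3 * m + m)) *
      (q ^ (3 * m - 2 * m) * q ^ (3 * m - 2 * m) * q ^ (3 * m + 2 * m)))))))))) := by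
    simp only [← pow_add]
    congr 1
    omega
  rw [h6]
  exact Nat.mul_le_mul_left _ h5

end nine

open Filter Topology

section analysis

/-- the terms of the series -/
noncomputable def zterm (q : ℕ) (c : ℕ → ℝ) (s : ℂ) (k : ℕ) : ℂ := (c k : ℂ) * (q : ℂ) ^ (-(k : ℂ) * s)

variable {q : ℕ} {c : ℕ → ℝ} {σ₀ : ℝ}

lemma norm_zterm (hq : 2 ≤ q) (hc : ∀ k, 0 ≤ c k) (s : ℂ) (k : ℕ) :
    ‖zterm q c s k‖ = c k * (q : ℝ) ^ (-(k : ℝ) * s.re) := by
  unfold zterm
  rw [norm_mul, Complex.norm_real, Real.norm_of_nonneg (hc k),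
    Complex.norm_natCast_cpow_of_pos (by omega)]
  congr 2
  simp

lemma summable_poly_geom (hq : 2 ≤ q) {ε : ℝ} (hε : 0 < ε) :
    Summable fun k : ℕ => ((k : ℝ) + 1) ^ 9 * (q : ℝ) ^ (-(k : ℝ) * ε) := by
  have hq1 : (1 : ℝ) < q := by exact_mod_cast (by omega : 1 < q)
  have hq0 : (0 : ℝ) < q := by linarith
  set r : ℝ := (q : ℝ) ^ (-ε) with hr
  have hr0 : 0 < r := Real.rpow_pos_of_pos hq0 _
  have hr1 : r < 1 := Real.rpow_lt_one_of_one_lt_of_neg hq1 (by linarith)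
  have h1 : Summable fun k : ℕ => (k : ℝ) ^ 9 * r ^ k :=
    summable_pow_mul_geometric_of_norm_lt_one 9 (by rwa [Real.norm_of_nonneg hr0.le])
  have h2 := (summable_nat_add_iff 1).2 h1
  have h3 := h2.mul_right r⁻¹
  refine h3.congr fun k => ?_
  have h4 : (q : ℝ) ^ (-(k : ℝ) * ε) = r ^ k := by
    rw [hr, ← Real.rpow_natCast, ← Real.rpow_mul hq0.le]
    congr 1
    ring
  rw [h4]
  push_cast
  rw [pow_succ r k]
  field_simp

lemma bound_zterm (hq : 2 ≤ q) (hc : ∀ k, 0 ≤ c k)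
    (hU : ∀ k, c k ≤ ((k : ℝ) + 1) ^ 9 * (q : ℝ) ^ (σ₀ * k)) {s : ℂ} {ε : ℝ}
    (hs : σ₀ + ε ≤ s.re) (k : ℕ) :
    ‖zterm q c s k‖ ≤ ((k : ℝ) + 1) ^ 9 * (q : ℝ) ^ (-(k : ℝ) * ε) := by
  have hq1 : (1 : ℝ) < q := by exact_mod_cast (by omega : 1 < q)
  have hq0 : (0 : ℝ) < q := by linarith
  rw [norm_zterm hq hc]
  calc c k * (q : ℝ) ^ (-(k : ℝ) * s.re)
      ≤ (((k : ℝ) + 1) ^ 9 * (q : ℝ) ^ (σ₀ * k)) * (q : ℝ) ^ (-(k : ℝ) * s.re) :=
        mul_le_mul_of_nonneg_right (hU k) (Real.rpow_nonneg hq0.le _)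
    _ = ((k : ℝ) + 1) ^ 9 * (q : ℝ) ^ (σ₀ * k + -(k : ℝ) * s.re) := by
        rw [mul_assoc, ← Real.rpow_add hq0]
    _ ≤ ((k : ℝ) + 1) ^ 9 * (q : ℝ) ^ (-(k : ℝ) * ε) := by
        refine mul_le_mul_of_nonneg_left (Real.rpow_le_rpow_of_exponent_le hq1.le ?_)
          (by positivity)
        nlinarith [(Nat.cast_nonneg k : (0 : ℝ) ≤ k)]

lemma summable_zterm (hq : 2 ≤ q) (hc : ∀ k, 0 ≤ c k)
    (hU : ∀ k, c k ≤ ((k : ℝ) + 1) ^ 9 * (q : ℝ) ^ (σ₀ * k)) {s : ℂ} (hs : σ₀ < s.re) :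
    Summable (zterm q c s) := by
  refine Summable.of_norm_bounded (summable_poly_geom hq (ε := s.re - σ₀) (by linarith)) ?_
  intro k
  exact bound_zterm hq hc hU (by linarith) k

lemma analyticOn_F (hq : 2 ≤ q) (hc : ∀ k, 0 ≤ c k)
    (hU : ∀ k, c k ≤ ((k : ℝ) + 1) ^ 9 * (q : ℝ) ^ (σ₀ * k)) {s : ℂ} (hs : σ₀ < s.re) :
    AnalyticAt ℂ (fun s => ∑' k, zterm q c s k) s := by
  set ε := (s.re - σ₀) / 2 with hε
  have hε0 : 0 < ε := by rw [hε]; linarith
  have hopen : IsOpen {z : ℂ | σ₀ + ε < z.re} := isOpen_lt continuous_const Complex.continuous_re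
  have hdiff : DifferentiableOn ℂ (fun s => ∑' k, zterm q c s k) {z : ℂ | σ₀ + ε < z.re} := by
    refine Complex.differentiableOn_tsum_of_summable_norm (summable_poly_geom hq hε0) ?_ hopen ?_
    · intro k
      unfold zterm
      have hq0 : (q : ℂ) ≠ 0 := by exact_mod_cast (by omega : q ≠ 0)
      refine DifferentiableOn.const_mul ?_ _
      intro z _
      refine DifferentiableAt.differentiableWithinAt ?_
      exact (((differentiableAt_id).const_mul _)).const_cpow (Or.inl hq0)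
    · intro k z hz
      exact bound_zterm hq hc hU (le_of_lt hz) k
  exact hdiff.analyticAt (hopen.mem_nhds (by simp only [Set.mem_ofPred_eq]; rw [hε]; linarith))

lemma F_large (hq : 2 ≤ q) (hc : ∀ k, 0 ≤ c k)
    (hU : ∀ k, c k ≤ ((k : ℝ) + 1) ^ 9 * (q : ℝ) ^ (σ₀ * k)) {δ : ℝ} (hδ : 0 < δ)
    (hL : ∀ m : ℕ, 1 ≤ m → δ * (q : ℝ) ^ (σ₀ * (3 * m : ℕ)) ≤ c (3 * m)) (B : ℝ) :
    ∀ᶠ x : ℝ in 𝓝[>] σ₀, B < ‖∑' k, zterm q c (x : ℂ) k‖ := by
  have hq1 : (1 : ℝ) < q := by exact_mod_cast (by omega : 1 < q)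
  have hq0 : (0 : ℝ) < q := by linarith
  obtain ⟨M, hM⟩ := exists_nat_gt (B / δ * 2)
  -- continuity at `σ₀` of the partial sum
  have hcont : Tendsto (fun x : ℝ => ∑ m ∈ Finset.Icc 1 M,
      δ * (q : ℝ) ^ (-((3 * m : ℕ) : ℝ) * (x - σ₀))) (𝓝[>] σ₀) (𝓝 (M * δ)) := by
    have h1 : Tendsto (fun x : ℝ => ∑ m ∈ Finset.Icc 1 M,
        δ * (q : ℝ) ^ (-((3 * m : ℕ) : ℝ) * (x - σ₀))) (𝓝 σ₀)
        (𝓝 (∑ m ∈ Finset.Icc 1 M, δ * (q : ℝ) ^ (-((3 * m : ℕ) : ℝ) * (σ₀ - σ₀)))) := by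
      refine Continuous.tendsto ?_ σ₀
      refine continuous_finsetSum _ fun m _ => ?_
      refine Continuous.const_mul ?_ _
      exact (continuous_const.rpow (by fun_prop) (fun _ => Or.inl hq0.ne'))
    have h2 : (∑ m ∈ Finset.Icc 1 M, δ * (q : ℝ) ^ (-((3 * m : ℕ) : ℝ) * (σ₀ - σ₀))) = M * δ := by
      simp
    rw [h2] at h1
    exact h1.mono_left nhdsWithin_le_nhds
  have hMB : B < M * δ := by
    rcases le_or_gt B 0 with hB | hB
    · rcases Nat.eq_zero_or_pos M with h0 | h0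
      · subst h0
        have : B / δ * 2 < 0 := by simpa using hM
        have : B / δ < 0 := by linarith
        have : B < 0 := by
          rcases div_neg_iff.1 this with h | h
          · linarith [h.2]
          · exact h.1
        simpa using this
      · have : (0 : ℝ) < M * δ := by positivity
        linarith
    · have h1 : B / δ < M := by
        have : 0 < B / δ := div_pos hB hδ
        linarith
      rwa [div_lt_iff₀ hδ] at h1
  filter_upwards [hcont.eventually (lt_mem_nhds hMB), self_mem_nhdsWithin] with x hx hxσ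
  refine lt_of_lt_of_le hx ?_
  have hxσ' : σ₀ < x := hxσ
  have hsum : Summable (zterm q c (x : ℂ)) := summable_zterm hq hc hU (by simpa using hxσ')
  have hreal : ∀ k, zterm q c (x : ℂ) k = ((c k * (q : ℝ) ^ (-(k : ℝ) * x) : ℝ) : ℂ) := by
    intro k
    unfold zterm
    push_cast
    rw [Complex.ofReal_cpow hq0.le]
    push_cast
    rfl
  have hsumr : Summable fun k : ℕ => c k * (q : ℝ) ^ (-(k : ℝ) * x) := by
    have : Summable fun k : ℕ => ((c k * (q : ℝ) ^ (-(k : ℝ) * x) : ℝ) : ℂ) :=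
      hsum.congr fun k => hreal k
    exact Complex.summable_ofReal.1 this
  have hnn : ∀ k, 0 ≤ c k * (q : ℝ) ^ (-(k : ℝ) * x) := fun k =>
    mul_nonneg (hc k) (Real.rpow_nonneg hq0.le _)
  have hval : ‖∑' k, zterm q c (x : ℂ) k‖ = ∑' k, c k * (q : ℝ) ^ (-(k : ℝ) * x) := by
    rw [tsum_congr hreal, ← Complex.ofReal_tsum, Complex.norm_real,
      Real.norm_of_nonneg (tsum_nonneg hnn)]
  rw [hval]
  have hinj : Set.InjOn (fun m : ℕ => 3 * m) (Finset.Icc 1 M : Finset ℕ) := by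
    intro a _ b _ hab
    simp only at hab
    omega
  calc ∑ m ∈ Finset.Icc 1 M, δ * (q : ℝ) ^ (-((3 * m : ℕ) : ℝ) * (x - σ₀))
      ≤ ∑ m ∈ Finset.Icc 1 M, c (3 * m) * (q : ℝ) ^ (-((3 * m : ℕ) : ℝ) * x) := by
        refine Finset.sum_le_sum fun m hm => ?_
        have h1 := hL m (Finset.mem_Icc.1 hm).1
        have h2 := mul_le_mul_of_nonneg_right h1
          (Real.rpow_nonneg hq0.le (-((3 * m : ℕ) : ℝ) * x))
        refine le_trans (le_of_eq ?_) h2
        rw [mul_assoc, ← Real.rpow_add hq0]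
        congr 2
        ring
    _ = ∑ k ∈ (Finset.Icc 1 M).image (fun m : ℕ => 3 * m),
          c k * (q : ℝ) ^ (-(k : ℝ) * x) := by
        rw [Finset.sum_image hinj]
    _ ≤ _ := hsumr.sum_le_tsum _ fun k _ => hnn k

/-- Every meromorphic continuation has a pole at the abscissa. -/
theorem pole_of_growth (hq : 2 ≤ q) (hc : ∀ k, 0 ≤ c k)
    (hU : ∀ k, c k ≤ ((k : ℝ) + 1) ^ 9 * (q : ℝ) ^ (σ₀ * k)) {δ : ℝ} (hδ : 0 < δ)
    (hL : ∀ m : ℕ, 1 ≤ m → δ * (q : ℝ) ^ (σ₀ * (3 * m : ℕ)) ≤ c (3 * m))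
    {Z : ℂ → ℂ} (hZ : ∀ s, MeromorphicAt Z s) {σ : ℝ}
    (hZσ : ∀ s : ℂ, σ < s.re → HasSum (zterm q c s) (Z s)) :
    meromorphicOrderAt Z (σ₀ : ℂ) < 0 := by
  set F : ℂ → ℂ := fun s => ∑' k, zterm q c s k with hF
  set H : Set ℂ := {z : ℂ | σ₀ < z.re} with hH
  have hopen : IsOpen H := isOpen_lt continuous_const Complex.continuous_re
  have hconv : Convex ℝ H := convex_halfSpace_re_gt σ₀
  have hFan : ∀ s ∈ H, AnalyticAt ℂ F s := fun s hs => analyticOn_F hq hc hU hs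
  have hmer : MeromorphicOn (Z - F) H := fun s hs => (hZ s).sub (hFan s hs).meromorphicAt
  -- order is top at some point
  set x₀ : ℂ := ((max σ σ₀ + 1 : ℝ) : ℂ) with hx₀
  have hx₀H : x₀ ∈ H := by
    simp only [hH, Set.mem_ofPred_eq, hx₀, Complex.ofReal_re]
    have := le_max_right σ σ₀
    linarith
  have htop : meromorphicOrderAt (Z - F) x₀ = ⊤ := by
    rw [meromorphicOrderAt_eq_top_iff]
    have hop : IsOpen {z : ℂ | σ < z.re} := isOpen_lt continuous_const Complex.continuous_re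
    have hmem : {z : ℂ | σ < z.re} ∈ 𝓝 x₀ := hop.mem_nhds (by
      simp only [Set.mem_ofPred_eq, hx₀, Complex.ofReal_re]
      have := le_max_left σ σ₀
      linarith)
    filter_upwards [mem_nhdsWithin_of_mem_nhds hmem] with z hz
    rw [Pi.sub_apply, sub_eq_zero]
    exact (hZσ z hz).tsum_eq.symm
  have hall : ∀ y ∈ H, meromorphicOrderAt (Z - F) y = ⊤ := by
    intro y hy
    by_contra hne
    exact (hmer.meromorphicOrderAt_ne_top_of_isPreconnected hconv.isPreconnected hy hx₀H hne) htop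
  by_contra hcon
  push Not at hcon
  obtain ⟨L, hLim⟩ := tendsto_nhds_of_meromorphicOrderAt_nonneg (hZ σ₀) hcon
  -- `Z` is bounded near `σ₀`
  have hbdd : ∀ᶠ z in 𝓝[≠] (σ₀ : ℂ), ‖Z z‖ < ‖L‖ + 1 := by
    have := hLim.norm
    exact this.eventually (gt_mem_nhds (by linarith))
  rw [eventually_nhdsWithin_iff] at hbdd
  obtain ⟨U, hUsub, hUo, hUmem⟩ := mem_nhds_iff.1 hbdd
  -- choose a real point
  have hlarge := F_large hq hc hU hδ hL (‖L‖ + 1)
  have hxU : ∀ᶠ x : ℝ in 𝓝[>] σ₀, (x : ℂ) ∈ U := by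
    have : Tendsto (fun x : ℝ => (x : ℂ)) (𝓝[>] σ₀) (𝓝 (σ₀ : ℂ)) :=
      (Complex.continuous_ofReal.tendsto σ₀).mono_left nhdsWithin_le_nhds
    exact this.eventually (hUo.mem_nhds hUmem)
  obtain ⟨x, ⟨hx1, hx2⟩, hx3⟩ := ((hlarge.and hxU).and self_mem_nhdsWithin).exists
  have hx3' : σ₀ < x := hx3
  have hxH : (x : ℂ) ∈ H := by simpa [hH] using hx3'
  -- `Z = F` near `x`, and `F` is large near `x`
  have h1 := (meromorphicOrderAt_eq_top_iff).1 (hall _ hxH)
  have h2 : ∀ᶠ z in 𝓝 (x : ℂ), ‖L‖ + 1 < ‖F z‖ :=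
    ((hFan _ hxH).continuousAt.norm).eventually (lt_mem_nhds hx1)
  have h3 : ∀ᶠ z in 𝓝 (x : ℂ), z ∈ U ∩ H := (hUo.inter hopen).mem_nhds ⟨hx2, hxH⟩
  have h4 : ∀ᶠ z in 𝓝[≠] (x : ℂ), (Z - F) z = 0 ∧ ‖L‖ + 1 < ‖F z‖ ∧ z ∈ U ∩ H :=
    h1.and ((h2.filter_mono nhdsWithin_le_nhds).and (h3.filter_mono nhdsWithin_le_nhds))
  obtain ⟨z, hz1, hz2, hz3, hz4⟩ := h4.exists
  have hz5 : Z z = F z := by
    rw [Pi.sub_apply, sub_eq_zero] at hz1
    exact hz1
  have hzne : z ≠ (σ₀ : ℂ) := by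
    intro h
    rw [h] at hz4
    simp [hH] at hz4
  have hz6 : ‖Z z‖ < ‖L‖ + 1 := hUsub hz3 hzne
  rw [hz5] at hz6
  linarith

end analysis


section main

variable (O : Type) [CommRing O] [IsDomain O] [IsDiscreteValuationRing O]
  [Finite (ResidueField O)]

lemma ccNum_eq (k : ℕ) : ccNum graph9 O k =
    Nat.card (ResidueField O) ^ (2 * k) * Nat.card (Par graph9 (O ⧸ maximalIdeal O ^ k)) := by
  obtain ⟨π, hπ⟩ := isChain_quot O
  have h := hπ k
  have := h.fin
  have h1 := card_conjClasses (Γ := graph9) (R := O ⧸ maximalIdeal O ^ k)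
  rw [card_edge9, h.card] at h1
  have hq := h.q_pos
  have h2 : (Nat.card (ResidueField O) ^ k) ^ 11 =
      Nat.card (ResidueField O) ^ (2 * k) * (Nat.card (ResidueField O) ^ k) ^ 9 := by
    rw [← pow_mul, ← pow_mul, ← pow_add]; congr 1; ring
  rw [h2] at h1
  have h3 : ccNum graph9 O k * (Nat.card (ResidueField O) ^ k) ^ 9 =
      (Nat.card (ResidueField O) ^ (2 * k) * Nat.card (Par graph9 (O ⧸ maximalIdeal O ^ k))) *
        (Nat.card (ResidueField O) ^ k) ^ 9 := by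
    unfold ccNum
    rw [h1]; ring
  exact Nat.eq_of_mul_eq_mul_right (pow_pos (pow_pos (by omega) _) _) h3

lemma ccNum_le (k : ℕ) : (ccNum graph9 O k : ℝ) ≤
    ((k : ℝ) + 1) ^ 9 * (Nat.card (ResidueField O) : ℝ) ^ ((37 / 3 : ℝ) * k) := by
  obtain ⟨π, hπ⟩ := isChain_quot O
  have h := hπ k
  have hq := h.q_pos
  have hq0 : (0 : ℝ) < Nat.card (ResidueField O) := by exact_mod_cast (by omega)
  have h1 := card_par_le_sum h
  rw [ccNum_eq]
  push_cast
  calc (Nat.card (ResidueField O) : ℝ) ^ (2 * k) *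
        (Nat.card (Par graph9 (O ⧸ maximalIdeal O ^ k)) : ℝ)
      ≤ (Nat.card (ResidueField O) : ℝ) ^ (2 * k) *
        (((k : ℝ) + 1) ^ 9 * (Nat.card (ResidueField O) : ℝ) ^ ((31 : ℝ) / 3 * k)) :=
        mul_le_mul_of_nonneg_left h1 (by positivity)
    _ = _ := by
        rw [← Real.rpow_natCast, mul_left_comm, ← Real.rpow_add hq0]
        congr 2
        push_cast
        ring

lemma ccNum_ge (m : ℕ) (hm : 1 ≤ m) : ((Nat.card (ResidueField O) : ℝ) ^ 2)⁻¹ *
    (Nat.card (ResidueField O) : ℝ) ^ ((37 / 3 : ℝ) * (3 * m : ℕ)) ≤ ccNum graph9 O (3 * m) := by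
  obtain ⟨π, hπ⟩ := isChain_quot O
  have h := hπ (3 * m)
  have hq := h.q_pos
  have hq0 : (0 : ℝ) < Nat.card (ResidueField O) := by exact_mod_cast (by omega)
  have h1 := card_par_ge_family hm h
  rw [inv_mul_le_iff₀ (by positivity)]
  have h2 : (Nat.card (ResidueField O) : ℝ) ^ ((37 / 3 : ℝ) * (3 * m : ℕ)) =
      (Nat.card (ResidueField O) : ℝ) ^ (2 * (3 * m)) *
        (Nat.card (ResidueField O) : ℝ) ^ (31 * m) := by
    rw [← pow_add, ← Real.rpow_natCast]
    congr 1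
    push_cast
    ring
  rw [h2, ccNum_eq]
  have h3 : (Nat.card (ResidueField O) : ℝ) ^ (31 * m) ≤ (Nat.card (ResidueField O) : ℝ) ^ 2 *
      (Nat.card (Par graph9 (O ⧸ maximalIdeal O ^ (3 * m))) : ℝ) := by exact_mod_cast h1
  push_cast
  calc _ ≤ (Nat.card (ResidueField O) : ℝ) ^ (2 * (3 * m)) *
        ((Nat.card (ResidueField O) : ℝ) ^ 2 *
      (Nat.card (Par graph9 (O ⧸ maximalIdeal O ^ (3 * m))) : ℝ)) :=
        mul_le_mul_of_nonneg_left h3 (by positivity)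
    _ = _ := by ring

theorem pole_graph9 {Z : ℂ → ℂ} (hZ : IsZetaCC graph9 O Z) :
    meromorphicOrderAt Z ((37 / 3 : ℝ) : ℂ) < 0 := by
  obtain ⟨hmer, σ, hσ⟩ := hZ
  have hq : 2 ≤ Nat.card (ResidueField O) := Finite.one_lt_card
  have hq0 : (0 : ℝ) < Nat.card (ResidueField O) := by exact_mod_cast (by omega)
  refine pole_of_growth (q := Nat.card (ResidueField O)) (c := fun k => (ccNum graph9 O k : ℝ))
    (σ₀ := 37 / 3) hq (fun k => Nat.cast_nonneg _) (ccNum_le O)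
    (δ := ((Nat.card (ResidueField O) : ℝ) ^ 2)⁻¹) (by positivity) (ccNum_ge O) hmer (σ := σ) ?_
  intro s hs
  have h1 : zterm (Nat.card (ResidueField O)) (fun k => (ccNum graph9 O k : ℝ)) s =
      fun k : ℕ => (ccNum graph9 O k : ℂ) *
        (Nat.card (ResidueField O) : ℂ) ^ (-(k : ℂ) * s) := by
    funext k
    simp [zterm]
  rw [h1]
  exact hσ s hs

end main

end Pool.Agent.Lib_helper4.GraphicalZeta
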