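import Pool.Agent.Lib_helper4.PiecewiseExp
import Pool.Agent.Lib_helper4.ChainCount

/-!
# Rationality of class counting zeta functions of graphical groups
-/

namespace Pool.Agent.Lib_helper4.GraphicalZeta

open IsLocalRing

section good

variable {N : ℕ}

/-- the domain -/
def dom (N : ℕ) : Set (Option (Fin N) → ℕ) := {x | 1 ≤ x none}

lemma goodOn_of_mem {D : Set (Option (Fin N) → ℕ)} {F : (Option (Fin N) → ℕ) → ℂ}
    (h : F ∈ galg (Option (Fin N))) : GoodOn D F := ⟨F, h, fun _ _ => rfl⟩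

lemma goodOn_prod {D : Set (Option (Fin N) → ℕ)} {α : Type} (s : Finset α)
    {F : α → (Option (Fin N) → ℕ) → ℂ} (h : ∀ i ∈ s, GoodOn D (F i)) :
    GoodOn D (fun x => ∏ i ∈ s, F i x) := by
  classical
  induction s using Finset.induction_on with
  | empty =>
    refine (goodOn_of_mem (galg_const 1)).congr fun x _ => ?_
    simp
  | insert a s ha ih =>
    refine ((h a (Finset.mem_insert_self _ _)).mul (ih fun i hi =>
      h i (Finset.mem_insert_of_mem hi))).congr fun x _ => ?_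
    rw [Finset.prod_insert ha]

lemma goodOn_ssize {q : ℕ} (hq : 2 ≤ q) {D : Set (Option (Fin N) → ℕ)} (hD : D ⊆ dom N)
    {τ : (Option (Fin N) → ℕ) → ℕ} (hτ : PL τ) (hle : ∀ x ∈ D, τ x ≤ x none) :
    GoodOn D (fun x => (ssize q (x none) (τ x) : ℂ)) := by
  classical
  have hq0 : (q : ℂ) ≠ 0 := by exact_mod_cast (by omega : q ≠ 0)
  have h1 : (fun x : Option (Fin N) → ℕ => ((q : ℂ) ^ 2) ^ x none * (1 - ((q : ℂ) ^ 2)⁻¹)) ∈
      galg (Option (Fin N)) := galg_mul (galg_pow_coord _ _) (galg_const _)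
  have h2 : (fun x : Option (Fin N) → ℕ => ((q : ℂ) ^ 2) ^ x none *
      (((q : ℂ)⁻¹) ^ τ x * (1 - (q : ℂ)⁻¹))) ∈ galg (Option (Fin N)) :=
    galg_mul (galg_pow_coord _ _) (galg_mul (hτ.pow_mem (inv_ne_zero hq0)) (galg_const _))
  refine ⟨_, galg_ite (hτ.nice_le PL.zero) h1 h2, fun x hx => ?_⟩
  have hx1 : 1 ≤ x none := hD hx
  have hx2 := hle x hx
  unfold ssize
  beta_reduce
  by_cases h0 : τ x = 0
  · rw [if_pos h0, if_pos (show x ∈ {x | τ x ≤ 0} from h0.le),
      Nat.cast_sub (Nat.pow_le_pow_right (by omega) (Nat.sub_le _ _))]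
    obtain ⟨c, hc⟩ := Nat.exists_eq_add_of_le hx1
    have e : 2 * x none - 2 = 2 * c := by omega
    rw [e, hc]
    push_cast
    rw [← pow_mul]
    field_simp
    ring
  · rw [if_neg h0, if_neg (show x ∉ {x | τ x ≤ 0} from fun h => h0 (Nat.le_zero.1 h)),
      Nat.cast_sub (Nat.pow_le_pow_right (by omega) (Nat.sub_le _ _))]
    obtain ⟨c, hc⟩ := Nat.exists_eq_add_of_le (show τ x + 1 ≤ 2 * x none by omega)
    have e1 : 2 * x none - τ x = c + 1 := by omega
    have e2 : 2 * x none - τ x - 1 = c := by omega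
    rw [e2, e1]
    push_cast
    rw [← pow_mul, hc]
    rw [inv_pow, pow_add, pow_add, pow_one]
    have : (q : ℂ) ^ τ x ≠ 0 := pow_ne_zero _ hq0
    field_simp
    ring

lemma goodOn_fsize {q : ℕ} (hq : 2 ≤ q) (v : Fin N) :
    GoodOn (dom N) (fun x => (fsize q (x none) (x (some v)) : ℂ)⁻¹) := by
  classical
  have hq0 : (q : ℂ) ≠ 0 := by exact_mod_cast (by omega : q ≠ 0)
  have h1 : (fun x : Option (Fin N) → ℕ => (((q : ℂ) ^ 2)⁻¹) ^ x (some v)) ∈
      galg (Option (Fin N)) := galg_pow_coord _ _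
  have h2 : (fun x : Option (Fin N) → ℕ => (((q : ℂ) ^ 2)⁻¹) ^ x none *
      (1 - ((q : ℂ) ^ 2)⁻¹)⁻¹) ∈ galg (Option (Fin N)) :=
    galg_mul (galg_pow_coord _ _) (galg_const _)
  have hN : Nice {x : Option (Fin N) → ℕ | x none ≤ x (some v)} :=
    nice_le (Pi.evalAddMonoidHom (fun _ => ℕ) none) (Pi.evalAddMonoidHom (fun _ => ℕ) (some v))
  refine ⟨_, galg_ite hN h2 h1, fun x hx => ?_⟩
  have hx1 : 1 ≤ x none := hx
  unfold fsize ssize
  beta_reduce
  by_cases h0 : x (some v) < x none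
  · rw [if_pos h0, if_neg (show x ∉ {x : Option (Fin N) → ℕ | x none ≤ x (some v)} from
      fun h => absurd h0 (not_lt.2 h))]
    push_cast
    rw [inv_pow, ← pow_mul]
  · rw [if_neg h0, if_pos (show x ∈ {x : Option (Fin N) → ℕ | x none ≤ x (some v)} from
      not_lt.1 h0), if_pos rfl, Nat.cast_sub (Nat.pow_le_pow_right (by omega) (Nat.sub_le _ _)),
      inv_pow, ← mul_inv]
    congr 1
    obtain ⟨c, hc⟩ := Nat.exists_eq_add_of_le hx1
    have e : 2 * x none - 2 = 2 * c := by omega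
    rw [e, hc]
    push_cast
    rw [← pow_mul]
    field_simp
    ring

/-- goodness of the counting functions -/
lemma goodOn_cnt {q : ℕ} (hq : 2 ≤ q) (cn : ℕ → (m : ℕ) → (Fin m → Fin m → ℕ) → ℕ)
    (h0 : ∀ k r, cn k 0 r = 1) (h1 : ∀ k r, 1 ≤ k → cn k 1 r = ssize q k 0)
    (h2 : ∀ k, 1 ≤ k → ∀ m (r : Fin (m + 1) → Fin (m + 1) → ℕ) (w : Fin m),
      (∀ u, r0 r u ≤ r0 r w) → r0 r w ≤ k → cn k (m + 1) r =
        ssize q k (r0 r w) * cn k m (rElim r w))
    (m : ℕ) (ρ : Fin m → Fin m → (Option (Fin N) → ℕ) → ℕ) (hρ : ∀ u v, PL (ρ u v))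
    (D : Set (Option (Fin N) → ℕ)) (hD : D ⊆ dom N) (hle : ∀ u v, ∀ x ∈ D, ρ u v x ≤ x none) :
    GoodOn D (fun x => (cn (x none) m (fun u v => ρ u v x) : ℂ)) := by
  classical
  induction m generalizing D with
  | zero =>
    refine (goodOn_of_mem (galg_const 1)).congr fun x _ => ?_
    rw [h0]
    simp
  | succ m ih =>
    rcases Nat.eq_zero_or_pos m with rfl | hm
    · refine (goodOn_ssize hq hD PL.zero fun x _ => Nat.zero_le _).congr fun x hx => ?_
      rw [h1 _ _ (hD hx)]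
    · have : Nonempty (Fin m) := ⟨⟨0, hm⟩⟩
      let R : Fin m → (Option (Fin N) → ℕ) → ℕ := fun u x => max (ρ 0 u.succ x) (ρ u.succ 0 x)
      have hR : ∀ u, PL (R u) := fun u => (hρ _ _).max (hρ _ _)
      refine goodOn_cover Finset.univ (S := fun w => {x | ∀ u, R u x ≤ R w x})
        (fun w _ => nice_iInter fun u => (hR u).nice_le (hR w)) D (fun x _ => ?_) (fun w _ => ?_)
      · obtain ⟨w, hw⟩ := Finite.exists_max (fun u => R u x)
        exact ⟨w, Finset.mem_univ _, hw⟩
      · have hsub : D ∩ {x | ∀ u, R u x ≤ R w x} ⊆ dom N := Set.inter_subset_left.trans hD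
        have g1 : GoodOn (D ∩ {x | ∀ u, R u x ≤ R w x})
            (fun x => (ssize q (x none) (R w x) : ℂ)) :=
          goodOn_ssize hq hsub (hR w) fun x hx => max_le (hle _ _ x hx.1) (hle _ _ x hx.1)
        have g2 := ih (fun u v x => max (ρ u.succ v.succ x) (if v = w then R u x else 0))
          (fun u v => (hρ _ _).max (by
            by_cases hvw : v = w
            · simp only [if_pos hvw]; exact hR u
            · simp only [if_neg hvw]; exact PL.zero))
          (D ∩ {x | ∀ u, R u x ≤ R w x}) hsub (fun u v x hx => by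
            refine max_le (hle _ _ x hx.1) ?_
            split_ifs
            · exact max_le (hle _ _ x hx.1) (hle _ _ x hx.1)
            · exact Nat.zero_le _)
        refine (g1.mul g2).congr fun x hx => ?_
        have h3 := h2 (x none) (hsub hx) m (fun u v => ρ u v x) w hx.2
          (max_le (hle _ _ x hx.1) (hle _ _ x hx.1))
        rw [h3]
        push_cast
        rfl

end good

section final

variable {n : ℕ} (Γ : SimpleGraph (Fin n)) (O : Type) [CommRing O] [IsDomain O]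
  [IsDiscreteValuationRing O] [Finite (ResidueField O)]

theorem isRat_ccNum : IsRat (fun (k : ℕ) T => (ccNum Γ O k : ℂ) * T ^ k) := by
  classical
  obtain ⟨π, hπ⟩ := isChain_quot O
  set q := Nat.card (ResidueField O) with hqdef
  have hq : 2 ≤ q := (hπ 0).q_pos
  have hq0 : (q : ℂ) ≠ 0 := by exact_mod_cast (by omega : q ≠ 0)
  let cn : ℕ → (m : ℕ) → (Fin m → Fin m → ℕ) → ℕ := fun k m r =>
    Nat.card (Cnt (R := O ⧸ maximalIdeal O ^ k) (Ideal.Quotient.mk _ π) m r)
  let ρ : Fin n → Fin n → (Option (Fin n) → ℕ) → ℕ := fun u v x =>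
    rho Γ (x none) (fun v => x (some v)) u v
  have hρ : ∀ u v, PL (ρ u v) := by
    intro u v
    by_cases huv : Γ.Adj u v
    · have h1 := PL.lin (Pi.evalAddMonoidHom (fun _ : Option (Fin n) => ℕ) none)
        (Pi.evalAddMonoidHom (fun _ : Option (Fin n) => ℕ) (some u) +
          Pi.evalAddMonoidHom (fun _ : Option (Fin n) => ℕ) (some v))
      convert h1 using 1
      funext x
      show rho Γ (x none) (fun v => x (some v)) u v = _
      unfold rho
      rw [if_pos huv]
      rfl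
    · have h1 := PL.zero (ι := Option (Fin n))
      convert h1 using 1
      funext x
      show rho Γ (x none) (fun v => x (some v)) u v = _
      unfold rho
      rw [if_neg huv]
  have hle : ∀ u v, ∀ x ∈ dom n, ρ u v x ≤ x none := by
    intro u v x _
    show rho Γ (x none) (fun v => x (some v)) u v ≤ _
    unfold rho
    split_ifs
    · exact Nat.sub_le _ _
    · exact Nat.zero_le _
  have g1 := goodOn_cnt (N := n) hq cn (fun k r => card_cnt_zero r)
    (fun k r hk => (hπ k).card_cnt_one hk r)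
    (fun k hk m r w hw hwk => (hπ k).card_cnt_succ hk r w hw hwk) n ρ hρ (dom n) subset_rfl hle
  have g2 := goodOn_prod Finset.univ (fun v (_ : v ∈ Finset.univ) => goodOn_fsize (N := n) hq v)
  obtain ⟨G, hG, hGeq⟩ := g1.mul g2
  have hF := galg_mul (galg_pow_coord (ι := Option (Fin n))
    ((q : ℂ) ^ Nat.card (Edge Γ) * ((q : ℂ) ^ n)⁻¹) none) hG
  refine isRat_of_eq hF fun k hk => ?_
  have h := hπ k
  have := h.fin
  have h1 := card_conjClasses (Γ := Γ) (R := O ⧸ maximalIdeal O ^ k)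
  rw [h.card, card_par_eq_sum (π := Ideal.Quotient.mk (maximalIdeal O ^ k) π) (k := k)] at h1
  have h2 : ∀ a : Fin n → Fin (k + 1),
      (Nat.card (VConf Γ (Ideal.Quotient.mk (maximalIdeal O ^ k) π) k (fun v => (a v : ℕ))) : ℂ) =
        G (ext k a) := by
    intro a
    rw [← hGeq (ext k a) hk]
    have h3 := h.card_cnt_eq hk Γ (fun v => (a v : ℕ)) (fun v => Nat.lt_succ_iff.1 (a v).2)
    show _ = (Nat.card (Cnt (R := O ⧸ maximalIdeal O ^ k) (Ideal.Quotient.mk _ π) n
      (rho Γ k (fun v => (a v : ℕ)))) : ℂ) * ∏ v, (fsize q k (a v) : ℂ)⁻¹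
    rw [h3, Finset.prod_inv_distrib]
    push_cast
    rw [mul_assoc, mul_inv_cancel₀, mul_one]
    rw [Finset.prod_ne_zero_iff]
    intro v _
    have h4 : 0 < fsize q k (a v) := by
      unfold fsize ssize
      split_ifs
      · exact pow_pos (by omega) _
      · exact Nat.sub_pos_of_lt (Nat.pow_lt_pow_right (by omega) (by omega))
      · omega
    exact_mod_cast h4.ne'
  have h3 : (ccNum Γ O k : ℂ) * ((q : ℂ) ^ k) ^ n = ((q : ℂ) ^ k) ^ Nat.card (Edge Γ) *
      ∑ a : Fin n → Fin (k + 1), G (ext k a) := by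
    have h4 : ((ccNum Γ O k * (q ^ k) ^ n : ℕ) : ℂ) = (((q ^ k) ^ Nat.card (Edge Γ) *
      ∑ a : Fin n → Fin (k + 1), Nat.card (VConf Γ (Ideal.Quotient.mk (maximalIdeal O ^ k) π) k
        (fun v => (a v : ℕ))) : ℕ) : ℂ) := by
      unfold ccNum
      rw [h1]
    push_cast at h4
    rw [h4, Finset.sum_congr rfl fun a _ => h2 a]
  have h5 : (ccNum Γ O k : ℂ) = ((q : ℂ) ^ k) ^ Nat.card (Edge Γ) * (((q : ℂ) ^ k) ^ n)⁻¹ *
      ∑ a : Fin n → Fin (k + 1), G (ext k a) := by
    have hne : ((q : ℂ) ^ k) ^ n ≠ 0 := pow_ne_zero _ (pow_ne_zero _ hq0)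
    field_simp
    rw [← h3]
  rw [h5, Finset.mul_sum]
  refine Finset.sum_congr rfl fun a _ => ?_
  rw [ext_none, mul_pow, inv_pow, ← pow_mul, ← pow_mul, ← pow_mul, ← pow_mul, mul_comm k,
    mul_comm k]

/-- the class counting zeta functions of graphical groups have meromorphic continuations -/
theorem exists_isZetaCC : ∃ Z : ℂ → ℂ, IsZetaCC Γ O Z :=
  (isRat_ccNum Γ O).continuation (Finite.one_lt_card)

end final

end Pool.Agent.Lib_helper4.GraphicalZeta
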